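import Pool.Agent.KG.Rel

/-!
# Numbers of zeros of the gadget graphs
-/

set_option autoImplicit false

open scoped BigOperators

namespace Pool.Agent.KG

/-- The first end points of the graph with a new vertex `none` joined to `a`, `b`, `c`. -/
def starS {V E : Type} (a b : V) (s : E → V) : Option (Option (Option E)) → Option V :=
  ae (some b) (ae (some a) (ae none fun e => some (s e)))

/-- The second end points. -/
def starT {V E : Type} (c : V) (t : E → V) : Option (Option (Option E)) → Option V :=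
  ae none (ae none (ae (some c) fun e => some (t e)))

section

variable {V W E K : Type} [Fintype V] [Fintype W] [Fintype E] [DecidableEq E] [Field K] [Fintype K]

/-- MODULE CSUM (1). -/
theorem NS_eq_sum (s t : E → V) : (NS s t K : ℤ) = ∑ x : E → K, zr (sym s t x) := by
  classical
  unfold NS zr
  rw [Finset.sum_boole, Nat.card_eq_fintype_card, Fintype.card_subtype]

/-- MODULE CSUM (2): `Equiv.piOptionEquivProd`. -/
theorem sum_option (f : (Option E → K) → ℤ) :
    ∑ x : Option E → K, f x = ∑ x : E → K, ∑ y : K, f fun o => o.elim y x := by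
  rw [Finset.sum_comm, ← Fintype.sum_prod_type']
  refine Fintype.sum_equiv (Equiv.piOptionEquivProd (β := fun _ => K)) _ _ fun x => ?_
  congr 1
  funext o
  cases o <;> rfl

/-- MODULE CSTAR.

Proof: `NS_eq_sum`, three times `sum_option`, and
`sym (starS a b s) (starT c t) x = (vec (starS a b s) (starT c t) x (some a) (some b) none).A
= ((((vec s t x' a b c).U z).T13 x₁).T23 x₂).A` by `vec_ae23`, `vec_ae13`, `vec_new` (the edges are, from outside to
inside, `(b, none)`, `(a, none)`, `(none, c)`); note that `(vec s t x a b c).A = sym s t x` by definition. -/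
theorem NS_star (s t : E → V) (a b c : V) (hab : a ≠ b) (hac : a ≠ c) (hbc : b ≠ c) :
    (NS (starS a b s) (starT c t) K : ℤ) = ∑ x : E → K, nst (vec s t x a b c) := by
  have h1 : (some a : Option V) ≠ some b := fun h => hab (Option.some.inj h)
  have h2 : (some a : Option V) ≠ none := Option.some_ne_none a
  have h3 : (some b : Option V) ≠ none := Option.some_ne_none b
  have key : ∀ x : Option (Option (Option E)) → K,
      sym (starS a b s) (starT c t) x =
        ((((vec s t (x ∘ some ∘ some ∘ some) a b c).U (x (some (some none)))).T13 (x (some none))).T23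
          (x none)).A := by
    intro x
    have e1 : sym (starS a b s) (starT c t) x =
      (vec (starS a b s) (starT c t) x (some a) (some b) none).A := rfl
    rw [e1, starS, starT, vec_ae23 _ _ _ _ _ _ h1 h2 h3, vec_ae13 _ _ _ _ _ _ h1 h2 h3,
      vec_new _ _ _ _ _ _ hab hac hbc]
    rfl
  rw [NS_eq_sum, sum_option, sum_option, sum_option]
  refine Finset.sum_congr rfl fun x _ => ?_
  unfold nst
  refine Finset.sum_congr rfl fun z _ => Finset.sum_congr rfl fun x1 _ => Finset.sum_congr rfl fun y _ => ?_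
  rw [key]
  rfl

/-- MODULE CG1. -/
theorem NS_g2 (s t : E → V) (a b c : V) (hab : a ≠ b) (hac : a ≠ c) (hbc : b ≠ c) :
    (NS (ae a s) (ae c t) K : ℤ) = ∑ x : E → K, n2 (vec s t x a b c) := by
  have key : ∀ x : Option E → K, sym (ae a s) (ae c t) x =
      ((vec s t (x ∘ some) a b c).T13 (x none)).A := by
    intro x
    rw [← vec_ae13 s t x a b c hab hac hbc]
    rfl
  rw [NS_eq_sum, sum_option]
  refine Finset.sum_congr rfl fun x _ => ?_
  unfold n2
  refine Finset.sum_congr rfl fun y _ => ?_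
  rw [key]
  rfl

theorem NS_g3 (s t : E → V) (a b c : V) (hab : a ≠ b) (hac : a ≠ c) (hbc : b ≠ c) :
    (NS (ae b s) (ae c t) K : ℤ) = ∑ x : E → K, n3 (vec s t x a b c) := by
  have key : ∀ x : Option E → K, sym (ae b s) (ae c t) x =
      ((vec s t (x ∘ some) a b c).T23 (x none)).A := by
    intro x
    rw [← vec_ae23 s t x a b c hab hac hbc]
    rfl
  rw [NS_eq_sum, sum_option]
  refine Finset.sum_congr rfl fun x _ => ?_
  unfold n3
  refine Finset.sum_congr rfl fun y _ => ?_
  rw [key]
  rfl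

theorem NS_g5 (s t : E → V) (a b c : V) (hab : a ≠ b) (hac : a ≠ c) (hbc : b ≠ c) :
    (NS (ae a (ae a s)) (ae b (ae c t)) K : ℤ) = ∑ x : E → K, n5 (vec s t x a b c) := by
  have key : ∀ x : Option (Option E) → K, sym (ae a (ae a s)) (ae b (ae c t)) x =
      (((vec s t (x ∘ some ∘ some) a b c).T13 (x (some none))).T12 (x none)).A := by
    intro x
    have e := vec_ae12 (ae a s) (ae c t) x a b c hab hac hbc
    rw [vec_ae13 s t (x ∘ some) a b c hab hac hbc] at e
    exact congrArg V5.A e
  rw [NS_eq_sum, sum_option, sum_option]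
  refine Finset.sum_congr rfl fun x _ => ?_
  unfold n5
  refine Finset.sum_congr rfl fun z _ => Finset.sum_congr rfl fun y _ => ?_
  rw [key]
  rfl

theorem NS_g6 (s t : E → V) (a b c : V) (hab : a ≠ b) (hac : a ≠ c) (hbc : b ≠ c) :
    (NS (ae a (ae b s)) (ae b (ae c t)) K : ℤ) = ∑ x : E → K, n6 (vec s t x a b c) := by
  have key : ∀ x : Option (Option E) → K, sym (ae a (ae b s)) (ae b (ae c t)) x =
      (((vec s t (x ∘ some ∘ some) a b c).T23 (x (some none))).T12 (x none)).A := by
    intro x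
    have e := vec_ae12 (ae b s) (ae c t) x a b c hab hac hbc
    rw [vec_ae23 s t (x ∘ some) a b c hab hac hbc] at e
    exact congrArg V5.A e
  rw [NS_eq_sum, sum_option, sum_option]
  refine Finset.sum_congr rfl fun x _ => ?_
  unfold n6
  refine Finset.sum_congr rfl fun z _ => Finset.sum_congr rfl fun y _ => ?_
  rw [key]
  rfl

theorem NS_g7 (s t : E → V) (a b c : V) (hab : a ≠ b) (hac : a ≠ c) (hbc : b ≠ c) :
    (NS (ae a s) (ae b t) K : ℤ) = ∑ x : E → K, n7 (vec s t x a b c) := by
  have key : ∀ x : Option E → K, sym (ae a s) (ae b t) x =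
      ((vec s t (x ∘ some) a b c).T12 (x none)).A := by
    intro x
    rw [← vec_ae12 s t x a b c hab hac hbc]
    rfl
  rw [NS_eq_sum, sum_option]
  refine Finset.sum_congr rfl fun x _ => ?_
  unfold n7
  refine Finset.sum_congr rfl fun y _ => ?_
  rw [key]
  rfl

/-- MODULE CG2: `NS_star` for the graph with the edge `(a, b)`, `sum_option` and `vec_ae12`. -/
theorem NS_g9 (s t : E → V) (a b c : V) (hab : a ≠ b) (hac : a ≠ c) (hbc : b ≠ c) :
    (NS (starS a b (ae a s)) (starT c (ae b t)) K : ℤ) = ∑ x : E → K, n9 (vec s t x a b c) := by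
  rw [NS_star _ _ _ _ _ hab hac hbc, sum_option]
  refine Finset.sum_congr rfl fun x _ => ?_
  unfold n9
  refine Finset.sum_congr rfl fun y _ => ?_
  rw [vec_ae12 s t _ a b c hab hac hbc]
  rfl

/-- MODULE CG2 (2): `NS_star`, `sum_option` twice, `vec_ae13`, `vec_new`. -/
theorem NS_g10 (s t : E → V) (a b c : V) (hab : a ≠ b) (hac : a ≠ c) (hbc : b ≠ c) :
    (NS (starS (some a) (some b) (ae (some a) (ae none fun e => some (s e))))
      (starT none (ae none (ae (some c) fun e => some (t e)))) K : ℤ) =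
      ∑ x : E → K, n10 (vec s t x a b c) := by
  have h1 : (some a : Option V) ≠ some b := fun h => hab (Option.some.inj h)
  have h2 : (some a : Option V) ≠ none := Option.some_ne_none a
  have h3 : (some b : Option V) ≠ none := Option.some_ne_none b
  rw [NS_star _ _ _ _ _ h1 h2 h3, sum_option, sum_option]
  refine Finset.sum_congr rfl fun x _ => ?_
  unfold n10
  refine Finset.sum_congr rfl fun t' _ => Finset.sum_congr rfl fun y _ => ?_
  rw [vec_ae13 _ _ _ _ _ _ h1 h2 h3, vec_new _ _ _ _ _ _ hab hac hbc]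
  rfl

/-- MODULE CG2 (3): `NS_star` twice. -/
theorem NS_g11 (s t : E → V) (a b c : V) (hab : a ≠ b) (hac : a ≠ c) (hbc : b ≠ c) :
    (NS (starS (some a) (some b) (starS a b s)) (starT none (starT c t)) K : ℤ) =
      ∑ x : E → K, n11 (vec s t x a b c) := by
  have h1 : (some a : Option V) ≠ some b := fun h => hab (Option.some.inj h)
  have h2 : (some a : Option V) ≠ none := Option.some_ne_none a
  have h3 : (some b : Option V) ≠ none := Option.some_ne_none b
  rw [NS_star _ _ _ _ _ h1 h2 h3, sum_option, sum_option, sum_option]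
  refine Finset.sum_congr rfl fun x _ => ?_
  unfold n11
  refine Finset.sum_congr rfl fun t' _ => Finset.sum_congr rfl fun z _ => Finset.sum_congr rfl fun y _ => ?_
  rw [starS, starT, vec_ae23 _ _ _ _ _ _ h1 h2 h3, vec_ae13 _ _ _ _ _ _ h1 h2 h3,
    vec_new _ _ _ _ _ _ hab hac hbc]
  rfl

private theorem ne_of_ker (a b c : W) (hab : a ≠ b) (hac : a ≠ c) (hbc : b ≠ c) (π : W → V)
    (hk : ∀ u v, π u = π v ↔ u = v ∨ (u = a ∧ v = b) ∨ (u = b ∧ v = a)) : π a ≠ π c := by
  intro h
  rcases (hk a c).1 h with h | ⟨_, h⟩ | ⟨h, _⟩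
  · exact hac h
  · exact hbc h.symm
  · exact hab h

private theorem ker_mg (a b : W) (π : W → V)
    (hk : ∀ u v, π u = π v ↔ u = v ∨ (u = a ∧ v = b) ∨ (u = b ∧ v = a)) (u v : W) :
    π u = π v ↔ mg a b u = mg a b v := by
  classical
  rw [hk u v]
  simp only [mg]
  by_cases hu : u = b
  · subst hu
    by_cases hv : v = u
    · simp [hv]
    · rw [if_pos rfl, if_neg hv]
      constructor
      · rintro (h | ⟨_, h⟩ | ⟨_, h⟩)
        · exact absurd h.symm hv
        · exact absurd h hv
        · exact h.symm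
      · exact fun h => Or.inr (Or.inr ⟨rfl, h.symm⟩)
  · by_cases hv : v = b
    · subst hv
      rw [if_neg hu, if_pos rfl]
      constructor
      · rintro (h | ⟨h, _⟩ | ⟨h, _⟩)
        · exact absurd h hu
        · exact h
        · exact absurd h hu
      · exact fun h => Or.inr (Or.inl ⟨h, rfl⟩)
    · rw [if_neg hu, if_neg hv]
      constructor
      · rintro (h | ⟨_, h⟩ | ⟨h, _⟩)
        · exact h
        · exact absurd h hv
        · exact absurd h hu
      · exact fun h => Or.inl h

private theorem ker_mg3 (a b c : W) (hab : a ≠ b) (hac : a ≠ c) (hbc : b ≠ c) (π : W → V)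
    (hk : ∀ u v, π u = π v ↔ u = v ∨ (u = a ∧ v = b) ∨ (u = b ∧ v = a)) (u v : W) :
    (mg (π a) (π c) ∘ π) u = (mg (π a) (π c) ∘ π) v ↔ mg3 a b c u = mg3 a b c v := by
  classical
  have hc : ∀ u, π u = π c ↔ u = c := by
    intro u
    rw [hk]
    constructor
    · rintro (h | ⟨_, h⟩ | ⟨_, h⟩)
      · exact h
      · exact absurd h.symm hbc
      · exact absurd h.symm hac
    · exact fun h => Or.inl h
  have e1 : ∀ u, (mg (π a) (π c) ∘ π) u = π (if u = c then a else u) := by
    intro u
    simp only [Function.comp, mg]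
    by_cases h : u = c
    · rw [if_pos ((hc u).2 h), if_pos h]
    · rw [if_neg (fun h' => h ((hc u).1 h')), if_neg h]
  have e2 : ∀ u, mg3 a b c u = mg a b (if u = c then a else u) := by
    intro u
    simp only [mg3, mg]
    by_cases h : u = c
    · rw [if_pos (Or.inr h), if_pos h, if_neg hab]
    · rw [if_neg h]
      by_cases hb : u = b
      · rw [if_pos (Or.inl hb), if_pos hb]
      · rw [if_neg (by tauto), if_neg hb]
  rw [e1, e1, e2, e2]
  exact ker_mg a b π hk _ _

/-- MODULE CG0.

Proof: `sym_ae` for the edge `(π a, π c)` of the graph `π ∘ s`, `π ∘ t` (`π a ≠ π c`), `mer_surj` and `mer_ker`: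
`sym (π ∘ s) (π ∘ t) x = mer (mg a b) s t x`, and `mer (mg (π a) (π c)) (π ∘ s) (π ∘ t) x = mer (mg3 a b c) s t x` by
`mer_comp`, `mer_ker`. -/
theorem NS_g0 (s t : E → W) (a b c : W) (hab : a ≠ b) (hac : a ≠ c) (hbc : b ≠ c) (π : W → V)
    (hπ : Function.Surjective π) (hk : ∀ u v, π u = π v ↔ u = v ∨ (u = a ∧ v = b) ∨ (u = b ∧ v = a)) :
    (NS (ae (π a) (π ∘ s)) (ae (π c) (π ∘ t)) K : ℤ) = ∑ x : E → K, n0 (vec s t x a b c) := by
  have hac' : π a ≠ π c := ne_of_ker a b c hab hac hbc π hk
  have key1 : ∀ x : E → K, sym (π ∘ s) (π ∘ t) x = mer (mg a b) s t x := by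
    intro x
    rw [← mer_surj π hπ s t x]
    exact mer_ker _ _ (fun u v => ker_mg a b π hk u v) s t x
  have key2 : ∀ x : E → K, mer (mg (π a) (π c)) (π ∘ s) (π ∘ t) x = mer (mg3 a b c) s t x := by
    intro x
    rw [mer_comp π hπ]
    exact mer_ker _ _ (fun u v => ker_mg3 a b c hab hac hbc π hk u v) s t x
  rw [NS_eq_sum, sum_option]
  refine Finset.sum_congr rfl fun x _ => ?_
  unfold n0
  refine Finset.sum_congr rfl fun y _ => ?_
  have e2 := sym_ae (π a) (π c) (π ∘ s) (π ∘ t) (fun o : Option E => o.elim y x) hac'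
  rw [e2]
  have e3 : ((fun o : Option E => o.elim y x) ∘ some) = x := rfl
  rw [e3, key1, key2]
  rfl

theorem NS_g1 (s t : E → W) (a b c : W) (π : W → V)
    (hπ : Function.Surjective π) (hk : ∀ u v, π u = π v ↔ u = v ∨ (u = a ∧ v = b) ∨ (u = b ∧ v = a)) :
    (NS (π ∘ s) (π ∘ t) K : ℤ) = ∑ x : E → K, ind ((vec s t x a b c).P12 = 0) := by
  rw [NS_eq_sum]
  refine Finset.sum_congr rfl fun x _ => ?_
  have key1 : sym (π ∘ s) (π ∘ t) x = mer (mg a b) s t x := by
    rw [← mer_surj π hπ s t x]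
    exact mer_ker _ _ (fun u v => ker_mg a b π hk u v) s t x
  rw [key1]
  rfl

/-- MODULE L2G: the identity for a vertex of degree `5`.

Proof: `num_identity` for `vec s t x a b c` (`vec_rel`), summed over `x : E → K`, with the `NS_g`. -/
theorem L2G (s t : E → W) (a b c : W) (hab : a ≠ b) (hac : a ≠ c) (hbc : b ≠ c) (π : W → V)
    (hπ : Function.Surjective π) (hk : ∀ u v, π u = π v ↔ u = v ∨ (u = a ∧ v = b) ∨ (u = b ∧ v = a)) :
    (Fintype.card K : ℤ) ^ 2 * ((Fintype.card K : ℤ) - 2) *
        (NS (ae (π a) (π ∘ s)) (ae (π c) (π ∘ t)) K : ℤ) =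
      (Fintype.card K : ℤ) ^ 2 * (NS (π ∘ s) (π ∘ t) K : ℤ) -
      (Fintype.card K : ℤ) * ((Fintype.card K : ℤ) - 1) ^ 2 *
        ((NS (ae a s) (ae c t) K : ℤ) + (NS (ae b s) (ae c t) K : ℤ)) -
      (Fintype.card K : ℤ) * ((Fintype.card K : ℤ) - 1) ^ 2 * (NS s t K : ℤ) -
      (Fintype.card K : ℤ) ^ 2 * (NS (ae a (ae a s)) (ae b (ae c t)) K : ℤ) -
      (Fintype.card K : ℤ) * ((Fintype.card K : ℤ) ^ 2 - 2 * (Fintype.card K : ℤ) + 2) *
        (NS (ae a (ae b s)) (ae b (ae c t)) K : ℤ) -
      (Fintype.card K : ℤ) * (NS (ae a s) (ae b t) K : ℤ) -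
      ((Fintype.card K : ℤ) ^ 2 - 3 * (Fintype.card K : ℤ) + 1) * (NS (starS a b s) (starT c t) K : ℤ) -
      (NS (starS a b (ae a s)) (starT c (ae b t)) K : ℤ) -
      ((Fintype.card K : ℤ) - 2) *
        (NS (starS (some a) (some b) (ae (some a) (ae none fun e => some (s e))))
          (starT none (ae none (ae (some c) fun e => some (t e)))) K : ℤ) +
      (NS (starS (some a) (some b) (starS a b s)) (starT none (starT c t)) K : ℤ) -
      (2 * (Fintype.card K : ℤ) ^ 3 - (Fintype.card K : ℤ)) * (Fintype.card K : ℤ) ^ Fintype.card E := by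
  have h1 : (NS s t K : ℤ) = ∑ x : E → K, ind ((vec s t x a b c).A = 0) := NS_eq_sum s t
  have h2 : (Fintype.card K : ℤ) ^ Fintype.card E = ∑ x : E → K, (1 : ℤ) := by
    rw [Finset.sum_const, Finset.card_univ, Fintype.card_fun, nsmul_eq_mul, mul_one]
    push_cast
    rfl
  rw [NS_g0 s t a b c hab hac hbc π hπ hk, NS_g1 s t a b c π hπ hk, NS_g2 s t a b c hab hac hbc,
    NS_g3 s t a b c hab hac hbc, h1, NS_g5 s t a b c hab hac hbc, NS_g6 s t a b c hab hac hbc,
    NS_g7 s t a b c hab hac hbc, NS_star s t a b c hab hac hbc, NS_g9 s t a b c hab hac hbc,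
    NS_g10 s t a b c hab hac hbc, NS_g11 s t a b c hab hac hbc, h2, ← Finset.sum_add_distrib]
  simp only [Finset.mul_sum]
  simp only [← Finset.sum_sub_distrib, ← Finset.sum_add_distrib]
  refine Finset.sum_congr rfl fun x _ => ?_
  have := num_identity _ (vec_rel s t x a b c hab hac hbc)
  rw [this]
  ring

/-- MODULE L1G: the identity for doubled edges.

Proof: `dbl_identity` with `A = sym s t x`, `B = sym (π ∘ s) (π ∘ t) x`, summed over `x : E → K`;
`sym_ae`, `mer_ae_loop`, `mer_surj`, `mer_ker` give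
`sym (ae a (ae a s)) (ae b (ae b t)) (x, y) = x y A + (x + y) B`. -/
theorem L1G (s t : E → W) (a b : W) (hab : a ≠ b) (π : W → V)
    (hπ : Function.Surjective π) (hk : ∀ u v, π u = π v ↔ u = v ∨ (u = a ∧ v = b) ∨ (u = b ∧ v = a)) :
    (Fintype.card K : ℤ) * (NS (π ∘ s) (π ∘ t) K : ℤ) =
      (NS (ae a (ae a s)) (ae b (ae b t)) K : ℤ) - ((Fintype.card K : ℤ) - 1) * (NS s t K : ℤ) -
      ((Fintype.card K : ℤ) - 2) * (NS (ae a s) (ae b t) K : ℤ) -
      (Fintype.card K : ℤ) ^ Fintype.card E := by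
  have h2 : (Fintype.card K : ℤ) ^ Fintype.card E = ∑ x : E → K, (1 : ℤ) := by
    rw [Finset.sum_const, Finset.card_univ, Fintype.card_fun, nsmul_eq_mul, mul_one]
    push_cast
    rfl
  have h1 : ∀ x : Option E → K, sym (ae a s) (ae b t) x =
      x none * sym s t (x ∘ some) + mer (mg a b) s t (x ∘ some) := fun x => sym_ae a b s t x hab
  have h3 : ∀ x : Option (Option E) → K, sym (ae a (ae a s)) (ae b (ae b t)) x =
      x none * x (some none) * sym s t (x ∘ some ∘ some) +
        (x none + x (some none)) * mer (mg a b) s t (x ∘ some ∘ some) := by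
    intro x
    rw [sym_ae a b _ _ x hab, h1, mer_ae_loop (mg a b) a b s t (x ∘ some) (by simp [mg])]
    simp only [Function.comp]
    change x none * (x (some none) * sym s t (x ∘ some ∘ some) + mer (mg a b) s t (x ∘ some ∘ some)) +
      x (some none) * mer (mg a b) s t (x ∘ some ∘ some) = _
    ring
  have key1 : ∀ x : E → K, sym (π ∘ s) (π ∘ t) x = mer (mg a b) s t x := by
    intro x
    rw [← mer_surj π hπ s t x]
    exact mer_ker _ _ (fun u v => ker_mg a b π hk u v) s t x
  rw [NS_eq_sum, NS_eq_sum, NS_eq_sum, NS_eq_sum, sum_option, sum_option, sum_option, h2]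
  simp only [Finset.mul_sum]
  simp only [← Finset.sum_sub_distrib]
  refine Finset.sum_congr rfl fun x _ => ?_
  have := dbl_identity (sym s t x) (mer (mg a b) s t x)
  simp only [Finset.mul_sum] at this
  rw [key1]
  simp only [h1, h3]
  have e : ∀ A B x1 x2 : K, zr (x2 * x1 * A + (x2 + x1) * B) = zr (x1 * x2 * A + (x1 + x2) * B) := by
    intro A B x1 x2
    rw [mul_comm x2 x1, add_comm x2 x1]
  change (Fintype.card K : ℤ) * zr (mer (mg a b) s t x) =
    (∑ x1 : K, ∑ x2 : K, zr (x2 * x1 * sym s t x + (x2 + x1) * mer (mg a b) s t x)) -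
      ((Fintype.card K : ℤ) - 1) * zr (sym s t x) -
      (∑ x1 : K, ((Fintype.card K : ℤ) - 2) * zr (x1 * sym s t x + mer (mg a b) s t x)) - 1
  simp only [e]
  exact this

/-- MODULE LOOPG: loops.  Proof: `tht_loop`, `sum_option`; `∑_y zr (y A) = 1 + (q - 1) zr A`. -/
theorem NS_loop (s t : E → V) (a : V) :
    (NS (ae a s) (ae a t) K : ℤ) =
      ((Fintype.card K : ℤ) - 1) * (NS s t K : ℤ) + (Fintype.card K : ℤ) ^ Fintype.card E := by
  have h2 : (Fintype.card K : ℤ) ^ Fintype.card E = ∑ x : E → K, (1 : ℤ) := by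
    rw [Finset.sum_const, Finset.card_univ, Fintype.card_fun, nsmul_eq_mul, mul_one]
    push_cast
    rfl
  have h1 : ∀ x : Option E → K, sym (ae a s) (ae a t) x = x none * sym s t (x ∘ some) := by
    intro x
    rw [sym_eq_tht, tht_loop, sym_eq_tht]
    rfl
  rw [NS_eq_sum, NS_eq_sum, sum_option, h2, Finset.mul_sum, ← Finset.sum_add_distrib]
  refine Finset.sum_congr rfl fun x _ => ?_
  simp only [h1]
  change ∑ y : K, zr (y * sym s t x) = _
  generalize sym s t x = A
  classical
  by_cases hA : A = 0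
  · simp [zr, hA]
  · simp [zr, hA]

end

end Pool.Agent.KG
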