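import Pool.Agent.KG.Tree

/-!
# Deletion and contraction
-/

set_option autoImplicit false

open scoped BigOperators

namespace Pool.Agent.KG

private theorem compl_map {E : Type} [Fintype E] {_ : DecidableEq E} {_ : DecidableEq (Option E)}
    (T : Finset E) :
    (T.map Function.Embedding.some)ᶜ = Finset.insertNone Tᶜ := by
  ext o
  cases o with
  | none => simp
  | some e => simp

private theorem compl_ins {E : Type} [Fintype E] {_ : DecidableEq E} {_ : DecidableEq (Option E)}
    (T : Finset E) :
    (Finset.insertNone T)ᶜ = (Tᶜ).map Function.Embedding.some := by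
  ext o
  cases o with
  | none => simp
  | some e => simp

private theorem sum_option {E K : Type} [Fintype E] [CommRing K] (F : Finset (Option E) → K) :
    ∑ T : Finset (Option E), F T = (∑ T : Finset E, F (T.map Function.Embedding.some)) +
      ∑ T : Finset E, F (Finset.insertNone T) := by
  classical
  rw [← Finset.sum_filter_add_sum_filter_not Finset.univ (fun T : Finset (Option E) => none ∉ T)]
  congr 1
  · symm
    refine Finset.sum_nbij' (fun T => T.map Function.Embedding.some) (fun T => Finset.eraseNone T)
      ?_ ?_ ?_ ?_ ?_
    · intro T _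
      simp
    · intro T _
      exact Finset.mem_univ _
    · intro T _
      ext e
      simp
    · intro T hT
      have h1 : none ∉ T := (Finset.mem_filter.1 hT).2
      ext o
      cases o with
      | none => simp [h1]
      | some e => simp
    · intro T _
      rfl
  · symm
    refine Finset.sum_nbij' (fun T => Finset.insertNone T) (fun T => Finset.eraseNone T)
      ?_ ?_ ?_ ?_ ?_
    · intro T _
      simp
    · intro T _
      exact Finset.mem_univ _
    · intro T _
      ext e
      simp
    · intro T hT
      have h1 : none ∈ T := not_not.1 (Finset.mem_filter.1 hT).2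
      ext o
      cases o with
      | none => simp [h1]
      | some e => simp
    · intro T _
      rfl

private theorem isTree_map {V E : Type} [Fintype V] (a b : V) (s t : E → V) (T : Finset E) :
    IsTree (ae a s) (ae b t) (T.map Function.Embedding.some) ↔ IsTree s t T := by
  unfold IsTree
  rw [Finset.card_map]
  refine and_congr_right fun _ => ?_
  have h2 : (fun x y => ∃ e ∈ T.map Function.Embedding.some, (ae a s e = x ∧ ae b t e = y) ∨
      (ae a s e = y ∧ ae b t e = x)) =
      fun x y => ∃ e ∈ T, (s e = x ∧ t e = y) ∨ (s e = y ∧ t e = x) := by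
    funext x y
    apply propext
    constructor
    · rintro ⟨o, ho, h⟩
      obtain ⟨e, he, rfl⟩ := Finset.mem_map.1 ho
      exact ⟨e, he, h⟩
    · rintro ⟨e, he, h⟩
      exact ⟨some e, Finset.mem_map_of_mem Function.Embedding.some he, h⟩
  rw [h2]

/-- MODULE LOOP: a loop is in no spanning tree.

Proof.  The sum over `T : Finset (Option E)` is the sum over the `T` without `none` (these are
`T₀.map some`) and those with `none` (`Finset.insertNone T₀`).  For the first: `IsTree (ae a s) (ae a t) (T₀.map
Function.Embedding.some) ↔ IsTree s t T₀`, `∏_{T₀.map some} α = ∏_{T₀} α ∘ some`, and the complement is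
`insertNone T₀ᶜ`.  The second kind is never a tree: it is connected iff `T₀` is connected (the step along
the loop is trivial), so `card V ≤ T₀.card + 1` by `card_le_of_conn`, but `(insertNone T₀).card = T₀.card + 1`
should be `card V - 1`. -/
theorem tht_loop {V E K : Type} [Fintype V] [Fintype E] [CommRing K] (a : V) (s t : E → V)
    (α β : Option E → K) :
    tht (ae a s) (ae a t) α β = β none * tht s t (α ∘ some) (β ∘ some) := by
  classical
  unfold tht
  rw [sum_option]
  have h0 : ∀ T : Finset E, ¬ IsTree (ae a s) (ae a t) (Finset.insertNone T) := by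
    intro T h
    have h1 := card_le_of_conn s t T fun u v => ?_
    · have h2 := h.1
      rw [Finset.card_insertNone] at h2
      omega
    · refine Relation.ReflTransGen.lift' (p := fun x y => ∃ e ∈ T, (s e = x ∧ t e = y) ∨
        (s e = y ∧ t e = x)) id ?_ _ _ (h.2 u v)
      rintro x y ⟨o, ho, hst⟩
      cases o with
      | none =>
        have hxy : x = y := by
          rcases hst with ⟨h3, h4⟩ | ⟨h3, h4⟩
          · exact h3.symm.trans h4
          · exact h4.symm.trans h3
        subst hxy
        exact Relation.ReflTransGen.refl
      | some e => exact Relation.ReflTransGen.single ⟨e, Finset.some_mem_insertNone.1 ho, hst⟩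
  have key : ∀ x y z : K, y = 0 → x = z → x + y = z := fun x y z hy hx => by rw [hy, hx, add_zero]
  refine key _ _ _ (Finset.sum_eq_zero fun T _ => if_neg (h0 T)) ?_
  rw [Finset.mul_sum]
  refine Finset.sum_congr rfl fun T _ => ?_
  by_cases h : IsTree s t T
  · rw [if_pos h, if_pos ((isTree_map a a s t T).2 h), compl_map, Finset.prod_map,
      Finset.prod_insertNone]
    simp only [Function.comp_apply, Function.Embedding.some_apply]
    ring
  · rw [if_neg h, if_neg (fun h' => h ((isTree_map a a s t T).1 h')), mul_zero]

/-- MODULE ISOL: an isolated vertex. -/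
theorem tht_isol {V E K : Type} [Fintype V] [Fintype E] [CommRing K] (s t : E → V) (u v : V)
    (huv : u ≠ v) (h : ∀ e, s e ≠ v ∧ t e ≠ v) (α β : E → K) : tht s t α β = 0 := by
  classical
  unfold tht
  refine Finset.sum_eq_zero fun T _ => if_neg fun hT => ?_
  have h1 := hT.2 u v
  rcases Relation.ReflTransGen.cases_tail h1 with h2 | ⟨w, _, e, _, h2⟩
  · exact huv h2.symm
  · rcases h2 with ⟨_, h3⟩ | ⟨h3, _⟩
    · exact (h e).2 h3
    · exact (h e).1 h3

/-- MODULE DCT: spanning trees that contain the new edge.

Proof.  `card V = card W + 1` (the fibres of `π` have one element, except that of `π a = π b` which is `{a, b}`),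
so the two conditions on the number of edges agree.  Connectivity: `→` the image of a path under
`π` (the step along the new edge becomes trivial).  `←` by induction on the path in `W` from `π u`: for
all `v` with `π v` = its end point `u` is connected with `v`; two points of the same fibre are equal or
joined by the new edge. -/
theorem isTree_insertNone {V W E : Type} [Fintype V] [Fintype W] (a b : V) (hab : a ≠ b)
    (π : V → W) (hπ : Function.Surjective π)
    (hk : ∀ u v, π u = π v ↔ u = v ∨ (u = a ∧ v = b) ∨ (u = b ∧ v = a)) (s t : E → V) (T : Finset E) :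
    IsTree (ae a s) (ae b t) (Finset.insertNone T) ↔ IsTree (π ∘ s) (π ∘ t) T := by
  classical
  have hπab : π a = π b := (hk a b).2 (Or.inr (Or.inl ⟨rfl, rfl⟩))
  have hcard : Fintype.card V = Fintype.card W + 1 := by
    rw [← Fintype.card_option]
    refine Fintype.card_of_bijective (f := fun v : V => if v = b then none else some (π v)) ⟨?_, ?_⟩
    · intro u v huv
      by_cases hu : u = b
      · by_cases hv : v = b
        · exact hu.trans hv.symm
        · simp [hu, hv] at huv
      · by_cases hv : v = b
        · simp [hu, hv] at huv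
        · simp only [hu, hv, if_false, Option.some.injEq] at huv
          rcases (hk u v).1 huv with h1 | ⟨_, h1⟩ | ⟨h1, _⟩
          · exact h1
          · exact absurd h1 hv
          · exact absurd h1 hu
    · intro o
      cases o with
      | none => exact ⟨b, by simp⟩
      | some w =>
        obtain ⟨v, rfl⟩ := hπ w
        by_cases hv : v = b
        · exact ⟨a, by simp [hab, hπab, hv]⟩
        · exact ⟨v, by simp [hv]⟩
  unfold IsTree
  rw [Finset.card_insertNone, hcard]
  refine and_congr (by omega) ⟨fun h u' v' => ?_, fun h u v => ?_⟩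
  · obtain ⟨u, rfl⟩ := hπ u'
    obtain ⟨v, rfl⟩ := hπ v'
    refine Relation.ReflTransGen.lift' (p := fun x y => ∃ e ∈ T, ((π ∘ s) e = x ∧ (π ∘ t) e = y) ∨
        ((π ∘ s) e = y ∧ (π ∘ t) e = x)) π ?_ _ _ (h u v)
    rintro x y ⟨o, ho, hst⟩
    cases o with
    | none =>
      have hxy : π x = π y := by
        rcases hst with ⟨h3, h4⟩ | ⟨h3, h4⟩
        · have h3' : a = x := h3
          have h4' : b = y := h4
          rw [← h3', ← h4', hπab]
        · have h3' : a = y := h3
          have h4' : b = x := h4
          rw [← h3', ← h4', hπab]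
      show Relation.ReflTransGen _ (π x) (π y)
      rw [hxy]
    | some e =>
      refine Relation.ReflTransGen.single ⟨e, Finset.some_mem_insertNone.1 ho, ?_⟩
      rcases hst with ⟨h3, h4⟩ | ⟨h3, h4⟩
      · exact Or.inl ⟨congrArg π h3, congrArg π h4⟩
      · exact Or.inr ⟨congrArg π h3, congrArg π h4⟩
  · have hn : none ∈ Finset.insertNone T := by simp
    have hfib : ∀ x y : V, π x = π y → Relation.ReflTransGen (fun x y => ∃ e ∈ Finset.insertNone T,
        (ae a s e = x ∧ ae b t e = y) ∨ (ae a s e = y ∧ ae b t e = x)) x y := by
      intro x y hxy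
      rcases (hk x y).1 hxy with h1 | ⟨h1, h2⟩ | ⟨h1, h2⟩
      · rw [h1]
      · exact Relation.ReflTransGen.single ⟨none, hn, Or.inl ⟨h1.symm, h2.symm⟩⟩
      · exact Relation.ReflTransGen.single ⟨none, hn, Or.inr ⟨h2.symm, h1.symm⟩⟩
    have hmain : ∀ w : W, Relation.ReflTransGen (fun x y => ∃ e ∈ T, ((π ∘ s) e = x ∧
        (π ∘ t) e = y) ∨ ((π ∘ s) e = y ∧ (π ∘ t) e = x)) (π u) w → ∀ v, π v = w →
        Relation.ReflTransGen (fun x y => ∃ e ∈ Finset.insertNone T,
        (ae a s e = x ∧ ae b t e = y) ∨ (ae a s e = y ∧ ae b t e = x)) u v := by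
      intro w hw
      induction hw with
      | refl => intro v hv; exact hfib u v hv.symm
      | tail _ hstep ih =>
        intro v hv
        obtain ⟨e, he, hst⟩ := hstep
        have he' : some e ∈ Finset.insertNone T := Finset.some_mem_insertNone.2 he
        rcases hst with ⟨h3, h4⟩ | ⟨h3, h4⟩
        · have h5 := ih (s e) h3
          have h6 := hfib (t e) v (h4.trans hv.symm)
          exact (h5.tail ⟨some e, he', Or.inl ⟨rfl, rfl⟩⟩).trans h6
        · have h5 := ih (t e) h4
          have h6 := hfib (s e) v (h3.trans hv.symm)
          exact (h5.tail ⟨some e, he', Or.inr ⟨rfl, rfl⟩⟩).trans h6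
    exact hmain _ (h (π u) (π v)) v rfl

/-- MODULE DC: deletion and contraction.

Proof: split the sum over `T : Finset (Option E)` as in `tht_loop`; for `T` without the new edge
`IsTree (ae a s) (ae b t) (T₀.map some) ↔ IsTree s t T₀`, for the others `isTree_insertNone`. -/
theorem tht_dc {V W E K : Type} [Fintype V] [Fintype W] [Fintype E] [CommRing K] (a b : V) (hab : a ≠ b)
    (π : V → W) (hπ : Function.Surjective π)
    (hk : ∀ u v, π u = π v ↔ u = v ∨ (u = a ∧ v = b) ∨ (u = b ∧ v = a)) (s t : E → V)
    (α β : Option E → K) :
    tht (ae a s) (ae b t) α β = β none * tht s t (α ∘ some) (β ∘ some) +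
      α none * tht (π ∘ s) (π ∘ t) (α ∘ some) (β ∘ some) := by
  classical
  unfold tht
  rw [sum_option, Finset.mul_sum, Finset.mul_sum]
  congr 1
  · refine Finset.sum_congr rfl fun T _ => ?_
    by_cases h : IsTree s t T
    · rw [if_pos h, if_pos ((isTree_map a b s t T).2 h), compl_map, Finset.prod_map,
        Finset.prod_insertNone]
      simp only [Function.comp_apply, Function.Embedding.some_apply]
      ring
    · rw [if_neg h, if_neg (fun h' => h ((isTree_map a b s t T).1 h')), mul_zero]
  · refine Finset.sum_congr rfl fun T _ => ?_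
    by_cases h : IsTree (π ∘ s) (π ∘ t) T
    · rw [if_pos h, if_pos ((isTree_insertNone a b hab π hπ hk s t T).2 h), compl_ins,
        Finset.prod_map, Finset.prod_insertNone]
      simp only [Function.comp_apply, Function.Embedding.some_apply]
      ring
    · rw [if_neg h, if_neg (fun h' => h ((isTree_insertNone a b hab π hπ hk s t T).1 h')), mul_zero]

end Pool.Agent.KG
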