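import Mathlib

/-!
# Kirchhoff and Symanzik polynomials of finite multigraphs: definitions

A finite multigraph is given by two maps `s t : E → V`: the edge `e` joins `s e` and `t e` (loops and
multiple edges are allowed, the orientation is irrelevant).
-/

set_option autoImplicit false

open scoped BigOperators

namespace Pool.Agent.KG

/-- `T` is the set of edges of a spanning tree: it has one edge less than there are vertices, and
it connects any two vertices. -/
def IsTree {V E : Type} [Fintype V] (s t : E → V) (T : Finset E) : Prop :=
  T.card + 1 = Fintype.card V ∧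
    ∀ u v : V, Relation.ReflTransGen
      (fun a b => ∃ e ∈ T, (s e = a ∧ t e = b) ∨ (s e = b ∧ t e = a)) u v

open Classical in
/-- The Kirchhoff polynomial: the sum over the spanning trees `T` of `∏_{e ∈ T} y_e`. -/
noncomputable def kir {V E K : Type} [Fintype V] [Fintype E] [CommRing K] (s t : E → V) (y : E → K) : K :=
  ∑ T : Finset E, if IsTree s t T then ∏ e ∈ T, y e else 0

open Classical in
/-- The first Symanzik polynomial: the sum over the spanning trees `T` of `∏_{e ∉ T} x_e`. -/
noncomputable def sym {V E K : Type} [Fintype V] [Fintype E] [CommRing K] (s t : E → V) (x : E → K) : K :=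
  ∑ T : Finset E, if IsTree s t T then ∏ e ∈ Tᶜ, x e else 0

/-- The number of zeros over `K` of the Kirchhoff polynomial. -/
noncomputable def NK {V E : Type} [Fintype V] [Fintype E] (s t : E → V) (K : Type) [Field K] : ℕ :=
  Nat.card {y : E → K // kir s t y = 0}

/-- The number of zeros over `K` of the Symanzik polynomial. -/
noncomputable def NS {V E : Type} [Fintype V] [Fintype E] (s t : E → V) (K : Type) [Field K] : ℕ :=
  Nat.card {x : E → K // sym s t x = 0}

/-- The degree of a vertex (loops count twice). -/
noncomputable def deg {V E : Type} (s t : E → V) (v : V) : ℕ := {e | s e = v}.ncard + {e | t e = v}.ncard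

/-! ### auxiliary definitions, not used in the final statements -/

/-- A finite field. -/
structure FinField where
  /-- the underlying type -/
  K : Type
  [field : Field K]
  [finite : Finite K]

attribute [instance] FinField.field FinField.finite

/-- The number of elements. -/
noncomputable def FinField.q (F : FinField) : ℤ := (Nat.card F.K : ℤ)

/-- The functions of finite fields generated by a set `B` and the polynomials in `q`, under addition,
multiplication by polynomials in `q` and division by monic polynomials in `q`. -/
inductive Sp (B : Set (FinField → ℤ)) : (FinField → ℤ) → Prop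
  | base {f : FinField → ℤ} : f ∈ B → Sp B f
  | one : Sp B fun _ => 1
  | add {f g : FinField → ℤ} : Sp B f → Sp B g → Sp B fun F => f F + g F
  | mulp (c : Polynomial ℤ) {f : FinField → ℤ} : Sp B f → Sp B fun F => c.eval F.q * f F
  | div (m : Polynomial ℤ) {f : FinField → ℤ} : m.Monic → (Sp B fun F => m.eval F.q * f F) → Sp B f

/-- The number of zeros of the Kirchhoff polynomial as a function of finite fields. -/
noncomputable def nk {V E : Type} [Fintype V] [Fintype E] (s t : E → V) : FinField → ℤ :=
  fun F => (NK s t F.K : ℤ)

/-- The number of zeros of the Symanzik polynomial as a function of finite fields. -/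
noncomputable def ns {V E : Type} [Fintype V] [Fintype E] (s t : E → V) : FinField → ℤ :=
  fun F => (NS s t F.K : ℤ)

/-- The functions `ns` of the multigraphs all whose vertices have degree at most `4`. -/
def Phi4 : Set (FinField → ℤ) :=
  {f | ∃ (n m : ℕ) (s t : Fin m → Fin n), (∀ v, deg s t v ≤ 4) ∧ f = ns s t}

/-- The functions `nk` of the multigraphs all whose vertices have degree at most `3`. -/
def Cubic : Set (FinField → ℤ) :=
  {f | ∃ (n m : ℕ) (s t : Fin m → Fin n), (∀ v, deg s t v ≤ 3) ∧ f = nk s t}

/-- The functions `nk` of all multigraphs. -/
def AllK : Set (FinField → ℤ) :=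
  {f | ∃ (n m : ℕ) (s t : Fin m → Fin n), f = nk s t}

open Classical in
/-- Common generalisation of `kir` and `sym`: the sum over the spanning trees `T` of
`∏_{e ∈ T} α_e ∏_{e ∉ T} β_e`. -/
noncomputable def tht {V E K : Type} [Fintype V] [Fintype E] [CommRing K] (s t : E → V) (α β : E → K) : K :=
  ∑ T : Finset E, if IsTree s t T then (∏ e ∈ T, α e) * ∏ e ∈ Tᶜ, β e else 0

/-- Add an edge: `ae a s`, `ae b t` is the multigraph `s`, `t` with a new edge from `a` to `b`. -/
def ae {V E : Type} (a : V) (s : E → V) : Option E → V := fun o => o.elim a s

/-- The incidence matrix with the ground vertex `none` left out. -/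
noncomputable def inc {n E K : Type} [CommRing K] (s t : E → Option n) (e : E) (v : n) : K :=
  open Classical in (if s e = some v then 1 else 0) - (if t e = some v then 1 else 0)

/-- The reduced weighted Laplacian (ground vertex `none`). -/
noncomputable def lap {n E K : Type} [Fintype E] [CommRing K] (s t : E → Option n) (y : E → K) :
    Matrix n n K := fun u v => ∑ e, y e * inc s t e u * inc s t e v

end Pool.Agent.KG
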