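import Pool.Agent.KG.Cnt

/-!
# Degrees, splitting a vertex
-/

set_option autoImplicit false

open scoped BigOperators

namespace Pool.Agent.KG

open Classical in
private theorem DEG_aux {V E : Type} [Finite E] (s : E → V) (a v : V) :
    {o | ae a s o = v}.ncard = {e | s e = v}.ncard + (if v = a then 1 else 0) := by
  have h1 : (some '' {e | s e = v} : Set (Option E)).ncard = {e | s e = v}.ncard :=
    Set.ncard_image_of_injective _ (Option.some_injective E)
  by_cases hv : v = a
  · subst hv
    rw [if_pos rfl, ← h1]
    have h2 : {o | ae v s o = v} = insert none (some '' {e | s e = v}) := by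
      ext o
      cases o with
      | none => simp [ae]
      | some e => simp [ae]
    rw [h2, Set.ncard_insert_of_notMem (by simp) (Set.toFinite _)]
  · rw [if_neg hv, add_zero, ← h1]
    congr 1
    ext o
    cases o with
    | none => simp [ae, Ne.symm hv]
    | some e => simp [ae]

open Classical in
/-- MODULE DEG (1). -/
theorem deg_ae {V E : Type} [Finite E] (s t : E → V) (a b v : V) :
    deg (ae a s) (ae b t) v = deg s t v + (if v = a then 1 else 0) + (if v = b then 1 else 0) := by
  unfold deg
  rw [DEG_aux, DEG_aux]
  omega

/-- MODULE DEG (2). -/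
theorem deg_some {V E : Type} (s t : E → V) (v : V) :
    deg (fun e => some (s e)) (fun e => some (t e)) (some v) = deg s t v := by
  simp [deg]

/-- MODULE DEG (3). -/
theorem deg_none {V E : Type} (s t : E → V) :
    deg (fun e => some (s e)) (fun e => some (t e)) (none : Option V) = 0 := by
  simp [deg]

open Classical in
/-- MODULE DEG (4): the new vertex of a star. -/
theorem deg_star_none {V E : Type} [Finite E] (s t : E → V) (a b c : V) :
    deg (starS a b s) (starT c t) none = 3 := by
  unfold starS starT
  rw [deg_ae, deg_ae, deg_ae, deg_none]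
  simp

open Classical in
/-- MODULE DEG (5). -/
theorem deg_star_some {V E : Type} [Finite E] (s t : E → V) (a b c v : V) :
    deg (starS a b s) (starT c t) (some v) =
      deg s t v + (if v = a then 1 else 0) + (if v = b then 1 else 0) + (if v = c then 1 else 0) := by
  unfold starS starT
  rw [deg_ae, deg_ae, deg_ae, deg_some]
  simp only [Option.some_inj, reduceCtorEq, if_false, add_zero]
  omega

/-- MODULE DEG (6). -/
theorem deg_iso {V W E E' : Type} (f : V ≃ W) (g : E ≃ E') (s t : E → V) (s' t' : E' → W)
    (hs : ∀ e, s' (g e) = f (s e)) (ht : ∀ e, t' (g e) = f (t e)) (v : V) :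
    deg s' t' (f v) = deg s t v := by
  have key : ∀ (r : E → V) (r' : E' → W), (∀ e, r' (g e) = f (r e)) →
      {e | r' e = f v}.ncard = {e | r e = v}.ncard := by
    intro r r' hr
    rw [← Set.ncard_image_of_injective {e | r e = v} g.injective]
    congr 1
    ext e
    constructor
    · intro h
      refine ⟨g.symm e, ?_, g.apply_symm_apply e⟩
      have h1 : r' e = f v := h
      have h2 := hr (g.symm e)
      rw [g.apply_symm_apply, h1] at h2
      exact (f.injective h2).symm
    · rintro ⟨e, h, rfl⟩
      have h1 : r e = v := h
      show r' (g e) = f v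
      rw [hr, h1]
  unfold deg
  rw [key s s' hs, key t t' ht]

/-- No loops. -/
def LL {V E : Type} (s t : E → V) : Prop := ∀ e, s e ≠ t e

/-- MODULE LLA (1). -/
theorem LL_ae {V E : Type} {s t : E → V} (h : LL s t) {a b : V} (hab : a ≠ b) : LL (ae a s) (ae b t) := by
  intro o
  cases o with
  | none => exact hab
  | some e => exact h e

/-- MODULE LLA (2). -/
theorem LL_some {V E : Type} {s t : E → V} (h : LL s t) : LL (fun e => some (s e)) fun e => some (t e) := by
  intro e hc
  exact h e (Option.some_injective V hc)

/-- MODULE LLA (3). -/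
theorem LL_star {V E : Type} {s t : E → V} (h : LL s t) (a b c : V) : LL (starS a b s) (starT c t) :=
  LL_ae (LL_ae (LL_ae (LL_some h) (Option.some_ne_none c).symm) (Option.some_ne_none a))
    (Option.some_ne_none b)

open Classical in
/-- Split the vertex `v`: the ends at `v` of the edges in `J` are moved to the new vertex `none`. -/
noncomputable def spl {V E : Type} (v : V) (J : Finset E) (s : E → V) : E → Option V :=
  fun e => if e ∈ J ∧ s e = v then none else some (s e)

/-- Undo the splitting. -/
def fold {V : Type} (v : V) : Option V → V := fun o => o.elim v id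

/-- MODULE SPL (1). -/
theorem fold_spl {V E : Type} (v : V) (J : Finset E) (s : E → V) : fold v ∘ spl v J s = s := by
  funext e
  simp only [Function.comp, fold, spl]
  split_ifs with h
  · exact h.2.symm
  · rfl

/-- MODULE SPL (2). -/
theorem fold_surj {V : Type} (v : V) : Function.Surjective (fold v) :=
  fun u => ⟨some u, rfl⟩

/-- MODULE SPL (3). -/
theorem fold_ker {V : Type} (v : V) (x y : Option V) :
    fold v x = fold v y ↔ x = y ∨ (x = some v ∧ y = none) ∨ (x = none ∧ y = some v) := by
  rcases x with _ | x <;> rcases y with _ | y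
  · simp
  · simp only [fold, Option.elim, id, reduceCtorEq, false_and, Option.some.injEq, true_and, false_or]
    exact eq_comm
  · simp [fold]
  · simp [fold]

/-- MODULE SPL (4). -/
theorem LL_spl {V E : Type} {s t : E → V} (h : LL s t) (v : V) (J : Finset E) :
    LL (spl v J s) (spl v J t) := by
  intro e
  have h0 := h e
  unfold spl
  split_ifs with h1 h2 h2
  · exact absurd (h1.2.trans h2.2.symm) h0
  · simp
  · simp
  · simpa using h0

/-- MODULE SPL (5).  Without loops every edge of `J` has exactly one end at `v`. -/
theorem deg_spl_none {V E : Type} [Finite E] {s t : E → V} (h : LL s t) (v : V) (J : Finset E)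
    (hJ : ∀ e ∈ J, s e = v ∨ t e = v) : deg (spl v J s) (spl v J t) none = J.card := by
  classical
  have e1 : {e | spl v J s e = none} = ((J.filter fun e => s e = v : Finset E) : Set E) := by
    ext e
    simp [spl]
  have e2 : {e | spl v J t e = none} = ((J.filter fun e => ¬ s e = v : Finset E) : Set E) := by
    ext e
    simp only [spl, Set.mem_ofPred_eq, ite_eq_left_iff, not_and, reduceCtorEq, imp_false,
      Classical.not_imp, not_not, Finset.coe_filter]
    constructor
    · rintro ⟨h1, h2⟩
      exact ⟨h1, fun h3 => h e (h3.trans h2.symm)⟩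
    · rintro ⟨h1, h2⟩
      exact ⟨h1, (hJ e h1).resolve_left h2⟩
  unfold deg
  rw [e1, e2, Set.ncard_coe_finset, Set.ncard_coe_finset]
  exact Finset.card_filter_add_card_filter_not (fun e => s e = v)

/-- MODULE SPL (6). -/
theorem deg_spl_self {V E : Type} [Finite E] {s t : E → V} (h : LL s t) (v : V) (J : Finset E)
    (hJ : ∀ e ∈ J, s e = v ∨ t e = v) :
    deg (spl v J s) (spl v J t) (some v) + J.card = deg s t v := by
  classical
  have key : ∀ r : E → V, {e | r e = v}.ncard =
      {e | spl v J r e = some v}.ncard + {e | spl v J r e = none}.ncard := by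
    intro r
    rw [← Set.ncard_union_eq _ (Set.toFinite _) (Set.toFinite _)]
    · congr 1
      ext e
      by_cases h1 : e ∈ J <;> by_cases h2 : r e = v <;> simp [spl, h1, h2]
    · rw [Set.disjoint_left]
      intro e h1 h2
      simp only [Set.mem_ofPred_eq] at h1 h2
      rw [h1] at h2
      simp at h2
  have h1 := deg_spl_none h v J hJ
  unfold deg at h1 ⊢
  rw [key s, key t]
  omega

/-- MODULE SPL (7). -/
theorem deg_spl_other {V E : Type} (s t : E → V) (v u : V) (huv : u ≠ v) (J : Finset E) :
    deg (spl v J s) (spl v J t) (some u) = deg s t u := by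
  have key : ∀ r : E → V, {e | spl v J r e = some u} = {e | r e = u} := by
    intro r
    ext e
    by_cases h1 : e ∈ J <;> by_cases h2 : r e = v <;> simp [spl, h1, h2, huv.symm]
  unfold deg
  rw [key, key]

/-- MODULE SPL (8): enough incident edges.  Without loops the number of edges with an end at `v` is the degree
(`Finset.exists_subset_card_eq`). -/
theorem exists_J {V E : Type} [Finite E] {s t : E → V} (h : LL s t) (v : V) (k : ℕ) (hk : k ≤ deg s t v) :
    ∃ J : Finset E, J.card = k ∧ ∀ e ∈ J, s e = v ∨ t e = v := by
  classical
  have hfin : Fintype E := Fintype.ofFinite E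
  have e1 : deg s t v = (Finset.univ.filter fun e => s e = v ∨ t e = v).card := by
    unfold deg
    rw [← Set.ncard_union_eq _ (Set.toFinite _) (Set.toFinite _)]
    · rw [← Set.ncard_coe_finset]
      congr 1
      ext e
      simp
    · rw [Set.disjoint_left]
      intro e h1 h2
      exact h e (h1.trans h2.symm)
  rw [e1] at hk
  obtain ⟨J, hJ, hc⟩ := Finset.exists_subset_card_eq hk
  refine ⟨J, hc, fun e he => ?_⟩
  simpa using hJ he

end Pool.Agent.KG
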