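import Pool.Agent.KG.Defs

/-!
# Two determinant identities
-/

set_option autoImplicit false

open scoped BigOperators

namespace Pool.Agent.KG

/-- the matrix `X + M` over `K[X]` -/
private noncomputable def Jac_up {m K : Type} [DecidableEq m] [CommRing K]
    (M : Matrix m m K) : Matrix m m (Polynomial K) :=
  (Polynomial.X : Polynomial K) • (1 : Matrix m m (Polynomial K)) + M.map Polynomial.C

private theorem Jac_up_reg {m K : Type} [Fintype m] [DecidableEq m] [CommRing K]
    (M : Matrix m m K) : IsRegular (Jac_up M).det :=
  Polynomial.Monic.isRegular (Polynomial.leadingCoeff_det_X_one_add_C M)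

private theorem Jac_up_eval {m K : Type} [Fintype m] [DecidableEq m] [CommRing K]
    (M : Matrix m m K) : (Polynomial.evalRingHom (0 : K)).mapMatrix (Jac_up M) = M := by
  ext i j
  simp [Jac_up, Matrix.add_apply, Matrix.smul_apply]

private theorem Jac_map_row {m K : Type} [DecidableEq m] [CommRing K]
    (M : Matrix m m (Polynomial K)) (a b : m) :
    (M.updateRow a (Pi.single b 1)).map (Polynomial.evalRingHom (0 : K)) =
      (M.map (Polynomial.evalRingHom (0 : K))).updateRow a (Pi.single b 1) := by
  rw [Matrix.map_updateRow]
  congr 1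
  funext j
  by_cases h : j = b
  · subst h
    simp
  · simp [h]

private theorem Jac_reg {m K : Type} [Fintype m] [DecidableEq m] [CommRing K]
    (M : Matrix m m K) (hM : IsRegular M.det) (a b : m) (hab : a ≠ b) :
    M.det * ((M.updateRow a (Pi.single a 1)).updateRow b (Pi.single b 1)).det =
      M.adjugate a a * M.adjugate b b - M.adjugate a b * M.adjugate b a := by
  classical
  let U : Matrix m (Fin 2) K := fun i k => if k = 0 then (if i = a then 1 else 0)
    else (if i = b then 1 else 0)
  let V : Matrix (Fin 2) m K := fun k j => if k = 0 then M.adjugate a j - (if j = a then 1 else 0)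
    else M.adjugate b j - (if j = b then 1 else 0)
  have hX : (1 + U * V).det = M.adjugate a a * M.adjugate b b -
      M.adjugate a b * M.adjugate b a := by
    rw [Matrix.det_one_add_mul_comm, Matrix.det_fin_two]
    have e00 : (1 + V * U : Matrix (Fin 2) (Fin 2) K) 0 0 = M.adjugate a a := by
      rw [Matrix.add_apply, Matrix.mul_apply]
      simp [U, V]
    have e01 : (1 + V * U : Matrix (Fin 2) (Fin 2) K) 0 1 = M.adjugate a b := by
      rw [Matrix.add_apply, Matrix.mul_apply]
      simp [U, V, hab.symm]
    have e10 : (1 + V * U : Matrix (Fin 2) (Fin 2) K) 1 0 = M.adjugate b a := by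
      rw [Matrix.add_apply, Matrix.mul_apply]
      simp [U, V, hab]
    have e11 : (1 + V * U : Matrix (Fin 2) (Fin 2) K) 1 1 = M.adjugate b b := by
      rw [Matrix.add_apply, Matrix.mul_apply]
      simp [U, V]
    rw [e00, e01, e10, e11]
  have hVM : ∀ k j, (V * M) k j = if k = 0 then M.det * (if j = a then 1 else 0) - M a j
      else M.det * (if j = b then 1 else 0) - M b j := by
    intro k j
    have hadj : ∀ i : m, ∑ l, M.adjugate i l * M l j = M.det * (if j = i then 1 else 0) := by
      intro i
      have := congrFun (congrFun M.adjugate_mul i) j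
      rw [Matrix.mul_apply] at this
      rw [this, Matrix.smul_apply, Matrix.one_apply, smul_eq_mul]
      simp only [eq_comm]
    rw [Matrix.mul_apply]
    by_cases hk : k = 0
    · simp only [V, hk, if_true, sub_mul, Finset.sum_sub_distrib, hadj, ite_mul, one_mul, zero_mul,
        Finset.sum_ite_eq', Finset.mem_univ]
    · simp only [V, hk, if_false, sub_mul, Finset.sum_sub_distrib, hadj, ite_mul, one_mul, zero_mul,
        Finset.sum_ite_eq', Finset.mem_univ, if_true]
  have hXM : (1 + U * V) * M = (M.updateRow a (M.det • Pi.single a 1)).updateRow b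
      (M.det • Pi.single b 1) := by
    rw [add_mul, one_mul, Matrix.mul_assoc]
    ext i j
    rw [Matrix.add_apply, Matrix.mul_apply, Fin.sum_univ_two, hVM, hVM]
    by_cases hb : i = b
    · subst hb
      rw [Matrix.updateRow_self]
      simp [U, hab.symm, Pi.single_apply]
    · rw [Matrix.updateRow_ne hb]
      by_cases ha : i = a
      · subst ha
        rw [Matrix.updateRow_self]
        simp [U, hab, Pi.single_apply]
      · rw [Matrix.updateRow_ne ha]
        simp [U, ha, hb]
  have hdet := congrArg Matrix.det hXM
  rw [Matrix.det_mul, hX, Matrix.det_updateRow_smul, Matrix.updateRow_comm _ hab,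
    Matrix.det_updateRow_smul, Matrix.updateRow_comm _ hab.symm] at hdet
  apply hM.right
  show M.det * _ * M.det = (_ - _) * M.det
  rw [hdet]
  ring

/-- MODULE JAC: the identity of Dodgson and Jacobi.

Proof.  Let `X` be the identity matrix with the columns `a`, `b` replaced by those of `adjugate M`.  Then
`M * X` is `M` with the columns `a`, `b` replaced by `det M` times the unit vectors, so
`det M * det X = det M ^ 2 * D`, where `D` is the determinant of `M` with columns (or rows) `a`, `b` replaced by
unit vectors, and `det X = adj a a * adj b b - adj a b * adj b a`.  Cancel `det M` if it is not a zero divisor.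
The general case: apply this over `K[λ]` to `M.map C + λ • 1`, the determinant of which is monic
(`Matrix.charpoly` of `-M` up to sign), hence regular, and put `λ = 0`.  (Or use the generic matrix over
`MvPolynomial (m × m) ℤ`: `Matrix.det_mvPolynomialX_ne_zero`, and specialise.) -/
theorem jacobi {m K : Type} [Fintype m] [DecidableEq m] [CommRing K] (M : Matrix m m K) (a b : m)
    (hab : a ≠ b) :
    M.det * ((M.updateRow a (Pi.single a 1)).updateRow b (Pi.single b 1)).det =
      M.adjugate a a * M.adjugate b b - M.adjugate a b * M.adjugate b a := by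
  have h := congrArg (Polynomial.evalRingHom (0 : K)) (Jac_reg (Jac_up M) (Jac_up_reg M) a b hab)
  have hadj : ∀ i j : m, Polynomial.evalRingHom (0 : K) ((Jac_up M).adjugate i j) =
      M.adjugate i j := by
    intro i j
    have h1 := congrFun (congrFun
      (RingHom.map_adjugate (Polynomial.evalRingHom (0 : K)) (Jac_up M)) i) j
    rw [Jac_up_eval] at h1
    exact h1
  rw [map_mul, map_sub, map_mul, map_mul, hadj, hadj, hadj, hadj, RingHom.map_det,
    RingHom.map_det, Jac_up_eval] at h
  rw [← h]
  congr 2
  show _ = (((Jac_up M).updateRow a (Pi.single a 1)).updateRow b (Pi.single b 1)).map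
    (Polynomial.evalRingHom (0 : K))
  rw [Jac_map_row, Jac_map_row]
  congr 2
  exact (Jac_up_eval M).symm

/-- the bordered matrix -/
private def Jac_B {m K : Type} [CommRing K] (M : Matrix m m K) (β : K) (u v : m → K) :
    Matrix (Unit ⊕ m) (Unit ⊕ m) K :=
  Matrix.fromBlocks (Matrix.of fun _ _ => β) (Matrix.of fun _ j => u j)
    (Matrix.of fun i _ => -v i) M

private theorem Bord_reg {m K : Type} [Fintype m] [DecidableEq m] [CommRing K] (M : Matrix m m K)
    (hM : IsRegular M.det) (β : K) (u v : m → K) :
    (Jac_B M β u v).det = β * M.det + ∑ i, ∑ j, u i * M.adjugate i j * v j := by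
  have h1 : Jac_B M β u v *
      Matrix.fromBlocks (Matrix.of fun _ _ => M.det : Matrix Unit Unit K) 0
        (Matrix.of fun i _ => ∑ j, M.adjugate i j * v j) (1 : Matrix m m K) =
      Matrix.fromBlocks (Matrix.of fun _ _ => β * M.det + ∑ i, ∑ j, u i * M.adjugate i j * v j :
        Matrix Unit Unit K) (Matrix.of fun _ j => u j) 0 M := by
    rw [Jac_B, Matrix.fromBlocks_multiply]
    congr 1
    · ext i j
      rw [Matrix.add_apply, Matrix.mul_apply, Matrix.mul_apply]
      simp only [Finset.univ_unique, Finset.sum_singleton, Finset.mul_sum, mul_assoc,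
        Matrix.of_apply]
    · ext i j
      simp
    · ext i j
      have hadj : ∑ l, M i l * ∑ k, M.adjugate l k * v k = M.det * v i := by
        have h2 := congrArg (fun A : Matrix m m K => A.mulVec v i) M.mul_adjugate
        simp only [Matrix.smul_mulVec, Matrix.one_mulVec, Pi.smul_apply, smul_eq_mul,
          ← Matrix.mulVec_mulVec] at h2
        exact h2
      rw [Matrix.add_apply, Matrix.mul_apply, Matrix.mul_apply]
      simp only [Matrix.of_apply]
      rw [hadj]
      simp only [Finset.univ_unique, Finset.sum_singleton, Matrix.zero_apply]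
      ring
    · ext i j
      simp
  have h2 := congrArg Matrix.det h1
  rw [Matrix.det_mul, Matrix.det_fromBlocks_zero₁₂, Matrix.det_fromBlocks_zero₂₁, Matrix.det_one,
    mul_one] at h2
  have e1 : ∀ x : K, (Matrix.of fun _ _ => x : Matrix Unit Unit K).det = x := by
    intro x
    rw [Matrix.det_unique]
    rfl
  rw [e1, e1] at h2
  exact hM.right h2

/-- MODULE BORD: the determinant of a bordered matrix.

Proof.  If `det M` is not a zero divisor: multiply on the right by `[[det M, 0], [adj M v, 1]]`; the
product is `[[β det M + u adj(M) v, u], [0, M]]`.  The general case as in `jacobi`. -/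
theorem det_bordered {m K : Type} [Fintype m] [DecidableEq m] [CommRing K] (M : Matrix m m K)
    (β : K) (u v : m → K) :
    (Matrix.fromBlocks (fun _ _ => β : Matrix Unit Unit K) (fun _ j => u j) (fun i _ => -v i) M).det =
      β * M.det + ∑ i, ∑ j, u i * M.adjugate i j * v j := by
  show (Jac_B M β u v).det = _
  have h := congrArg (Polynomial.evalRingHom (0 : K)) (Bord_reg (Jac_up M) (Jac_up_reg M)
    (Polynomial.C β) (fun i => Polynomial.C (u i)) (fun i => Polynomial.C (v i)))
  have hadj : ∀ i j : m, Polynomial.evalRingHom (0 : K) ((Jac_up M).adjugate i j) =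
      M.adjugate i j := by
    intro i j
    have h1 := congrFun (congrFun
      (RingHom.map_adjugate (Polynomial.evalRingHom (0 : K)) (Jac_up M)) i) j
    rw [Jac_up_eval] at h1
    exact h1
  rw [map_add, map_mul, RingHom.map_det, RingHom.map_det, Jac_up_eval, map_sum] at h
  simp only [map_sum, map_mul, hadj] at h
  simp only [Polynomial.coe_evalRingHom, Polynomial.eval_C] at h
  rw [← h]
  congr 1
  ext i j
  rcases i with i | i <;> rcases j with j | j
  · simp [Jac_B]
  · simp [Jac_B]
  · simp [Jac_B]
  · have := congrFun (congrFun (Jac_up_eval M) i) j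
    simp only [Jac_B, RingHom.mapMatrix_apply, Matrix.map_apply, Matrix.fromBlocks_apply₂₂] at this ⊢
    exact this.symm

end Pool.Agent.KG
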