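import Pool.Agent.KG.DC
import Pool.Agent.KG.Jac

/-!
# The matrix tree theorem
-/

set_option autoImplicit false

open scoped BigOperators

namespace Pool.Agent.KG

/-- The matrix `[[diag β, α b], [-bᵀ, 0]]`; the rows `e` are `β_e j_e + α_e (b φ)_e`. -/
noncomputable def MM {n E K : Type} [DecidableEq E] [CommRing K] (b : E → n → K) (α β : E → K) :
    Matrix (E ⊕ n) (E ⊕ n) K :=
  Matrix.fromBlocks (Matrix.diagonal β) (fun e v => α e * b e v) (fun v e => -b e v) 0

private theorem Det_MM_ll {n E K : Type} [DecidableEq E] [CommRing K] (b : E → n → K)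
    (α β : E → K) (i j : E) : MM b α β (Sum.inl i) (Sum.inl j) = Matrix.diagonal β i j := rfl

private theorem Det_MM_lr {n E K : Type} [DecidableEq E] [CommRing K] (b : E → n → K)
    (α β : E → K) (i : E) (v : n) : MM b α β (Sum.inl i) (Sum.inr v) = α i * b i v := rfl

private theorem Det_MM_rl {n E K : Type} [DecidableEq E] [CommRing K] (b : E → n → K)
    (α β : E → K) (v : n) (j : E) : MM b α β (Sum.inr v) (Sum.inl j) = -b j v := rfl

private theorem Det_MM_rr {n E K : Type} [DecidableEq E] [CommRing K] (b : E → n → K)
    (α β : E → K) (v w : n) : MM b α β (Sum.inr v) (Sum.inr w) = 0 := rfl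

/-- the element `inl none` in front -/
private def Det_e1 (n E : Type) : Unit ⊕ (E ⊕ n) ≃ Option E ⊕ n where
  toFun := Sum.elim (fun _ => Sum.inl none) (Sum.map some id)
  invFun := Sum.elim (fun o => o.elim (Sum.inl ()) (fun i => Sum.inr (Sum.inl i)))
    (fun v => Sum.inr (Sum.inr v))
  left_inv := by rintro (x | (x | x)) <;> rfl
  right_inv := by rintro ((_ | x) | x) <;> rfl

/-- the element `inr none` in front -/
private def Det_e2 (n E : Type) : Unit ⊕ (E ⊕ n) ≃ E ⊕ Option n where
  toFun := Sum.elim (fun _ => Sum.inr none) (Sum.map id some)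
  invFun := Sum.elim (fun i => Sum.inr (Sum.inl i))
    (fun o => o.elim (Sum.inl ()) (fun v => Sum.inr (Sum.inr v)))
  left_inv := by rintro (x | (x | x)) <;> rfl
  right_inv := by rintro (x | (_ | x)) <;> rfl

/-- expansion at the edge `none` -/
private theorem Det_bord {n E K : Type} [Fintype E] [DecidableEq E] [Fintype n] [DecidableEq n]
    [CommRing K] (b : Option E → n → K) (α β : Option E → K) :
    (MM b α β).det = β none * (MM (fun e => b (some e)) (α ∘ some) (β ∘ some)).det +
      α none * ∑ i, ∑ j, b none i *
        (MM (fun e => b (some e)) (α ∘ some) (β ∘ some)).adjugate (Sum.inr i) (Sum.inr j) *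
          b none j := by
  rw [← Matrix.det_submatrix_equiv_self (Det_e1 n E)]
  have h1 : (MM b α β).submatrix (Det_e1 n E) (Det_e1 n E) =
      Matrix.fromBlocks (fun _ _ => β none : Matrix Unit Unit K)
        (fun _ j => (Sum.elim (fun _ => 0) (fun v => α none * b none v) : E ⊕ n → K) j)
        (fun i _ => -(Sum.elim (fun _ => 0) (fun v => b none v) : E ⊕ n → K) i)
        (MM (fun e => b (some e)) (α ∘ some) (β ∘ some)) := by
    ext i j
    rcases i with i | (i | i) <;> rcases j with j | (j | j)
    · show Matrix.diagonal β none none = β none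
      rw [Matrix.diagonal_apply_eq]
    · show Matrix.diagonal β none (some j) = 0
      rw [Matrix.diagonal_apply_ne]
      simp
    · rfl
    · show Matrix.diagonal β (some i) none = -0
      rw [Matrix.diagonal_apply_ne, neg_zero]
      simp
    · show Matrix.diagonal β (some i) (some j) = Matrix.diagonal (β ∘ some) i j
      by_cases h : i = j
      · subst h
        rw [Matrix.diagonal_apply_eq, Matrix.diagonal_apply_eq]
        rfl
      · rw [Matrix.diagonal_apply_ne _ h, Matrix.diagonal_apply_ne]
        simpa using h
    · rfl
    · rfl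
    · rfl
    · rfl
  rw [h1]
  refine (det_bordered _ _ _ _).trans ?_
  congr 1
  rw [Fintype.sum_sum_type]
  simp only [Sum.elim_inl, Sum.elim_inr, zero_mul, Finset.sum_const_zero, zero_add,
    Fintype.sum_sum_type, mul_zero, Finset.mul_sum, mul_assoc]

/-- change of the coordinates of the vertices -/
private theorem Det_T {n E K : Type} [Fintype E] [DecidableEq E] [Fintype n] [DecidableEq n]
    [CommRing K] (b : E → Option n → K) (c : n → K) (α β : E → K) :
    (MM (fun e (w : Option n) => w.elim (b e none) (fun i => b e (some i) + b e none * c i))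
      α β).det = (MM b α β).det := by
  let T : Matrix (Option n) (Option n) K := Matrix.of fun v w =>
    v.elim (w.elim 1 c) (fun i => w.elim 0 (fun j => if i = j then 1 else 0))
  have hT : T.det = 1 := by
    let e : Unit ⊕ n ≃ Option n :=
      { toFun := Sum.elim (fun _ => none) some
        invFun := fun o => o.elim (Sum.inl ()) Sum.inr
        left_inv := by rintro (x | x) <;> rfl
        right_inv := by rintro (_ | x) <;> rfl }
    rw [← Matrix.det_submatrix_equiv_self e]
    have h1 : T.submatrix e e = Matrix.fromBlocks (1 : Matrix Unit Unit K)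
        (Matrix.of fun _ j => c j) 0 (1 : Matrix n n K) := by
      ext i j
      rcases i with i | i <;> rcases j with j | j
      · show (1 : K) = (1 : Matrix Unit Unit K) i j
        rw [Matrix.one_apply, if_pos (Subsingleton.elim _ _)]
      · rfl
      · rfl
      · show (if i = j then (1 : K) else 0) = (1 : Matrix n n K) i j
        rw [Matrix.one_apply]
    rw [h1, Matrix.det_fromBlocks_zero₂₁, Matrix.det_one, Matrix.det_one, mul_one]
  have hbT : ∀ (e : E) (w : Option n), ∑ v, b e v * T v w =
      w.elim (b e none) (fun i => b e (some i) + b e none * c i) := by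
    intro e w
    rw [Fintype.sum_option]
    rcases w with _ | i
    · show b e none * 1 + ∑ i, b e (some i) * 0 = b e none
      simp
    · show b e none * c i + ∑ j, b e (some j) * (if j = i then 1 else 0) =
        b e (some i) + b e none * c i
      simp only [mul_ite, mul_one, mul_zero, Finset.sum_ite_eq', Finset.mem_univ, if_true]
      ring
  have h2 : MM (fun e (w : Option n) => w.elim (b e none)
      (fun i => b e (some i) + b e none * c i)) α β =
      Matrix.fromBlocks (1 : Matrix E E K) 0 0 T.transpose *
        (Matrix.fromBlocks (Matrix.diagonal β) (Matrix.of fun e v => α e * b e v)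
          (Matrix.of fun v e => -b e v) 0 * Matrix.fromBlocks (1 : Matrix E E K) 0 0 T) := by
    rw [Matrix.fromBlocks_multiply, Matrix.fromBlocks_multiply]
    simp only [Matrix.mul_one, Matrix.mul_zero, Matrix.one_mul, Matrix.zero_mul, add_zero,
      zero_add]
    ext i j
    rcases i with i | i <;> rcases j with j | j
    · rfl
    · rw [Matrix.fromBlocks_apply₁₂, Matrix.mul_apply, Det_MM_lr, ← hbT, Finset.mul_sum]
      refine Finset.sum_congr rfl fun v _ => ?_
      rw [Matrix.of_apply, mul_assoc]
    · rw [Matrix.fromBlocks_apply₂₁, Matrix.mul_apply, Det_MM_rl, ← hbT,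
        ← Finset.sum_neg_distrib]
      refine Finset.sum_congr rfl fun v _ => ?_
      rw [Matrix.of_apply, Matrix.transpose_apply]
      ring
    · rfl
  rw [h2, Matrix.det_mul, Matrix.det_mul, Matrix.det_fromBlocks_zero₂₁,
    Matrix.det_fromBlocks_zero₂₁ (1 : Matrix E E K) 0 T, Matrix.det_transpose, hT, Matrix.det_one]
  simp only [mul_one, one_mul]
  rfl

/-- the contraction of an edge with `b = (1, 0)` -/
private theorem Det_adj {n E K : Type} [Fintype E] [DecidableEq E] [Fintype n] [DecidableEq n]
    [CommRing K] (b : E → Option n → K) (α β : E → K) :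
    (MM b α β).adjugate (Sum.inr none) (Sum.inr none) =
      (MM (fun e i => b e (some i)) α β).det := by
  rw [Matrix.adjugate_apply, ← Matrix.det_submatrix_equiv_self (Det_e2 n E)]
  have h1 : ((MM b α β).updateRow (Sum.inr none) (Pi.single (Sum.inr none) 1)).submatrix
      (Det_e2 n E) (Det_e2 n E) = Matrix.fromBlocks (1 : Matrix Unit Unit K) 0
        (Matrix.of fun i _ => (Sum.elim (fun e => α e * b e none) (fun _ => 0) : E ⊕ n → K) i)
        (MM (fun e i => b e (some i)) α β) := by
    ext i j
    rcases i with i | i
    · show (MM b α β).updateRow (Sum.inr none) (Pi.single (Sum.inr none) 1) (Sum.inr none)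
        (Det_e2 n E j) = _
      rw [Matrix.updateRow_self]
      rcases j with j | (j | j)
      · show (Pi.single (Sum.inr none) 1 : E ⊕ Option n → K) (Sum.inr none) =
          (1 : Matrix Unit Unit K) i j
        rw [Pi.single_eq_same, Matrix.one_apply, if_pos (Subsingleton.elim _ _)]
      · show (Pi.single (Sum.inr none) 1 : E ⊕ Option n → K) (Sum.inl j) = 0
        rw [Pi.single_eq_of_ne]
        simp
      · show (Pi.single (Sum.inr none) 1 : E ⊕ Option n → K) (Sum.inr (some j)) = 0
        rw [Pi.single_eq_of_ne]
        simp
    · have hne : Det_e2 n E (Sum.inr i) ≠ Sum.inr none := by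
        rcases i with i | i
        · show (Sum.inl i : E ⊕ Option n) ≠ Sum.inr none
          simp
        · show (Sum.inr (some i) : E ⊕ Option n) ≠ Sum.inr none
          simp
      rw [Matrix.submatrix_apply, Matrix.updateRow_ne hne]
      rcases i with i | i <;> rcases j with j | (j | j) <;> rfl
  rw [h1, Matrix.det_fromBlocks_zero₁₂, Matrix.det_one, one_mul]

/-- MODULE DETA: an edge with `b = 0`.

Proof: row `inl none` of the matrix is `β none` times the unit vector; expand
(`Matrix.twoBlockTriangular_det` or `Matrix.det_fromBlocks_zero₂₁` after reindexing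
`Option E ⊕ n ≃ (E ⊕ n) ⊕ Unit`). -/
theorem det_MM_loop {n E K : Type} [Fintype E] [DecidableEq E] [Fintype n] [DecidableEq n] [CommRing K]
    (b : Option E → n → K) (h : b none = 0) (α β : Option E → K) :
    (MM b α β).det = β none * (MM (fun e => b (some e)) (α ∘ some) (β ∘ some)).det := by
  rw [Det_bord, h]
  simp

/-- MODULE DETB: deletion and contraction for the determinant.

Proof.  The determinant is linear in the row `inl none`, which is
`β none • (unit vector at inl none) + α none • (0 | b none)`.  With the unit vector in this row the determinant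
is that of the matrix without the edge (block triangular).  It remains that
`X = (MM b α β).updateRow (inl none) (0 | b none)` has determinant that of the contracted matrix.
Add `c i` times the column `inr none` to the column `inr (some i)` and `c i` times the row `inr none` to the
row `inr (some i)`, for all `i` (multiply by unitriangular matrices, determinant `1`).  Now the row
`inl none` is the unit vector at `inr none`, the column `inl none` is minus the unit vector at `inr none`, and
the block on `E ⊕ n` is the contracted matrix.  After reindexing with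
`Option E ⊕ Option n ≃ (E ⊕ n) ⊕ (Unit ⊕ Unit)` (`inl none, inr none` at the end) it is
`[[N, [0 | p]], [[0; -p'], [[0, 1], [-1, 0]]]]`, and `Matrix.det_fromBlocks₂₂` gives
`det N` (the correction `[0 | p] [[0, 1], [-1, 0]]⁻¹ [0; -p']` vanishes); or expand twice. -/
theorem det_MM_rec {n E K : Type} [Fintype E] [DecidableEq E] [Fintype n] [DecidableEq n] [CommRing K]
    (b : Option E → Option n → K) (c : n → K) (h0 : b none none = 1) (h1 : ∀ i, b none (some i) = -c i)
    (α β : Option E → K) :
    (MM b α β).det = β none * (MM (fun e => b (some e)) (α ∘ some) (β ∘ some)).det +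
      α none * (MM (fun e i => b (some e) (some i) + b (some e) none * c i) (α ∘ some) (β ∘ some)).det := by
  rw [← Det_T b c α β, Det_bord, Det_T (fun e => b (some e)) c (α ∘ some) (β ∘ some)]
  congr 2
  have h2 : ∀ w : Option n, (w.elim (b none none)
      (fun i => b none (some i) + b none none * c i) : K) = if w = none then 1 else 0 := by
    intro w
    rcases w with _ | i
    · simp [h0]
    · simp [h0, h1]
  simp only [h2, ite_mul, one_mul, zero_mul, mul_ite, mul_one, mul_zero, Finset.sum_ite_eq',
    Finset.mem_univ, if_true]
  exact Det_adj (fun e (w : Option n) => w.elim (b (some e) none)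
    (fun i => b (some e) (some i) + b (some e) none * c i)) (α ∘ some) (β ∘ some)

/-- the statement of `mtt` -/
private def Mtt_P (n E : Type) [Fintype n] [Fintype E] (K : Type) [CommRing K] : Prop :=
  ∀ (_ : DecidableEq E) (_ : DecidableEq n) (s t : E → Option n) (α β : E → K),
    (MM (inc s t) α β).det = tht s t α β

private theorem Mtt_of {n E : Type} [Fintype n] [Fintype E] {K : Type} [CommRing K]
    [i1 : DecidableEq E] [i2 : DecidableEq n]
    (h : ∀ (s t : E → Option n) (α β : E → K), (MM (inc s t) α β).det = tht s t α β) :
    Mtt_P n E K := by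
  intro dE dn
  have e1 : dE = i1 := Subsingleton.elim _ _
  have e2 : dn = i2 := Subsingleton.elim _ _
  subst e1
  subst e2
  exact h

private theorem Mtt_inc {n E n' E' K : Type} [CommRing K] (s t : E → Option n)
    (s' t' : E' → Option n') (e : E) (e' : E') (v : n) (v' : n')
    (hs : s e = some v ↔ s' e' = some v') (ht : t e = some v ↔ t' e' = some v') :
    inc (K := K) s t e v = inc s' t' e' v' := by
  unfold inc
  by_cases h1 : s e = some v
  · by_cases h2 : t e = some v
    · rw [if_pos h1, if_pos h2, if_pos (hs.1 h1), if_pos (ht.1 h2)]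
    · rw [if_pos h1, if_neg h2, if_pos (hs.1 h1), if_neg (fun h => h2 (ht.2 h))]
  · by_cases h2 : t e = some v
    · rw [if_neg h1, if_pos h2, if_neg (fun h => h1 (hs.2 h)), if_pos (ht.1 h2)]
    · rw [if_neg h1, if_neg h2, if_neg (fun h => h1 (hs.2 h)), if_neg (fun h => h2 (ht.2 h))]

private theorem Mtt_inc_def {n E K : Type} [DecidableEq n] [CommRing K] (s t : E → Option n)
    (e : E) (v : n) : inc (K := K) s t e v =
      (if s e = some v then 1 else 0) - (if t e = some v then 1 else 0) := by
  unfold inc
  by_cases h1 : s e = some v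
  · by_cases h2 : t e = some v
    · rw [if_pos h1, if_pos h2, if_pos h1, if_pos h2]
    · rw [if_pos h1, if_neg h2, if_pos h1, if_neg h2]
  · by_cases h2 : t e = some v
    · rw [if_neg h1, if_pos h2, if_neg h1, if_pos h2]
    · rw [if_neg h1, if_neg h2, if_neg h1, if_neg h2]

private theorem Mtt_det_empty {m K : Type} [Fintype m] [DecidableEq m] [CommRing K]
    (A : Matrix m m K) (h : IsEmpty m) : A.det = 1 := Matrix.det_isEmpty

private theorem Mtt_empty (n E : Type) [Fintype n] [Fintype E] (K : Type) [CommRing K]
    [IsEmpty E] : Mtt_P n E K := by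
  classical
  apply Mtt_of
  intro s t α β
  have h1 : tht s t α β = if Fintype.card n = 0 then 1 else 0 := by
    unfold tht
    rw [Fintype.sum_eq_single (∅ : Finset E)
      (fun T hT => absurd (Finset.eq_empty_of_isEmpty T) hT)]
    have h2 : IsTree s t ∅ ↔ Fintype.card n = 0 := by
      unfold IsTree
      rw [Fintype.card_option, Finset.card_empty]
      constructor
      · intro h
        omega
      · intro h
        refine ⟨by omega, ?_⟩
        have hn : IsEmpty n := Fintype.card_eq_zero_iff.1 h
        intro u v
        rcases u with _ | u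
        · rcases v with _ | v
          · exact Relation.ReflTransGen.refl
          · exact (hn.false v).elim
        · exact (hn.false u).elim
    rw [Finset.prod_of_isEmpty, Finset.prod_of_isEmpty, one_mul]
    simp only [h2]
  rw [h1]
  split_ifs with h
  · exact Mtt_det_empty _ (by
      have hn : IsEmpty n := Fintype.card_eq_zero_iff.1 h
      infer_instance)
  · have hn : Nonempty n := Fintype.card_pos_iff.1 (Nat.pos_of_ne_zero h)
    obtain ⟨v⟩ := hn
    apply Matrix.det_eq_zero_of_row_eq_zero (Sum.inr v)
    rintro (j | j)
    · exact isEmptyElim j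
    · rfl

private theorem Mtt_MMiso {n n' E E' K : Type} [DecidableEq E] [DecidableEq E'] [CommRing K]
    (f : n ≃ n') (g : E ≃ E') (s t : E → Option n) (s' t' : E' → Option n')
    (hs : ∀ e, s' (g e) = (Equiv.optionCongr f) (s e))
    (ht : ∀ e, t' (g e) = (Equiv.optionCongr f) (t e)) (α β : E' → K) :
    (MM (inc s' t') α β).submatrix (Equiv.sumCongr g f) (Equiv.sumCongr g f) =
      MM (inc s t) (α ∘ g) (β ∘ g) := by
  have hinc : ∀ (e : E) (v : n), inc (K := K) s' t' (g e) (f v) = inc s t e v := by
    intro e v
    have h1 : ∀ x : Option n, (Equiv.optionCongr f) x = some (f v) ↔ x = some v := by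
      intro x
      have h2 : (some (f v) : Option n') = (Equiv.optionCongr f) (some v) := rfl
      rw [h2]
      exact (Equiv.optionCongr f).injective.eq_iff
    apply Mtt_inc
    · rw [hs, h1]
    · rw [ht, h1]
  ext i j
  rcases i with i | i <;> rcases j with j | j
  · show Matrix.diagonal β (g i) (g j) = Matrix.diagonal (β ∘ g) i j
    by_cases hij : i = j
    · subst hij
      rw [Matrix.diagonal_apply_eq, Matrix.diagonal_apply_eq]
      rfl
    · rw [Matrix.diagonal_apply_ne _ hij, Matrix.diagonal_apply_ne]
      exact fun h2 => hij (g.injective h2)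
  · show α (g i) * inc s' t' (g i) (f j) = α (g i) * inc s t i j
    rw [hinc]
  · show -inc s' t' (g j) (f i) = -inc s t j i
    rw [hinc]
  · rfl

private theorem Mtt_iso (n n' E E' : Type) [Fintype n] [Fintype n'] [Fintype E] [Fintype E']
    (K : Type) [CommRing K] (f : n ≃ n') (g : E ≃ E') (h : Mtt_P n E K) : Mtt_P n' E' K := by
  classical
  apply Mtt_of
  intro s' t' α β
  have hf : ∀ x, (Equiv.optionCongr f) ((Equiv.optionCongr f).symm x) = x :=
    (Equiv.optionCongr f).apply_symm_apply
  have hs : ∀ e, s' (g e) = (Equiv.optionCongr f)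
      ((fun e => (Equiv.optionCongr f).symm (s' (g e))) e) := fun e => (hf _).symm
  have ht : ∀ e, t' (g e) = (Equiv.optionCongr f)
      ((fun e => (Equiv.optionCongr f).symm (t' (g e))) e) := fun e => (hf _).symm
  rw [tht_iso (Equiv.optionCongr f) g _ _ s' t' hs ht, ← h inferInstance inferInstance,
    ← Matrix.det_submatrix_equiv_self (Equiv.sumCongr g f), Mtt_MMiso f g _ _ s' t' hs ht]

private theorem Mtt_ae {V E : Type} (s : Option E → V) : ae (s none) (s ∘ some) = s := by
  funext o
  rcases o with _ | e <;> rfl

private theorem Mtt_loop (n E : Type) [Fintype n] [Fintype E] (K : Type) [CommRing K]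
    (h : Mtt_P n E K) [DecidableEq E] [DecidableEq n]
    (s t : Option E → Option n) (α β : Option E → K) (hst : s none = t none) :
    (MM (inc s t) α β).det = tht s t α β := by
  have h1 := tht_loop (s none) (s ∘ some) (t ∘ some) α β
  have h3 : ae (s none) (t ∘ some) = t := by
    rw [hst]
    exact Mtt_ae t
  rw [Mtt_ae, h3] at h1
  rw [h1, ← h inferInstance inferInstance (s ∘ some) (t ∘ some) (α ∘ some) (β ∘ some)]
  have h2 : inc (K := K) s t none = 0 := by
    funext v
    rw [Mtt_inc_def, hst, sub_self]
    rfl
  exact det_MM_loop (inc s t) h2 α β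

private theorem Mtt_neg (n E : Type) [Fintype n] [Fintype E] (K : Type) [CommRing K]
    [DecidableEq E] [DecidableEq n]
    (s t : Option E → Option n) (α β : Option E → K) :
    (MM (inc (ae (t none) (s ∘ some)) (ae (s none) (t ∘ some))) α β).det =
      (MM (inc s t) α β).det := by
  rw [Det_bord, Det_bord]
  have h1 : (fun e : E => inc (K := K) (ae (t none) (s ∘ some)) (ae (s none) (t ∘ some))
      (some e)) = fun e => inc s t (some e) := rfl
  have h2 : ∀ v : n, inc (K := K) (ae (t none) (s ∘ some)) (ae (s none) (t ∘ some)) none v =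
      -inc s t none v := by
    intro v
    unfold inc
    rw [neg_sub]
    rfl
  rw [h1]
  simp only [h2]
  congr 2
  refine Finset.sum_congr rfl fun i _ => Finset.sum_congr rfl fun j _ => ?_
  ring

/-- the contraction -/
private def Mtt_π {n : Type} (y : Option (Option n)) : Option (Option n) → Option n
  | none => none
  | some none => y.join
  | some (some i) => some i

private theorem Mtt_π_iff {n : Type} (y : Option (Option n)) (hy : y ≠ some none)
    (u v : Option (Option n)) :
    Mtt_π y u = Mtt_π y v ↔ u = v ∨ (u = some none ∧ v = y) ∨ (u = y ∧ v = some none) := by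
  rcases y with _ | (_ | y)
  · rcases u with _ | (_ | u) <;> rcases v with _ | (_ | v) <;> simp [Mtt_π]
  · exact absurd rfl hy
  · rcases u with _ | (_ | u) <;> rcases v with _ | (_ | v) <;> simp [Mtt_π, eq_comm]

private theorem Mtt_π_ind {n K : Type} [DecidableEq n] [CommRing K] (y : Option (Option n))
    (hy : y ≠ some none) (x : Option (Option n)) (i : n) :
    ((if x = some (some i) then 1 else 0) + (if x = some none then 1 else 0) *
      (if y = some (some i) then 1 else 0) : K) = if Mtt_π y x = some i then 1 else 0 := by
  rcases y with _ | (_ | y)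
  · rcases x with _ | (_ | x) <;> simp [Mtt_π]
  · exact absurd rfl hy
  · rcases x with _ | (_ | x) <;> simp [Mtt_π]

private theorem Mtt_some (n E : Type) [Fintype n] [Fintype E] (K : Type) [CommRing K]
    (h : Mtt_P n E K) (h' : Mtt_P (Option n) E K) [DecidableEq E] [DecidableEq n]
    (s t : Option E → Option (Option n)) (α β : Option E → K) (hs : s none = some none)
    (ht : t none ≠ some none) :
    (MM (inc s t) α β).det = tht s t α β := by
  have hπs : Function.Surjective (Mtt_π (t none)) := by
    intro x
    rcases x with _ | i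
    · exact ⟨none, rfl⟩
    · exact ⟨some (some i), rfl⟩
  have hk : ∀ u v, Mtt_π (t none) u = Mtt_π (t none) v ↔ u = v ∨ (u = s none ∧ v = t none) ∨
      (u = t none ∧ v = s none) := by
    intro u v
    rw [hs]
    exact Mtt_π_iff (t none) ht u v
  have hdc := tht_dc (s none) (t none) (by rw [hs]; exact ht.symm) (Mtt_π (t none)) hπs hk
    (s ∘ some) (t ∘ some) α β
  rw [Mtt_ae, Mtt_ae] at hdc
  rw [hdc, ← h' inferInstance inferInstance (s ∘ some) (t ∘ some) (α ∘ some) (β ∘ some),
    ← h inferInstance inferInstance (Mtt_π (t none) ∘ s ∘ some) (Mtt_π (t none) ∘ t ∘ some)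
      (α ∘ some) (β ∘ some)]
  have h0 : inc (K := K) s t none none = 1 := by
    rw [Mtt_inc_def, if_pos hs, if_neg ht, sub_zero]
  have h1 : ∀ i, inc (K := K) s t none (some i) =
      -(fun i : n => if t none = some (some i) then 1 else 0) i := by
    intro i
    rw [Mtt_inc_def, if_neg (by rw [hs]; simp), zero_sub]
  rw [det_MM_rec (inc s t) _ h0 h1 α β]
  have hfun : (fun (e : E) (i : n) => inc s t (some e) (some i) + inc s t (some e) none *
      (fun i : n => if t none = some (some i) then (1 : K) else 0) i) =
      inc (Mtt_π (t none) ∘ s ∘ some) (Mtt_π (t none) ∘ t ∘ some) := by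
    funext e i
    rw [Mtt_inc_def, Mtt_inc_def, Mtt_inc_def]
    show _ = (if Mtt_π (t none) (s (some e)) = some i then 1 else 0) -
      (if Mtt_π (t none) (t (some e)) = some i then 1 else 0)
    rw [← Mtt_π_ind _ ht, ← Mtt_π_ind _ ht]
    ring
  rw [hfun]
  rfl

private theorem Mtt_key (n E : Type) [Fintype n] [Fintype E] (K : Type) [CommRing K]
    [DecidableEq E] [DecidableEq n]
    (ih : ∀ (n : Type) (_ : Fintype n), Mtt_P n E K)
    (s t : Option E → Option n) (α β : Option E → K) (v : n) (hs : s none = some v)
    (ht : t none ≠ some v) :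
    (MM (inc s t) α β).det = tht s t α β := by
  let f : Option {x // x ≠ v} ≃ n := Equiv.optionSubtypeNe v
  have hfv : f none = v := Equiv.optionSubtypeNe_none v
  have hf : ∀ x, (Equiv.optionCongr f) ((Equiv.optionCongr f).symm x) = x :=
    (Equiv.optionCongr f).apply_symm_apply
  have hs' : ∀ e, s ((Equiv.refl _) e) = (Equiv.optionCongr f)
      ((fun e => (Equiv.optionCongr f).symm (s e)) e) := fun e => (hf _).symm
  have ht' : ∀ e, t ((Equiv.refl _) e) = (Equiv.optionCongr f)
      ((fun e => (Equiv.optionCongr f).symm (t e)) e) := fun e => (hf _).symm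
  have hfn : ∀ x, (Equiv.optionCongr f).symm x = some none ↔ x = some v := by
    intro x
    rw [Equiv.symm_apply_eq]
    show x = some (f none) ↔ x = some v
    rw [hfv]
  have h1 := Mtt_some {x // x ≠ v} E K (ih _ _) (ih _ _)
    (fun e => (Equiv.optionCongr f).symm (s e)) (fun e => (Equiv.optionCongr f).symm (t e)) α β
    ((hfn _).2 hs) (fun h => ht ((hfn _).1 h))
  rw [tht_iso (Equiv.optionCongr f) (Equiv.refl _) _ _ s t hs' ht',
    ← Matrix.det_submatrix_equiv_self (Equiv.sumCongr (Equiv.refl _) f),
    Mtt_MMiso f (Equiv.refl _) _ _ s t hs' ht']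
  exact h1

private theorem Mtt_all (K : Type) [CommRing K] (N : ℕ) : ∀ (n : Type) (_ : Fintype n),
    Mtt_P n (Fin N) K := by
  classical
  induction N with
  | zero =>
    intro n _
    exact Mtt_empty n (Fin 0) K
  | succ N ih =>
    intro n _
    apply Mtt_iso n n (Option (Fin N)) (Fin (N + 1)) K (Equiv.refl n)
      (finSuccEquiv N).symm
    apply Mtt_of
    intro s t α β
    by_cases hst : s none = t none
    · exact Mtt_loop n (Fin N) K (ih n _) s t α β hst
    · rcases hs : s none with _ | v
      · rcases ht : t none with _ | w
        · exact absurd (hs.trans ht.symm) hst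
        · have h1 := Mtt_key n (Fin N) K ih (ae (t none) (s ∘ some)) (ae (s none) (t ∘ some))
            α β w ht (by
              show s none ≠ some w
              rw [hs]
              simp)
          rw [Mtt_neg, tht_flip s t] at h1
          · exact h1
          · intro e
            rcases e with _ | e
            · exact Or.inr ⟨rfl, rfl⟩
            · exact Or.inl ⟨rfl, rfl⟩
      · exact Mtt_key n (Fin N) K ih s t α β v hs (fun h => hst (hs.trans h.symm))

/-- MODULE MTT: the matrix tree theorem.

Proof.  Induction on `Fintype.card E` for all `n`, `s`, `t`, `α`, `β`.  If `E` is empty: the matrix is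
`0` on `n`, so the determinant is `1` if `n` is empty and `0` if not, and so is `tht` (only `T = ∅`).
Otherwise reindex `E ≃ Option E'` (`tht_iso`, `Matrix.det_submatrix_equiv_self`).  If `s none = t none`:
`det_MM_loop` and `tht_loop` (with `inc s t none = 0`; write `s = ae (s none) (s ∘ some)`).  If not, one of the
ends is `some v`; by `tht_flip` and since `inc t s = -inc s t` (both signs of the row and of the column of
that edge change: multiply by the diagonal matrix with `-1` at this edge on both sides) we may take `s none =
some v`; reindex `n ≃ Option n'` so that `v = none`.  Then `det_MM_rec` with `c i = if t none = some (some i) then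
1 else 0`, and `tht_dc` with `π : Option (Option n') → Option n'`, `π none = none`, `π (some none) =` the image of
`t none` (`t none ≠ some none`), `π (some (some i)) = some i`. -/
theorem mtt {n E K : Type} [Fintype E] [DecidableEq E] [Fintype n] [DecidableEq n] [CommRing K]
    (s t : E → Option n) (α β : E → K) : (MM (inc s t) α β).det = tht s t α β :=
  Mtt_iso n n (Fin (Fintype.card E)) E K (Equiv.refl n) (Fintype.equivFin E).symm
    (Mtt_all K (Fintype.card E) n inferInstance) inferInstance inferInstance s t α β

/-- MODULE KDET.  Proof: `kir_eq_tht`, `mtt` with `β = 1`, and `Matrix.det_fromBlocks_one₁₁`. -/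
theorem kir_eq_det {n E K : Type} [Fintype E] [Fintype n] [DecidableEq n] [CommRing K]
    (s t : E → Option n) (y : E → K) : kir s t y = (lap s t y).det := by
  classical
  have h1 : (Matrix.diagonal (1 : E → K)) = 1 := Matrix.diagonal_one
  have h2 : MM (inc s t) y 1 = Matrix.fromBlocks 1 (Matrix.of fun e v => y e * inc s t e v)
      (Matrix.of fun v e => -inc s t e v) 0 := by
    rw [MM, h1]
    rfl
  rw [kir_eq_tht, ← mtt, h2, Matrix.det_fromBlocks_one₁₁]
  congr 1
  ext u v
  rw [Matrix.sub_apply, Matrix.mul_apply, Matrix.zero_apply, zero_sub, ← Finset.sum_neg_distrib]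
  show _ = ∑ e, y e * inc s t e u * inc s t e v
  refine Finset.sum_congr rfl fun e _ => ?_
  rw [Matrix.of_apply, Matrix.of_apply]
  ring

end Pool.Agent.KG
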