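import Pool.Agent.KG.Deg

/-!
# Symanzik polynomials of graphs with degrees at most four generate all
-/

set_option autoImplicit false

open scoped BigOperators

namespace Pool.Agent.KG

variable {B : Set (FinField → ℤ)}

/-- MODULE SPA (1).  All of these: `Sp.add`, `Sp.mulp` with constants, powers of `X`, and `funext`. -/
theorem Sp.congr {f g : FinField → ℤ} (h : ∀ F, f F = g F) (hf : Sp B f) : Sp B g := by
  have e : f = g := funext h
  exact e ▸ hf

theorem Sp.sub {f g : FinField → ℤ} (hf : Sp B f) (hg : Sp B g) : Sp B fun F => f F - g F := by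
  refine Sp.congr (fun F => ?_) (Sp.add hf (Sp.mulp (-1) hg))
  rw [Polynomial.eval_neg, Polynomial.eval_one]
  ring

theorem Sp.zero : Sp B fun _ => 0 := by
  refine Sp.congr (fun F => ?_) (Sp.mulp 0 Sp.one)
  rw [Polynomial.eval_zero, zero_mul]

theorem Sp.pol (c : Polynomial ℤ) : Sp B fun F => c.eval F.q := by
  refine Sp.congr (fun F => ?_) (Sp.mulp c Sp.one)
  rw [mul_one]

theorem Sp.mono {B' : Set (FinField → ℤ)} {f : FinField → ℤ} (h : ∀ g ∈ B, Sp B' g) (hf : Sp B f) :
    Sp B' f := by
  induction hf with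
  | base hg => exact h _ hg
  | one => exact Sp.one
  | add _ _ h1 h2 => exact Sp.add h1 h2
  | mulp c _ h1 => exact Sp.mulp c h1
  | div m hm _ h1 => exact Sp.div m hm h1

/-- MODULE NSI: isomorphic graphs (`tht_iso`, `sym_eq_tht`, `Nat.card_congr`). -/
theorem ns_iso {V W E E' : Type} [Fintype V] [Fintype W] [Fintype E] [Fintype E'] (f : V ≃ W) (g : E ≃ E')
    (s t : E → V) (s' t' : E' → W) (hs : ∀ e, s' (g e) = f (s e)) (ht : ∀ e, t' (g e) = f (t e)) :
    ns s' t' = ns s t := by
  funext F
  unfold ns NS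
  congr 1
  refine Nat.card_congr (Equiv.subtypeEquiv (Equiv.arrowCongr g.symm (Equiv.refl F.K)) fun x => ?_)
  rw [sym_eq_tht, sym_eq_tht, tht_iso f g s t s' t' hs ht]
  rfl

/-- MODULE NSI (2). -/
theorem ns_flip {V E : Type} [Fintype V] [Fintype E] (s t s' t' : E → V)
    (h : ∀ e, (s' e = s e ∧ t' e = t e) ∨ (s' e = t e ∧ t' e = s e)) : ns s' t' = ns s t := by
  funext F
  unfold ns NS
  congr 1
  refine Nat.card_congr (Equiv.subtypeEquiv (Equiv.refl _) fun x => ?_)
  rw [sym_eq_tht, sym_eq_tht, tht_flip s t s' t' h]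
  rfl

/-- MODULE NSI (3). -/
theorem phi4_of_deg {V E : Type} [Fintype V] [Fintype E] (s t : E → V) (h : ∀ v, deg s t v ≤ 4) :
    Sp Phi4 (ns s t) := by
  have f := Fintype.equivFin V
  have g := Fintype.equivFin E
  have hs : ∀ e, (f ∘ s ∘ g.symm) (g e) = f (s e) := fun e => by simp
  have ht : ∀ e, (f ∘ t ∘ g.symm) (g e) = f (t e) := fun e => by simp
  refine Sp.base ⟨Fintype.card V, Fintype.card E, f ∘ s ∘ g.symm, f ∘ t ∘ g.symm, ?_,
    (ns_iso f g s t _ _ hs ht).symm⟩
  intro v
  obtain ⟨u, rfl⟩ := f.surjective v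
  rw [deg_iso f g s t _ _ hs ht]
  exact h u

/-- The weight of a graph. -/
noncomputable def wt {V E : Type} [Fintype V] (s t : E → V) : ℕ := ∑ v, (2 * deg s t v - 9)

/-- MODULE WTL: comparison of weights.

Proof.  `wt s' t' ≤ ∑_{u ≠ v} (2 deg u - 9)`: the vertices `v'` of degree at most `4` contribute `0`; the others
are `ι u` with `u ≠ v` and `2 deg v' - 9 ≤ 2 deg u - 9`, and `ι` is injective, so each `u` is used at most once. -/
theorem wt_lt {V V' E E' : Type} [Fintype V] [Fintype V'] (s t : E → V) (s' t' : E' → V') (v : V)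
    (hv : 5 ≤ deg s t v) (ι : V → V')
    (h : ∀ v', deg s' t' v' ≤ 4 ∨ ∃ u, u ≠ v ∧ ι u = v' ∧ deg s' t' v' ≤ deg s t u) :
    wt s' t' < wt s t := by
  classical
  have hex : ∀ v', ¬ deg s' t' v' ≤ 4 → ∃ u, u ≠ v ∧ ι u = v' ∧ deg s' t' v' ≤ deg s t u := by
    intro v' hv'
    exact (h v').resolve_left hv'
  have : Nonempty V := ⟨v⟩
  choose! g hg using hex
  set S : Finset V' := Finset.univ.filter fun v' => ¬ deg s' t' v' ≤ 4 with hS
  have hmem : ∀ v' ∈ S, ¬ deg s' t' v' ≤ 4 := by
    intro v' hv'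
    simpa [hS] using hv'
  have e1 : wt s' t' = ∑ v' ∈ S, (2 * deg s' t' v' - 9) := by
    unfold wt
    symm
    apply Finset.sum_subset (Finset.subset_univ _)
    intro v' _ hv'
    have : deg s' t' v' ≤ 4 := by
      by_contra hcon
      exact hv' (by simpa [hS] using hcon)
    omega
  have e2 : ∑ v' ∈ S, (2 * deg s' t' v' - 9) ≤ ∑ v' ∈ S, (2 * deg s t (g v') - 9) := by
    apply Finset.sum_le_sum
    intro v' hv'
    have := (hg v' (hmem v' hv')).2.2
    omega
  have e3 : ∑ v' ∈ S, (2 * deg s t (g v') - 9) = ∑ u ∈ S.image g, (2 * deg s t u - 9) := by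
    rw [Finset.sum_image]
    intro x hx y hy hxy
    have h1 := (hg x (hmem x hx)).2.1
    have h2 := (hg y (hmem y hy)).2.1
    rw [← h1, ← h2, hxy]
  have e4 : ∑ u ∈ S.image g, (2 * deg s t u - 9) ≤ ∑ u ∈ Finset.univ.erase v, (2 * deg s t u - 9) := by
    apply Finset.sum_le_sum_of_subset
    intro u hu
    obtain ⟨v', hv', rfl⟩ := Finset.mem_image.mp hu
    exact Finset.mem_erase.mpr ⟨(hg v' (hmem v' hv')).1, Finset.mem_univ _⟩
  have e5 : wt s t = ∑ u ∈ Finset.univ.erase v, (2 * deg s t u - 9) + (2 * deg s t v - 9) := by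
    unfold wt
    rw [Finset.sum_erase_add _ _ (Finset.mem_univ v)]
  omega

/-- The weight of a graph on `Option V`. -/
private theorem kgm_wt_option {V E : Type} [Fintype V] [DecidableEq V] (s t : E → Option V) (v : V) :
    wt s t = (2 * deg s t none - 9) + (2 * deg s t (some v) - 9) +
      ∑ u ∈ Finset.univ.erase v, (2 * deg s t (some u) - 9) := by
  unfold wt
  rw [Fintype.sum_option, ← Finset.sum_erase_add _ _ (Finset.mem_univ v)]
  ring

private theorem kgm_wt {V E : Type} [Fintype V] [DecidableEq V] (s t : E → V) (v : V) :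
    wt s t = (2 * deg s t v - 9) + ∑ u ∈ Finset.univ.erase v, (2 * deg s t u - 9) := by
  unfold wt
  rw [← Finset.sum_erase_add _ _ (Finset.mem_univ v)]
  ring

private theorem kgm_q (F : FinField) [Fintype F.K] : F.q = (Fintype.card F.K : ℤ) := by
  unfold FinField.q
  rw [Nat.card_eq_fintype_card]

/-- MODULE STEP6: a vertex of degree at least `6`.

Proof.  `exists_J` with `k = 3`; `s₁ = spl v J s`, `t₁ = spl v J t`, `a = some v`, `b = none`, `π = fold v`.  By `L1G`
(for `F.K`, with `Fintype.ofFinite`, `F.q = Fintype.card F.K`), `X * ns s t` is a combination of the functions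
of the graphs `(ae a (ae a s₁), ae b (ae b t₁))`, `(s₁, t₁)`, `(ae a s₁, ae b t₁)` and `X ^ card E`; these graphs have no loops.
Weights: let `d = deg s t v ≥ 6`.  In the first graph the degrees are `5` at `none`, `d - 1` at `some v`, `deg u` at
`some u`, so the weight is `1 + (2 d - 11) + ∑_{u ≠ v} < (2 d - 9) + ∑_{u ≠ v}`.  In the other two they are smaller.
Divide by `X` (`Sp.div`). -/
theorem step6 {V E : Type} [Fintype V] [Fintype E] (s t : E → V) (h : LL s t) (v : V)
    (hv : 6 ≤ deg s t v)
    (IH : ∀ (V' E' : Type) [Fintype V'] [Fintype E'] (s' t' : E' → V'), LL s' t' → wt s' t' < wt s t →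
      Sp Phi4 (ns s' t')) :
    Sp Phi4 (ns s t) := by
  classical
  obtain ⟨J, hJc, hJ⟩ := exists_J h v 3 (by omega)
  set s₁ := spl v J s with hs₁
  set t₁ := spl v J t with ht₁
  have hLL : LL s₁ t₁ := LL_spl h v J
  have hne : (some v : Option V) ≠ none := by simp
  have hn : deg s₁ t₁ none = 3 := by rw [hs₁, ht₁, deg_spl_none h v J hJ, hJc]
  have hv1 : deg s₁ t₁ (some v) + 3 = deg s t v := by
    have := deg_spl_self h v J hJ
    rwa [hJc] at this
  have hw : ∀ w, w ≠ v → deg s₁ t₁ (some w) = deg s t w := fun w hw =>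
    deg_spl_other s t v w hw J
  have f1 : Sp Phi4 (ns (ae (some v) (ae (some v) s₁)) (ae none (ae none t₁))) := by
    refine IH _ _ _ _ (LL_ae (LL_ae hLL hne) hne) ?_
    rw [kgm_wt_option _ _ v, kgm_wt s t v]
    have e1 : ∑ u ∈ Finset.univ.erase v,
        (2 * deg (ae (some v) (ae (some v) s₁)) (ae none (ae none t₁)) (some u) - 9) =
        ∑ u ∈ Finset.univ.erase v, (2 * deg s t u - 9) := by
      refine Finset.sum_congr rfl fun u hu => ?_
      have hu' := Finset.ne_of_mem_erase hu
      rw [deg_ae, deg_ae, hw u hu']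
      simp [hu']
    rw [e1]
    have e2 : deg (ae (some v) (ae (some v) s₁)) (ae none (ae none t₁)) none = 5 := by
      rw [deg_ae, deg_ae, hn]; simp
    have e3 : deg (ae (some v) (ae (some v) s₁)) (ae none (ae none t₁)) (some v) =
        deg s₁ t₁ (some v) + 2 := by
      rw [deg_ae, deg_ae]; simp
    rw [e2, e3]
    omega
  have f2 : Sp Phi4 (ns s₁ t₁) := by
    refine IH _ _ _ _ hLL ?_
    rw [kgm_wt_option _ _ v, kgm_wt s t v]
    have e1 : ∑ u ∈ Finset.univ.erase v, (2 * deg s₁ t₁ (some u) - 9) =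
        ∑ u ∈ Finset.univ.erase v, (2 * deg s t u - 9) := by
      refine Finset.sum_congr rfl fun u hu => ?_
      rw [hw u (Finset.ne_of_mem_erase hu)]
    rw [e1, hn]
    omega
  have f3 : Sp Phi4 (ns (ae (some v) s₁) (ae none t₁)) := by
    refine IH _ _ _ _ (LL_ae hLL hne) ?_
    rw [kgm_wt_option _ _ v, kgm_wt s t v]
    have e1 : ∑ u ∈ Finset.univ.erase v,
        (2 * deg (ae (some v) s₁) (ae none t₁) (some u) - 9) =
        ∑ u ∈ Finset.univ.erase v, (2 * deg s t u - 9) := by
      refine Finset.sum_congr rfl fun u hu => ?_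
      have hu' := Finset.ne_of_mem_erase hu
      rw [deg_ae, hw u hu']
      simp [hu']
    rw [e1]
    have e2 : deg (ae (some v) s₁) (ae none t₁) none = 4 := by
      rw [deg_ae, hn]; simp
    have e3 : deg (ae (some v) s₁) (ae none t₁) (some v) = deg s₁ t₁ (some v) + 1 := by
      rw [deg_ae]; simp
    rw [e2, e3]
    omega
  refine Sp.div Polynomial.X Polynomial.monic_X ?_
  refine Sp.congr ?_ (((f1.sub (f2.mulp (Polynomial.X - 1))).sub
    (f3.mulp (Polynomial.X - 2))).sub (Sp.pol (Polynomial.X ^ Fintype.card E)))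
  intro F
  have : Fintype F.K := Fintype.ofFinite _
  have key := L1G (K := F.K) s₁ t₁ (some v) none hne (fold v) (fold_surj v) (fold_ker v)
  rw [hs₁, ht₁, fold_spl, fold_spl, ← kgm_q, ← hs₁, ← ht₁] at key
  simp only [Polynomial.eval_sub, Polynomial.eval_X, Polynomial.eval_one, Polynomial.eval_pow,
    Polynomial.eval_ofNat, ns]
  linarith

/-- MODULE STEP5: a vertex of degree `5`, with a chosen edge.

Proof.  `G = (ae v s, ae u t)`, so `deg s t v = 4`; `exists_J` with `k = 2`; `s₁ = spl v J s`, `t₁ = spl v J t`,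
`a = some v`, `b = none`, `c = some u`, `π = fold v`.  `L2G`: `X ^ 2 * (X - 2) * ns G` is a combination of ten
functions and a polynomial.  All the graphs have no loops and smaller weight: `wt_lt` with `ι u` = the image of
`u` in the new set of vertices (`some u`, `some (some u)`, ...; for the graph `(s, t)` itself `ι = id`).  Degrees
(`deg_ae`, `deg_star_some`, ...): at `a` at most `4`, at `b` at most `4`, at the new vertices `3` or `4`, at
`some u'` the same as in `G` or one less.  Divide by `X ^ 2 * (X - 2)`. -/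
theorem step5 {V E : Type} [Fintype V] [Fintype E] (s t : E → V) (u v : V) (h : LL (ae v s) (ae u t))
    (hv : deg (ae v s) (ae u t) v = 5)
    (IH : ∀ (V' E' : Type) [Fintype V'] [Fintype E'] (s' t' : E' → V'), LL s' t' →
      wt s' t' < wt (ae v s) (ae u t) → Sp Phi4 (ns s' t')) :
    Sp Phi4 (ns (ae v s) (ae u t)) := by
  classical
  have hst : LL s t := fun e => h (some e)
  have hvu : v ≠ u := h none
  have hG : ∀ w, deg (ae v s) (ae u t) w = deg s t w + (if w = v then 1 else 0) +
      (if w = u then 1 else 0) := fun w => deg_ae s t v u w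
  have hsv : deg s t v = 4 := by
    have := hG v
    rw [hv, if_pos rfl, if_neg hvu] at this
    omega
  obtain ⟨J, hJc, hJ⟩ := exists_J hst v 2 (by omega)
  set s₁ := spl v J s with hs₁
  set t₁ := spl v J t with ht₁
  have hLL : LL s₁ t₁ := LL_spl hst v J
  have hab : (some v : Option V) ≠ none := by simp
  have hac : (some v : Option V) ≠ some u := by simpa using hvu
  have hbc : (none : Option V) ≠ some u := by simp
  have hn : deg s₁ t₁ none = 2 := by rw [hs₁, ht₁, deg_spl_none hst v J hJ, hJc]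
  have hv1 : deg s₁ t₁ (some v) = 2 := by
    have := deg_spl_self hst v J hJ
    rw [hJc, hsv] at this
    rw [hs₁, ht₁]
    omega
  have hw : ∀ w, w ≠ v → deg s₁ t₁ (some w) = deg s t w := fun w hw =>
    deg_spl_other s t v w hw J
  have hGw : ∀ w, w ≠ v → deg (ae v s) (ae u t) w = deg s t w + (if w = u then 1 else 0) := by
    intro w hw'
    rw [hG, if_neg hw']
    omega
  have f0 : Sp Phi4 (ns s t) := by
    refine IH _ _ _ _ hst (wt_lt _ _ _ _ v hv.ge id fun w => ?_)
    by_cases hwv : w = v
    · left; rw [hwv, hsv]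
    · right; exact ⟨w, hwv, rfl, by rw [hGw w hwv]; omega⟩
  have f2 : Sp Phi4 (ns (ae (some v) s₁) (ae (some u) t₁)) := by
    refine IH _ _ _ _ (LL_ae hLL hac) (wt_lt _ _ _ _ v hv.ge some fun w => ?_)
    rcases w with _ | w
    · left; rw [deg_ae, hn]; simp
    · by_cases hwv : w = v
      · left; rw [hwv, deg_ae, hv1]; simp [hvu]
      · right; refine ⟨w, hwv, rfl, ?_⟩
        rw [hGw w hwv, deg_ae, hw w hwv]; simp [hwv]
  have f3 : Sp Phi4 (ns (ae none s₁) (ae (some u) t₁)) := by
    refine IH _ _ _ _ (LL_ae hLL hbc) (wt_lt _ _ _ _ v hv.ge some fun w => ?_)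
    rcases w with _ | w
    · left; rw [deg_ae, hn]; simp
    · by_cases hwv : w = v
      · left; rw [hwv, deg_ae, hv1]; simp [hvu]
      · right; refine ⟨w, hwv, rfl, ?_⟩
        rw [hGw w hwv, deg_ae, hw w hwv]; simp
  have f4 : Sp Phi4 (ns s₁ t₁) := by
    refine IH _ _ _ _ hLL (wt_lt _ _ _ _ v hv.ge some fun w => ?_)
    rcases w with _ | w
    · left; rw [hn]; omega
    · by_cases hwv : w = v
      · left; rw [hwv, hv1]; omega
      · right; refine ⟨w, hwv, rfl, ?_⟩
        rw [hGw w hwv, hw w hwv]; omega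
  have f5 : Sp Phi4 (ns (ae (some v) (ae (some v) s₁)) (ae none (ae (some u) t₁))) := by
    refine IH _ _ _ _ (LL_ae (LL_ae hLL hac) hab) (wt_lt _ _ _ _ v hv.ge some fun w => ?_)
    rcases w with _ | w
    · left; rw [deg_ae, deg_ae, hn]; simp
    · by_cases hwv : w = v
      · left; rw [hwv, deg_ae, deg_ae, hv1]; simp [hvu]
      · right; refine ⟨w, hwv, rfl, ?_⟩
        rw [hGw w hwv, deg_ae, deg_ae, hw w hwv]; simp [hwv]
  have f6 : Sp Phi4 (ns (ae (some v) (ae none s₁)) (ae none (ae (some u) t₁))) := by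
    refine IH _ _ _ _ (LL_ae (LL_ae hLL hbc) hab) (wt_lt _ _ _ _ v hv.ge some fun w => ?_)
    rcases w with _ | w
    · left; rw [deg_ae, deg_ae, hn]; simp
    · by_cases hwv : w = v
      · left; rw [hwv, deg_ae, deg_ae, hv1]; simp [hvu]
      · right; refine ⟨w, hwv, rfl, ?_⟩
        rw [hGw w hwv, deg_ae, deg_ae, hw w hwv]; simp [hwv]
  have f7 : Sp Phi4 (ns (ae (some v) s₁) (ae none t₁)) := by
    refine IH _ _ _ _ (LL_ae hLL hab) (wt_lt _ _ _ _ v hv.ge some fun w => ?_)
    rcases w with _ | w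
    · left; rw [deg_ae, hn]; simp
    · by_cases hwv : w = v
      · left; rw [hwv, deg_ae, hv1]; simp
      · right; refine ⟨w, hwv, rfl, ?_⟩
        rw [hGw w hwv, deg_ae, hw w hwv]; simp [hwv]
  have f8 : Sp Phi4 (ns (starS (some v) none s₁) (starT (some u) t₁)) := by
    refine IH _ _ _ _ (LL_star hLL _ _ _) (wt_lt _ _ _ _ v hv.ge (fun w => some (some w))
      fun w => ?_)
    rcases w with _ | w
    · left; rw [deg_star_none]; omega
    · rcases w with _ | w
      · left; rw [deg_star_some, hn]; simp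
      · by_cases hwv : w = v
        · left; rw [hwv, deg_star_some, hv1]; simp [hvu]
        · right; refine ⟨w, hwv, rfl, ?_⟩
          rw [hGw w hwv, deg_star_some, hw w hwv]; simp [hwv]
  have f9 : Sp Phi4 (ns (starS (some v) none (ae (some v) s₁)) (starT (some u) (ae none t₁))) := by
    refine IH _ _ _ _ (LL_star (LL_ae hLL hab) _ _ _)
      (wt_lt _ _ _ _ v hv.ge (fun w => some (some w)) fun w => ?_)
    rcases w with _ | w
    · left; rw [deg_star_none]; omega
    · rcases w with _ | w
      · left; rw [deg_star_some, deg_ae, hn]; simp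
      · by_cases hwv : w = v
        · left; rw [hwv, deg_star_some, deg_ae, hv1]; simp [hvu]
        · right; refine ⟨w, hwv, rfl, ?_⟩
          rw [hGw w hwv, deg_star_some, deg_ae, hw w hwv]; simp [hwv]
  have f10 : Sp Phi4 (ns (starS (some (some v)) (some none)
      (ae (some (some v)) (ae none fun e => some (s₁ e))))
      (starT none (ae none (ae (some (some u)) fun e => some (t₁ e))))) := by
    refine IH _ _ _ _ (LL_star (LL_ae (LL_ae (LL_some hLL) (by simp)) (by simp)) _ _ _)
      (wt_lt _ _ _ _ v hv.ge (fun w => some (some (some w))) fun w => ?_)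
    rcases w with _ | w
    · left; rw [deg_star_none]; omega
    · rcases w with _ | w
      · left; rw [deg_star_some, deg_ae, deg_ae, deg_none]; simp
      · rcases w with _ | w
        · left; rw [deg_star_some, deg_ae, deg_ae, deg_some, hn]; simp
        · by_cases hwv : w = v
          · left; rw [hwv, deg_star_some, deg_ae, deg_ae, deg_some, hv1]; simp [hvu]
          · right; refine ⟨w, hwv, rfl, ?_⟩
            rw [hGw w hwv, deg_star_some, deg_ae, deg_ae, deg_some, hw w hwv]; simp [hwv]
  have f11 : Sp Phi4 (ns (starS (some (some v)) (some none) (starS (some v) none s₁))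
      (starT none (starT (some u) t₁))) := by
    refine IH _ _ _ _ (LL_star (LL_star hLL _ _ _) _ _ _)
      (wt_lt _ _ _ _ v hv.ge (fun w => some (some (some w))) fun w => ?_)
    rcases w with _ | w
    · left; rw [deg_star_none]; omega
    · rcases w with _ | w
      · left; rw [deg_star_some, deg_star_none]; simp
      · rcases w with _ | w
        · left; rw [deg_star_some, deg_star_some, hn]; simp
        · by_cases hwv : w = v
          · left; rw [hwv, deg_star_some, deg_star_some, hv1]; simp [hvu]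
          · right; refine ⟨w, hwv, rfl, ?_⟩
            rw [hGw w hwv, deg_star_some, deg_star_some, hw w hwv]; simp [hwv]
  have hmon : (Polynomial.X ^ 2 * (Polynomial.X - 2) : Polynomial ℤ).Monic := by
    have h1 : (Polynomial.X - 2 : Polynomial ℤ) = Polynomial.X - Polynomial.C 2 := by simp
    rw [h1]
    exact (Polynomial.monic_X_pow 2).mul (Polynomial.monic_X_sub_C 2)
  refine Sp.div (Polynomial.X ^ 2 * (Polynomial.X - 2)) hmon ?_
  refine Sp.congr ?_ (((((((((((f0.mulp (Polynomial.X ^ 2)).sub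
    ((f2.add f3).mulp (Polynomial.X * (Polynomial.X - 1) ^ 2))).sub
    (f4.mulp (Polynomial.X * (Polynomial.X - 1) ^ 2))).sub
    (f5.mulp (Polynomial.X ^ 2))).sub
    (f6.mulp (Polynomial.X * (Polynomial.X ^ 2 - 2 * Polynomial.X + 2)))).sub
    (f7.mulp Polynomial.X)).sub
    (f8.mulp (Polynomial.X ^ 2 - 3 * Polynomial.X + 1))).sub f9).sub
    (f10.mulp (Polynomial.X - 2))).add f11).sub
    (Sp.pol ((2 * Polynomial.X ^ 3 - Polynomial.X) * Polynomial.X ^ Fintype.card E)))
  intro F
  have : Fintype F.K := Fintype.ofFinite _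
  have key := L2G (K := F.K) s₁ t₁ (some v) none (some u) hab hac hbc (fold v) (fold_surj v)
    (fold_ker v)
  have e1 : fold v ∘ s₁ = s := fold_spl v J s
  have e2 : fold v ∘ t₁ = t := fold_spl v J t
  rw [e1, e2, ← kgm_q] at key
  have e3 : fold v (some v) = v := rfl
  have e4 : fold v (some u) = u := rfl
  rw [e3, e4] at key
  simp only [Polynomial.eval_sub, Polynomial.eval_add, Polynomial.eval_mul, Polynomial.eval_X,
    Polynomial.eval_one, Polynomial.eval_pow, Polynomial.eval_ofNat, ns]
  linarith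

/-- The degree as a sum over the edges. -/
private theorem kgm_deg_sum {V E : Type} [Fintype E] [DecidableEq V] (s t : E → V) (v : V) :
    deg s t v = ∑ e, ((if s e = v then 1 else 0) + (if t e = v then 1 else 0)) := by
  have key : ∀ r : E → V, {e | r e = v}.ncard = ∑ e, (if r e = v then 1 else 0) := by
    intro r
    rw [← Finset.card_filter, ← Set.ncard_coe_finset]
    congr 1
    ext e
    simp
  unfold deg
  rw [key, key, Finset.sum_add_distrib]

/-- MODULE STEP5R: reduction of a graph with a vertex of degree `5` to `step5`.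

Proof.  Choose an edge `e₀` with an end at `v`, `E ≃ Option {e // e ≠ e₀}`, and flip `e₀` if necessary
(`ns_iso`, `ns_flip`; the degrees, the weight and `LL` do not change). -/
theorem step5' {V E : Type} [Fintype V] [Fintype E] (s t : E → V) (h : LL s t) (v : V)
    (hv : deg s t v = 5)
    (IH : ∀ (V' E' : Type) [Fintype V'] [Fintype E'] (s' t' : E' → V'), LL s' t' → wt s' t' < wt s t →
      Sp Phi4 (ns s' t')) :
    Sp Phi4 (ns s t) := by
  classical
  -- an edge at `v`
  obtain ⟨J, hJc, hJ⟩ := exists_J h v 1 (by omega)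
  obtain ⟨e₀, he₀⟩ := Finset.card_pos.mp (by omega : 0 < J.card)
  have hinc := hJ e₀ he₀
  set u : V := if s e₀ = v then t e₀ else s e₀ with hu
  -- the graph with the first edge from `v` to `u`
  set S : {e // e ≠ e₀} → V := fun e => s e with hS
  set T : {e // e ≠ e₀} → V := fun e => t e with hT
  let g : Option {e // e ≠ e₀} ≃ E := Equiv.optionSubtypeNe e₀
  have hg0 : g none = e₀ := Equiv.optionSubtypeNe_none e₀
  have hg1 : ∀ e : {e // e ≠ e₀}, g (some e) = e := fun e => Equiv.optionSubtypeNe_some e₀ e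
  have hends : ∀ o : Option {e // e ≠ e₀},
      (s (g o) = ae v S o ∧ t (g o) = ae u T o) ∨ (s (g o) = ae u T o ∧ t (g o) = ae v S o) := by
    intro o
    rcases o with _ | e
    · rw [hg0]
      show (s e₀ = v ∧ t e₀ = u) ∨ (s e₀ = u ∧ t e₀ = v)
      by_cases h1 : s e₀ = v
      · left; exact ⟨h1, by rw [hu, if_pos h1]⟩
      · right; exact ⟨by rw [hu, if_neg h1], hinc.resolve_left h1⟩
    · rw [hg1]
      left; exact ⟨rfl, rfl⟩
  have hns : ns (ae v S) (ae u T) = ns s t := by
    have h1 : ns (s ∘ g) (t ∘ g) = ns s t :=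
      ns_iso (Equiv.refl V) g.symm s t (s ∘ g) (t ∘ g) (fun e => by simp) (fun e => by simp)
    rw [← h1]
    exact (ns_flip (ae v S) (ae u T) (s ∘ g) (t ∘ g) hends).symm
  have hdeg : ∀ w, deg (ae v S) (ae u T) w = deg s t w := by
    intro w
    rw [kgm_deg_sum, kgm_deg_sum, ← Equiv.sum_comp g]
    refine Finset.sum_congr rfl fun o _ => ?_
    rcases hends o with ⟨h1, h2⟩ | ⟨h1, h2⟩
    · rw [h1, h2]
    · rw [h1, h2, add_comm]
  have hwt : wt (ae v S) (ae u T) = wt s t := by
    unfold wt
    exact Finset.sum_congr rfl fun w _ => by rw [hdeg]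
  have hLL : LL (ae v S) (ae u T) := by
    intro o
    have h1 := h (g o)
    rcases hends o with ⟨h2, h3⟩ | ⟨h2, h3⟩
    · rw [← h2, ← h3]; exact h1
    · rw [← h2, ← h3]; exact h1.symm
  have := step5 S T u v hLL (by rw [hdeg, hv]) (by
    intro V' E' _ _ s' t' hL' hw'
    exact IH V' E' s' t' hL' (by rwa [hwt] at hw'))
  rwa [hns] at this

/-- MODULE IND: strong induction on the weight. -/
theorem phi4_of_LL {V E : Type} [Fintype V] [Fintype E] (s t : E → V) (h : LL s t) :
    Sp Phi4 (ns s t) := by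
  have key : ∀ (n : ℕ) (V E : Type) [Fintype V] [Fintype E] (s t : E → V), LL s t → wt s t = n →
      Sp Phi4 (ns s t) := by
    intro n
    induction n using Nat.strong_induction_on with
    | _ n ih =>
      intro V E _ _ s t h hn
      have IH : ∀ (V' E' : Type) [Fintype V'] [Fintype E'] (s' t' : E' → V'), LL s' t' →
          wt s' t' < wt s t → Sp Phi4 (ns s' t') := fun V' E' _ _ s' t' h' hlt =>
        ih _ (hn ▸ hlt) V' E' s' t' h' rfl
      by_cases h6 : ∃ v, 6 ≤ deg s t v
      · obtain ⟨v, hv⟩ := h6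
        exact step6 s t h v hv IH
      · push Not at h6
        by_cases h5 : ∃ v, deg s t v = 5
        · obtain ⟨v, hv⟩ := h5
          exact step5' s t h v hv IH
        · push Not at h5
          refine phi4_of_deg s t fun v => ?_
          have h7 := h6 v
          have h8 := h5 v
          omega
  exact key _ V E s t h rfl

/-- MODULE ALLS: all graphs.

Proof.  Induction on the number of edges: if there is a loop `e₀`, then `E ≃ Option {e // e ≠ e₀}` and
`NS_loop`; otherwise `phi4_of_LL`. -/
theorem phi4_all {V E : Type} [Fintype V] [Fintype E] (s t : E → V) : Sp Phi4 (ns s t) := by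
  classical
  have key : ∀ (n : ℕ) (V E : Type) [Fintype V] [Fintype E] (s t : E → V), Fintype.card E = n →
      Sp Phi4 (ns s t) := by
    intro n
    induction n using Nat.strong_induction_on with
    | _ n ih =>
      intro V E _ _ s t hn
      by_cases h : LL s t
      · exact phi4_of_LL s t h
      · unfold LL at h
        push Not at h
        obtain ⟨e₀, he⟩ := h
        have e1 : ns s t = ns (ae (s e₀) fun e : {e // e ≠ e₀} => s e)
            (ae (s e₀) fun e : {e // e ≠ e₀} => t e) := by
          refine ns_iso (Equiv.refl V) (Equiv.optionSubtypeNe e₀) _ _ s t ?_ ?_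
          · rintro (_ | e) <;> rfl
          · rintro (_ | e)
            · exact he.symm
            · rfl
        have hc : Fintype.card {e // e ≠ e₀} < n := by
          rw [← hn]
          exact Fintype.card_subtype_lt (x := e₀) (fun h => h rfl)
        have h1 := ih _ hc V {e // e ≠ e₀} (fun e => s e) (fun e => t e) rfl
        rw [e1]
        refine Sp.congr (fun F => ?_) (Sp.add
          (Sp.mulp (Polynomial.X - 1) h1)
          (Sp.mulp (Polynomial.X ^ Fintype.card {e // e ≠ e₀}) Sp.one))
        have : Fintype F.K := Fintype.ofFinite _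
        have h2 := NS_loop (K := F.K) (fun e : {e // e ≠ e₀} => s e) (fun e => t e) (s e₀)
        have h3 : F.q = (Fintype.card F.K : ℤ) := by
          unfold FinField.q
          rw [Nat.card_eq_fintype_card]
        simp only [ns, Polynomial.eval_sub, Polynomial.eval_X, Polynomial.eval_one,
          Polynomial.eval_pow, mul_one]
        rw [h2, h3]
  exact key _ V E s t rfl

/-- Zeros of the mixed polynomial, conductances on `E`, resistances on `E'`. -/
noncomputable def mx {V E E' : Type} [Fintype V] [Fintype E] [Fintype E'] (s t : E ⊕ E' → V) :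
    FinField → ℤ := fun F =>
  (Nat.card {p : (E → F.K) × (E' → F.K) // tht s t (Sum.elim p.1 1) (Sum.elim 1 p.2) = 0} : ℤ)

/-- the graph without the edge `e₀` -/
private def mixr {V E E' : Type} (s : E ⊕ E' → V) (e₀ : E) : {e // e ≠ e₀} ⊕ E' → V :=
  Sum.elim (fun e => s (Sum.inl e)) fun e => s (Sum.inr e)

/-- the graph with the edge `e₀` moved to the resistances -/
private def mixo {V E E' : Type} (s : E ⊕ E' → V) (e₀ : E) : {e // e ≠ e₀} ⊕ Option E' → V :=
  Sum.elim (fun e => s (Sum.inl e)) fun o => o.elim (s (Sum.inl e₀)) fun e => s (Sum.inr e)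

open Classical in
/-- contraction of the edge from `a` to `b` -/
private noncomputable def mixp {V : Type} (a b : V) (hab : a ≠ b) : V → {v // v ≠ b} :=
  fun v => if h : v = b then ⟨a, hab⟩ else ⟨v, h⟩

private theorem mixp_surj {V : Type} (a b : V) (hab : a ≠ b) :
    Function.Surjective (mixp a b hab) := by
  rintro ⟨v, hv⟩
  exact ⟨v, by simp [mixp, hv]⟩

private theorem mixp_ker {V : Type} (a b : V) (hab : a ≠ b) (u v : V) :
    mixp a b hab u = mixp a b hab v ↔ u = v ∨ (u = a ∧ v = b) ∨ (u = b ∧ v = a) := by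
  unfold mixp
  by_cases hu : u = b
  · by_cases hv : v = b
    · simp [hu, hv]
    · rw [dif_pos hu, dif_neg hv, Subtype.mk.injEq]
      constructor
      · intro h
        exact Or.inr (Or.inr ⟨hu, h.symm⟩)
      · rintro (h | h | h)
        · exact absurd (h ▸ hu) hv
        · exact absurd h.2 hv
        · exact h.2.symm
  · by_cases hv : v = b
    · rw [dif_neg hu, dif_pos hv, Subtype.mk.injEq]
      constructor
      · intro h
        exact Or.inr (Or.inl ⟨h, hv⟩)
      · rintro (h | h | h)
        · exact absurd (h.trans hv) hu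
        · exact h.1
        · exact absurd h.1 hu
    · rw [dif_neg hu, dif_neg hv, Subtype.mk.injEq]
      constructor
      · intro h
        exact Or.inl h
      · rintro (h | h | h)
        · exact h
        · exact absurd h.2 hv
        · exact absurd h.1 hu

/-- The edges, with `e₀` first. -/
private noncomputable def mixg {E : Type} (E' : Type) [DecidableEq E] (e₀ : E) :
    Option ({e // e ≠ e₀} ⊕ E') ≃ E ⊕ E' where
  toFun o := o.elim (Sum.inl e₀) (Sum.elim (fun e => Sum.inl e.1) Sum.inr)
  invFun x := Sum.elim (fun e => if h : e = e₀ then none else some (Sum.inl ⟨e, h⟩))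
    (fun e => some (Sum.inr e)) x
  left_inv o := by
    rcases o with _ | (⟨e, he⟩ | e)
    · simp
    · simp [he]
    · simp
  right_inv x := by
    rcases x with e | e
    · by_cases h : e = e₀
      · simp [h]
      · simp [h]
    · simp

/-- The edges, with `e₀` moved. -/
private def mixg' {E : Type} (E' : Type) (e₀ : E) :
    Option ({e // e ≠ e₀} ⊕ E') ≃ {e // e ≠ e₀} ⊕ Option E' where
  toFun o := o.elim (Sum.inr none) (Sum.elim Sum.inl fun e => Sum.inr (some e))
  invFun x := Sum.elim (fun e => some (Sum.inl e)) (fun o => o.elim none fun e => some (Sum.inr e)) x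
  left_inv o := by
    rcases o with _ | (e | e) <;> rfl
  right_inv x := by
    rcases x with e | (_ | e) <;> rfl

private theorem mix_ind {K P : Type} [Field K] [Fintype K] [Fintype P] (f : P → K) :
    (Nat.card {p // f p = 0} : ℤ) = ∑ p, (open Classical in if f p = 0 then (1 : ℤ) else 0) := by
  classical
  rw [Nat.card_eq_fintype_card, Fintype.card_subtype, Finset.card_filter]
  push_cast
  rfl

section

variable {V E E' : Type} [Fintype V] [Fintype E] [Fintype E'] (s t : E ⊕ E' → V)

private theorem mix_zero [IsEmpty E] (F : FinField) :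
    mx s t F = ns (s ∘ Sum.inr) (t ∘ Sum.inr) F := by
  unfold mx ns NS
  congr 1
  refine Nat.card_congr ?_
  have h : ∀ p : (E → F.K) × (E' → F.K), tht s t (Sum.elim p.1 1) (Sum.elim 1 p.2) =
      sym (s ∘ Sum.inr) (t ∘ Sum.inr) p.2 := by
    intro p
    rw [sym_eq_tht, tht_iso (Equiv.refl V) (Equiv.emptySum E E').symm (s ∘ Sum.inr) (t ∘ Sum.inr) s t
      (fun e => rfl) (fun e => rfl)]
    rfl
  refine (Equiv.subtypeEquiv (Equiv.uniqueProd (E' → F.K) (E → F.K)) fun p => ?_)
  rw [h]
  rfl

variable [DecidableEq V] [DecidableEq E] [DecidableEq E'] (e₀ : E)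

/-- the zeros with the variable of `e₀` first -/
private theorem mix_first (F : FinField) [Fintype F.K] :
    mx s t F = ∑ p : ({e // e ≠ e₀} → F.K) × (E' → F.K), ∑ y : F.K,
      (open Classical in if tht (ae (s (Sum.inl e₀)) (mixr s e₀)) (ae (t (Sum.inl e₀)) (mixr t e₀))
        (fun o => o.elim y (Sum.elim p.1 1)) (fun o => o.elim 1 (Sum.elim 1 p.2)) = 0
        then (1 : ℤ) else 0) := by
  classical
  unfold mx
  rw [mix_ind, Finset.sum_comm, ← Finset.sum_product' (s := Finset.univ) (t := Finset.univ)]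
  refine Fintype.sum_equiv
    { toFun := fun p => (p.1 e₀, (fun e => p.1 e.1), p.2)
      invFun := fun p => ((fun e => if h : e = e₀ then p.1 else p.2.1 ⟨e, h⟩), p.2.2)
      left_inv := fun p => by
        refine Prod.ext ?_ rfl
        funext e
        by_cases h : e = e₀
        · simp [h]
        · simp [h]
      right_inv := fun p => by
        refine Prod.ext ?_ (Prod.ext ?_ rfl)
        · simp
        · funext e
          simp [e.2] } _ _ fun p => ?_
  have h : tht s t (Sum.elim p.1 1) (Sum.elim 1 p.2) =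
      tht (ae (s (Sum.inl e₀)) (mixr s e₀)) (ae (t (Sum.inl e₀)) (mixr t e₀))
        (fun o => o.elim (p.1 e₀) (Sum.elim (fun e => p.1 e.1) 1))
        (fun o => o.elim 1 (Sum.elim 1 p.2)) := by
    rw [tht_iso (Equiv.refl V) (mixg E' e₀) (ae (s (Sum.inl e₀)) (mixr s e₀))
      (ae (t (Sum.inl e₀)) (mixr t e₀)) s t]
    · congr 1
      · funext o
        rcases o with _ | (e | e) <;> rfl
      · funext o
        rcases o with _ | (e | e) <;> rfl
    · rintro (_ | (e | e)) <;> rfl
    · rintro (_ | (e | e)) <;> rfl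
  rw [h]
  rfl

private theorem mix_second (F : FinField) [Fintype F.K] :
    mx (mixo s e₀) (mixo t e₀) F = ∑ p : ({e // e ≠ e₀} → F.K) × (E' → F.K), ∑ x : F.K,
      (open Classical in if tht (ae (s (Sum.inl e₀)) (mixr s e₀)) (ae (t (Sum.inl e₀)) (mixr t e₀))
        (fun o => o.elim 1 (Sum.elim p.1 1)) (fun o => o.elim x (Sum.elim 1 p.2)) = 0
        then (1 : ℤ) else 0) := by
  classical
  unfold mx
  rw [mix_ind, Finset.sum_comm, ← Finset.sum_product' (s := Finset.univ) (t := Finset.univ)]
  refine Fintype.sum_equiv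
    { toFun := fun p => (p.2 none, p.1, fun e => p.2 (some e))
      invFun := fun p => (p.2.1, fun o => o.elim p.1 p.2.2)
      left_inv := fun p => by
        refine Prod.ext rfl ?_
        funext o
        rcases o with _ | e <;> rfl
      right_inv := fun p => rfl } _ _ fun p => ?_
  have h : tht (mixo s e₀) (mixo t e₀) (Sum.elim p.1 1) (Sum.elim 1 p.2) =
      tht (ae (s (Sum.inl e₀)) (mixr s e₀)) (ae (t (Sum.inl e₀)) (mixr t e₀))
        (fun o => o.elim 1 (Sum.elim p.1 1))
        (fun o => o.elim (p.2 none) (Sum.elim 1 fun e => p.2 (some e))) := by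
    rw [tht_iso (Equiv.refl V) (mixg' E' e₀) (ae (s (Sum.inl e₀)) (mixr s e₀))
      (ae (t (Sum.inl e₀)) (mixr t e₀)) (mixo s e₀) (mixo t e₀)]
    · congr 1
      · funext o
        rcases o with _ | (e | e) <;> rfl
      · funext o
        rcases o with _ | (e | e) <;> rfl
    · rintro (_ | (e | e)) <;> rfl
    · rintro (_ | (e | e)) <;> rfl
  rw [h]
  rfl

private theorem mix_loop (hab : s (Sum.inl e₀) = t (Sum.inl e₀)) (F : FinField) :
    mx s t F = (Polynomial.X : Polynomial ℤ).eval F.q * mx (mixr s e₀) (mixr t e₀) F := by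
  classical
  have : Fintype F.K := Fintype.ofFinite _
  rw [mix_first s t e₀ F]
  have h1 : ∀ (p : ({e // e ≠ e₀} → F.K) × (E' → F.K)) (y : F.K),
      tht (ae (s (Sum.inl e₀)) (mixr s e₀)) (ae (t (Sum.inl e₀)) (mixr t e₀))
        (fun o => o.elim y (Sum.elim p.1 1)) (fun o => o.elim 1 (Sum.elim 1 p.2)) =
      tht (mixr s e₀) (mixr t e₀) (Sum.elim p.1 1) (Sum.elim 1 p.2) := by
    intro p y
    rw [← hab, tht_loop]
    exact one_mul _
  simp only [h1, Finset.sum_const, nsmul_eq_mul]
  rw [← Finset.mul_sum, Polynomial.eval_X]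
  congr 1
  · unfold FinField.q
    rw [Nat.card_eq_fintype_card]
    rfl
  · unfold mx
    rw [mix_ind]

/-- the two substitutions -/
private theorem mix_pt {K : Type} [Field K] [Fintype K] [DecidableEq K] (P Q : K) :
    ∑ y : K, (if 1 * P + y * Q = 0 then (1 : ℤ) else 0) =
      ∑ x : K, (if x * P + 1 * Q = 0 then (1 : ℤ) else 0) - (if Q = 0 then 1 else 0) +
        (if P = 0 then 1 else 0) := by
  have h1 : ∑ y : K, (if 1 * P + y * Q = 0 then (1 : ℤ) else 0) = (if P = 0 then 1 else 0) +
      ∑ y ∈ Finset.univ.erase (0 : K), (if 1 * P + y * Q = 0 then (1 : ℤ) else 0) := by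
    rw [← Finset.add_sum_erase _ _ (Finset.mem_univ (0 : K))]
    congr 1
    simp
  have h2 : ∑ x : K, (if x * P + 1 * Q = 0 then (1 : ℤ) else 0) = (if Q = 0 then 1 else 0) +
      ∑ x ∈ Finset.univ.erase (0 : K), (if x * P + 1 * Q = 0 then (1 : ℤ) else 0) := by
    rw [← Finset.add_sum_erase _ _ (Finset.mem_univ (0 : K))]
    congr 1
    simp
  have h3 : ∑ y ∈ Finset.univ.erase (0 : K), (if 1 * P + y * Q = 0 then (1 : ℤ) else 0) =
      ∑ x ∈ Finset.univ.erase (0 : K), (if x * P + 1 * Q = 0 then (1 : ℤ) else 0) := by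
    refine Finset.sum_nbij' (fun y => y⁻¹) (fun x => x⁻¹) ?_ ?_ ?_ ?_ ?_
    · intro y hy
      simpa using hy
    · intro y hy
      simpa using hy
    · intro y _
      exact inv_inv y
    · intro y _
      exact inv_inv y
    · intro y hy
      have hy0 : y ≠ 0 := by simpa using hy
      have h4 : (1 * P + y * Q = 0) ↔ (y⁻¹ * P + 1 * Q = 0) := by
        constructor
        · intro h
          have : y⁻¹ * (1 * P + y * Q) = 0 := by rw [h, mul_zero]
          rw [← this]
          field_simp
        · intro h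
          have : y * (y⁻¹ * P + 1 * Q) = 0 := by rw [h, mul_zero]
          rw [← this]
          field_simp
      simp only [h4]
  rw [h1, h2, h3]
  ring

private theorem mix_step (hab : s (Sum.inl e₀) ≠ t (Sum.inl e₀)) (F : FinField) :
    mx s t F = mx (mixo s e₀) (mixo t e₀) F -
      mx (mixp (s (Sum.inl e₀)) (t (Sum.inl e₀)) hab ∘ mixr s e₀)
        (mixp (s (Sum.inl e₀)) (t (Sum.inl e₀)) hab ∘ mixr t e₀) F +
      mx (mixr s e₀) (mixr t e₀) F := by
  classical
  have : Fintype F.K := Fintype.ofFinite _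
  rw [mix_first s t e₀ F, mix_second s t e₀ F]
  unfold mx
  rw [mix_ind, mix_ind, ← Finset.sum_sub_distrib, ← Finset.sum_add_distrib]
  refine Finset.sum_congr rfl fun p _ => ?_
  have hd := fun (α β : Option ({e // e ≠ e₀} ⊕ E') → F.K) =>
    tht_dc (s (Sum.inl e₀)) (t (Sum.inl e₀)) hab (mixp (s (Sum.inl e₀)) (t (Sum.inl e₀)) hab)
      (mixp_surj _ _ hab) (mixp_ker _ _ hab) (mixr s e₀) (mixr t e₀) α β
  obtain ⟨P, hP⟩ : ∃ P : F.K, P = tht (mixr s e₀) (mixr t e₀) (Sum.elim p.1 1) (Sum.elim 1 p.2) :=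
    ⟨_, rfl⟩
  obtain ⟨Q, hQ⟩ : ∃ Q : F.K, Q =
      tht (mixp (s (Sum.inl e₀)) (t (Sum.inl e₀)) hab ∘ mixr s e₀)
        (mixp (s (Sum.inl e₀)) (t (Sum.inl e₀)) hab ∘ mixr t e₀)
        (Sum.elim p.1 1) (Sum.elim 1 p.2) := ⟨_, rfl⟩
  have hp : ∀ y : F.K, tht (ae (s (Sum.inl e₀)) (mixr s e₀)) (ae (t (Sum.inl e₀)) (mixr t e₀))
      (fun o => o.elim y (Sum.elim p.1 1)) (fun o => o.elim 1 (Sum.elim 1 p.2)) =
      1 * P + y * Q := by
    intro y
    rw [hd, hP, hQ]
    rfl
  have hx : ∀ x : F.K, tht (ae (s (Sum.inl e₀)) (mixr s e₀)) (ae (t (Sum.inl e₀)) (mixr t e₀))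
      (fun o => o.elim 1 (Sum.elim p.1 1)) (fun o => o.elim x (Sum.elim 1 p.2)) =
      x * P + 1 * Q := by
    intro x
    rw [hd, hP, hQ]
    rfl
  simp only [hp, hx]
  rw [← hP, ← hQ]
  exact mix_pt P Q

end

/-- MODULE MIX: conductances.

Proof.  Induction on `Fintype.card E` for all `V`, `E'`.  `E` empty: `mx s t = ns (s ∘ Sum.inr) (t ∘ Sum.inr)`.
Otherwise `E ≃ Option E₁`; let `e₀` be the first edge.  If it is a loop, `tht` does not depend on its variable:
`mx s t = q * mx` of the graph without it.  If not: let `P`, `Q` be the values without it and contracted (quotient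
`π : V → {v // v ≠ b}`); `∑_y [P + y Q = 0] = ∑_x [x P + Q = 0] - [Q = 0] + [P = 0]` (substitute `x = 1 / y` for
`y ≠ 0`), so `mx s t = mx (e₀ moved to E') - mx (contracted) + mx (deleted)`: graphs with `card E₁` edges of the first
kind. -/
theorem mx_mem {V E E' : Type} [Fintype V] [Fintype E] [Fintype E'] (s t : E ⊕ E' → V) :
    Sp Phi4 (mx s t) := by
  classical
  have key : ∀ (n : ℕ) (V E E' : Type) [Fintype V] [Fintype E] [Fintype E'] (s t : E ⊕ E' → V),
      Fintype.card E = n → Sp Phi4 (mx s t) := by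
    intro n
    induction n with
    | zero =>
      intro V E E' _ _ _ s t hn
      have : IsEmpty E := Fintype.card_eq_zero_iff.1 hn
      exact Sp.congr (fun F => (mix_zero s t F).symm) (phi4_all (s ∘ Sum.inr) (t ∘ Sum.inr))
    | succ n ih =>
      intro V E E' _ _ _ s t hn
      have hne : Nonempty E := Fintype.card_pos_iff.1 (by omega)
      obtain ⟨e₀⟩ := hne
      have hc : Fintype.card {e // e ≠ e₀} = n := by
        have h1 := Fintype.card_congr (Equiv.optionSubtypeNe e₀)
        rw [Fintype.card_option] at h1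
        omega
      by_cases hab : s (Sum.inl e₀) = t (Sum.inl e₀)
      · refine Sp.congr (fun F => (mix_loop s t e₀ hab F).symm)
          (Sp.mulp Polynomial.X (ih V {e // e ≠ e₀} E' (mixr s e₀) (mixr t e₀) hc))
      · refine Sp.congr (fun F => (mix_step s t e₀ hab F).symm)
          (Sp.add (Sp.sub (ih V {e // e ≠ e₀} (Option E') (mixo s e₀) (mixo t e₀) hc)
            (ih {v // v ≠ t (Sum.inl e₀)} {e // e ≠ e₀} E'
              (mixp (s (Sum.inl e₀)) (t (Sum.inl e₀)) hab ∘ mixr s e₀)
              (mixp (s (Sum.inl e₀)) (t (Sum.inl e₀)) hab ∘ mixr t e₀) hc))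
            (ih V {e // e ≠ e₀} E' (mixr s e₀) (mixr t e₀) hc))
  exact key _ V E E' s t rfl

/-- MODULE P4: Kirchhoff polynomials of all graphs. -/
theorem phi4_kir {V E : Type} [Fintype V] [Fintype E] (s t : E → V) : Sp Phi4 (nk s t) := by
  refine Sp.congr (fun F => ?_) (mx_mem (E' := Empty) (Sum.elim s Empty.elim) (Sum.elim t Empty.elim))
  unfold mx nk NK
  congr 1
  refine Nat.card_congr ?_
  have h : ∀ p : (E → F.K) × (Empty → F.K), tht (Sum.elim s Empty.elim) (Sum.elim t Empty.elim)
      (Sum.elim p.1 1) (Sum.elim 1 p.2) = kir s t p.1 := by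
    intro p
    rw [kir_eq_tht, tht_iso (Equiv.refl V) (Equiv.sumEmpty E Empty).symm s t
      (Sum.elim s Empty.elim) (Sum.elim t Empty.elim) (fun e => rfl) (fun e => rfl)]
    rfl
  refine (Equiv.subtypeEquiv (Equiv.prodUnique (E → F.K) (Empty → F.K)) fun p => ?_)
  rw [h]
  rfl

end Pool.Agent.KG
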