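import Mathlib

/-!
# Three-terminal networks over a finite field: counting

`V5 K` is the vector of a network with three terminals: `A` its Symanzik polynomial, `Pij` that with the
terminals `i`, `j` identified, `C` that with all three identified.
-/

set_option autoImplicit false

open scoped BigOperators

namespace Pool.Agent.KG

/-- The five values of a network with three terminals. -/
@[ext] structure V5 (K : Type) where
  /-- nothing identified -/
  A : K
  /-- `1` and `2` identified -/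
  P12 : K
  /-- `1` and `3` identified -/
  P13 : K
  /-- `2` and `3` identified -/
  P23 : K
  /-- all three identified -/
  C : K

namespace V5

/-- The relation of Dodgson. -/
def Rel {K : Type} [CommRing K] (v : V5 K) : Prop :=
  ∃ σ : K, v.P12 + v.P13 + v.P23 = 2 * σ ∧
    v.A * v.C = v.P12 * v.P13 + v.P12 * v.P23 + v.P13 * v.P23 - σ ^ 2

/-- A new edge between the terminals `1` and `2`. -/
def T12 {K : Type} [CommRing K] (v : V5 K) (y : K) : V5 K :=
  ⟨y * v.A + v.P12, y * v.P12, y * v.P13 + v.C, y * v.P23 + v.C, y * v.C⟩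

/-- A new edge between the terminals `1` and `3`. -/
def T13 {K : Type} [CommRing K] (v : V5 K) (y : K) : V5 K :=
  ⟨y * v.A + v.P13, y * v.P12 + v.C, y * v.P13, y * v.P23 + v.C, y * v.C⟩

/-- A new edge between the terminals `2` and `3`. -/
def T23 {K : Type} [CommRing K] (v : V5 K) (y : K) : V5 K :=
  ⟨y * v.A + v.P23, y * v.P12 + v.C, y * v.P13 + v.C, y * v.P23, y * v.C⟩

/-- A new vertex joined to the terminal `3` by an edge, which becomes the new terminal `3`. -/
def U {K : Type} [CommRing K] (v : V5 K) (t : K) : V5 K :=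
  ⟨v.A, v.P12, t * v.A + v.P13, t * v.A + v.P23, t * v.P12 + v.C⟩

/-- MODULE NREL.  Take `σ' = y σ + C` for the `T`, and `σ' = σ + t A` for `U`. -/
theorem rel_T12 {K : Type} [CommRing K] {v : V5 K} (h : v.Rel) (y : K) : (v.T12 y).Rel := by
  obtain ⟨σ, h1, h2⟩ := h
  refine ⟨y * σ + v.C, ?_, ?_⟩
  · simp only [T12]; linear_combination y * h1
  · simp only [T12]; linear_combination y ^ 2 * h2 - y * v.C * h1

theorem rel_T13 {K : Type} [CommRing K] {v : V5 K} (h : v.Rel) (y : K) : (v.T13 y).Rel := by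
  obtain ⟨σ, h1, h2⟩ := h
  refine ⟨y * σ + v.C, ?_, ?_⟩
  · simp only [T13]; linear_combination y * h1
  · simp only [T13]; linear_combination y ^ 2 * h2 - y * v.C * h1

theorem rel_T23 {K : Type} [CommRing K] {v : V5 K} (h : v.Rel) (y : K) : (v.T23 y).Rel := by
  obtain ⟨σ, h1, h2⟩ := h
  refine ⟨y * σ + v.C, ?_, ?_⟩
  · simp only [T23]; linear_combination y * h1
  · simp only [T23]; linear_combination y ^ 2 * h2 - y * v.C * h1

theorem rel_U {K : Type} [CommRing K] {v : V5 K} (h : v.Rel) (t : K) : (v.U t).Rel := by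
  obtain ⟨σ, h1, h2⟩ := h
  refine ⟨σ + t * v.A, ?_, ?_⟩
  · simp only [U]; linear_combination h1
  · simp only [U]; linear_combination h2 - t * v.A * h1

end V5

open V5

open Classical in
/-- `1` if `a = 0`, else `0`. -/
noncomputable def zr {K : Type} [Zero K] (a : K) : ℤ := if a = 0 then 1 else 0

/-- The indicator of a proposition. -/
noncomputable def ind (p : Prop) : ℤ := open Classical in if p then 1 else 0

section

variable {K : Type} [Field K] [Fintype K]

/-- The number of zeros of the network joined with a star with three free edges. -/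
noncomputable def nst (v : V5 K) : ℤ := ∑ z : K, ∑ x : K, ∑ y : K, zr (((v.U z).T13 x).T23 y).A

/-- All five values vanish. -/
noncomputable def nul (v : V5 K) : ℤ := ind (v.A = 0 ∧ v.P12 = 0 ∧ v.P13 = 0 ∧ v.P23 = 0 ∧ v.C = 0)

/-- Auxiliary sums. -/
noncomputable def e1 (v : V5 K) : ℤ := ∑ t : K, ind (t * v.A + v.P13 = 0 ∧ t * v.P12 + v.C = 0)

noncomputable def e2 (v : V5 K) : ℤ := ∑ t : K, ind (t * v.A + v.P23 = 0 ∧ t * v.P12 + v.C = 0)

/-- The numbers of zeros of the other gadgets. -/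
noncomputable def n0 (v : V5 K) : ℤ := ∑ t : K, zr (t * v.P12 + v.C)

noncomputable def n2 (v : V5 K) : ℤ := ∑ t : K, zr (v.T13 t).A

noncomputable def n3 (v : V5 K) : ℤ := ∑ t : K, zr (v.T23 t).A

noncomputable def n5 (v : V5 K) : ℤ := ∑ t : K, ∑ x : K, zr ((v.T13 t).T12 x).A

noncomputable def n6 (v : V5 K) : ℤ := ∑ t : K, ∑ x : K, zr ((v.T23 t).T12 x).A

noncomputable def n7 (v : V5 K) : ℤ := ∑ x : K, zr (v.T12 x).A

noncomputable def n9 (v : V5 K) : ℤ := ∑ x : K, nst (v.T12 x)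

noncomputable def n10 (v : V5 K) : ℤ := ∑ t : K, ∑ x : K, nst ((v.U t).T13 x)

noncomputable def n11 (v : V5 K) : ℤ := ∑ t : K, ∑ x : K, ∑ y : K, nst (((v.U t).T13 x).T23 y)



private theorem h82_zr_zero {K : Type} [Field K] : zr (0 : K) = 1 := if_pos rfl

private theorem h82_zr_ne {K : Type} [Field K] {a : K} (h : a ≠ 0) : zr a = 0 := if_neg h

private theorem h82_zr_mul {K : Type} [Field K] {a : K} (h : a ≠ 0) (b : K) : zr (a * b) = zr b := by
  by_cases hb : b = 0
  · rw [hb, mul_zero]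
  · rw [h82_zr_ne hb, h82_zr_ne (mul_ne_zero h hb)]

private theorem h82_ind_true {p : Prop} (h : p) : ind p = 1 := if_pos h

private theorem h82_ind_false {p : Prop} (h : ¬ p) : ind p = 0 := if_neg h

private theorem h82_ind_congr {p q : Prop} (h : p ↔ q) : ind p = ind q := congrArg ind (propext h)

private theorem h82_ind_not (p : Prop) : ind (¬ p) = 1 - ind p := by
  by_cases h : p
  · rw [h82_ind_true h, h82_ind_false (not_not.2 h), sub_self]
  · rw [h82_ind_true h, h82_ind_false h, sub_zero]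

private theorem h82_sum_const (c : ℤ) : (∑ _x : K, c) = (Fintype.card K : ℤ) * c := by
  rw [Finset.sum_const, Finset.card_univ, nsmul_eq_mul]

/-- one root of a linear polynomial -/
private theorem h82_sum_one {a : K} (ha : a ≠ 0) (b : K) : (∑ x : K, zr (a * x + b)) = 1 := by
  rw [Finset.sum_eq_single (-b / a)]
  · have : a * (-b / a) + b = 0 := by rw [mul_div_cancel₀ _ ha]; ring
    rw [this, h82_zr_zero]
  · intro x _ hx
    refine h82_zr_ne fun h => hx ?_
    rw [eq_div_iff ha]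
    linear_combination h
  · intro h
    exact absurd (Finset.mem_univ _) h

private theorem h82_sum_ind_one {p : K → Prop} (x0 : K) (h : ∀ x, p x ↔ x = x0) :
    (∑ x : K, ind (p x)) = 1 := by
  rw [Finset.sum_eq_single x0]
  · exact h82_ind_true ((h x0).2 rfl)
  · intro x _ hx
    exact h82_ind_false fun hp => hx ((h x).1 hp)
  · intro h
    exact absurd (Finset.mem_univ _) h

private theorem h82_sum_ind_zero {p : K → Prop} (h : ∀ x, ¬ p x) :
    (∑ x : K, ind (p x)) = 0 :=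
  Finset.sum_eq_zero fun x _ => h82_ind_false (h x)

/-- a sum whose terms outside `0` are constant -/
private theorem h82_sum_split (f : K → ℤ) (c : ℤ) (h : ∀ x, x ≠ 0 → f x = c) :
    (∑ x : K, f x) = f 0 + ((Fintype.card K : ℤ) - 1) * c := by
  classical
  rw [← Finset.add_sum_erase Finset.univ f (Finset.mem_univ (0 : K)),
    Finset.sum_congr rfl fun x hx => h x (Finset.ne_of_mem_erase hx), Finset.sum_const,
    Finset.card_erase_of_mem (Finset.mem_univ _), Finset.card_univ, nsmul_eq_mul,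
    Nat.cast_sub (Fintype.card_pos), Nat.cast_one]

private theorem h82_sum_shift (f : K → ℤ) (b : K) : (∑ x : K, f (x + b)) = ∑ x : K, f x :=
  Equiv.sum_comp (Equiv.addRight b) f

private theorem k53_indp {p : Prop} (h : p) : ind p = 1 := by
  unfold ind
  exact if_pos h

private theorem k53_indn {p : Prop} (h : ¬ p) : ind p = 0 := by
  unfold ind
  exact if_neg h

private theorem k53_indc {p q : Prop} (h : p ↔ q) : ind p = ind q := by
  rw [propext h]

private theorem k53_and (p q : Prop) : ind (p ∧ q) = ind p * ind q := by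
  by_cases hp : p
  · by_cases hq : q
    · rw [k53_indp hp, k53_indp hq, k53_indp ⟨hp, hq⟩, one_mul]
    · rw [k53_indn hq, k53_indn (fun h => hq h.2), mul_zero]
  · rw [k53_indn hp, k53_indn (fun h => hp h.1), zero_mul]

private theorem k53_not (p : Prop) : ind (¬ p) = 1 - ind p := by
  by_cases hp : p
  · rw [k53_indp hp, k53_indn (not_not.2 hp), sub_self]
  · rw [k53_indn hp, k53_indp hp, sub_zero]

omit [Fintype K] in
private theorem k53_zr (a : K) : zr a = ind (a = 0) := by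
  by_cases h : a = 0
  · rw [k53_indp h]
    unfold zr
    exact if_pos h
  · rw [k53_indn h]
    unfold zr
    exact if_neg h

private theorem k53_one {a : K} (ha : a ≠ 0) (b : K) (p : K → Prop) :
    (∑ t : K, ind (t * a + b = 0 ∧ p t)) = ind (p (-b / a)) := by
  classical
  rw [Finset.sum_eq_single (-b / a)]
  · refine k53_indc ⟨fun h => h.2, fun h => ⟨?_, h⟩⟩
    field_simp
    ring
  · intro t _ ht
    refine k53_indn ?_
    rintro ⟨h, _⟩
    apply ht
    field_simp
    linear_combination h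
  · intro h
    exact absurd (Finset.mem_univ _) h

private theorem k53_one' {a : K} (ha : a ≠ 0) (b : K) :
    (∑ t : K, ind (t * a + b = 0)) = 1 := by
  have h := k53_one ha b (fun _ => True)
  rw [k53_indp trivial] at h
  rw [← h]
  exact Finset.sum_congr rfl fun t _ => k53_indc (by simp)

private theorem k53_const (p : Prop) : (∑ _t : K, ind p) = (Fintype.card K : ℤ) * ind p := by
  simp

private theorem k53_lin (a b : K) : (∑ t : K, zr (t * a + b)) =
    1 - ind (a = 0) + (Fintype.card K : ℤ) * ind (a = 0 ∧ b = 0) := by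
  simp_rw [k53_zr]
  by_cases ha : a = 0
  · subst ha
    rw [k53_indp rfl, k53_indc (p := (0 : K) = 0 ∧ b = 0) (q := b = 0) (by simp)]
    simp only [mul_zero, zero_add]
    rw [k53_const]
    ring
  · rw [k53_one' ha, k53_indn ha, k53_indn (fun h => ha h.1)]
    ring

private theorem k53_split (p : K → Prop) (r s : Prop) (h0 : p 0 ↔ r)
    (h1 : ∀ x, x ≠ 0 → (p x ↔ s)) :
    (∑ x : K, ind (p x)) = ind r + ((Fintype.card K : ℤ) - 1) * ind s := by
  classical
  rw [← Finset.add_sum_erase _ _ (Finset.mem_univ (0 : K)), k53_indc h0]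
  congr 1
  rw [Finset.sum_congr rfl (g := fun _ => ind s)
    (fun x hx => k53_indc (h1 x (Finset.ne_of_mem_erase hx)))]
  rw [Finset.sum_const, Finset.card_erase_of_mem (Finset.mem_univ _), Finset.card_univ,
    nsmul_eq_mul]
  have : 1 ≤ Fintype.card K := Fintype.card_pos
  push_cast [Nat.cast_sub this]
  ring

omit [Fintype K] in
private theorem k53_rel0 {v : V5 K} (h : v.Rel) (hA : v.A = 0) (hP : v.P12 = 0) :
    v.P13 = v.P23 := by
  obtain ⟨σ, h1, h2⟩ := h
  rw [hA, hP] at h2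
  rw [hP] at h1
  have h3 : (v.P13 - σ) ^ 2 = 0 := by linear_combination v.P13 * h1 + h2
  have h4 : v.P13 = σ := sub_eq_zero.1 (pow_eq_zero_iff two_ne_zero |>.1 h3)
  linear_combination 2 * h4 - h1

/-- MODULE NQ.  `Q = x y + y z + z x` has `q ^ 2` zeros, also after a translation and in characteristic `2`.

Proof: for given `x`, `y` with `x + y ≠ 0` there is one `z`, for `x + y = 0` the condition is `x = 0`, and
then every `z` is good: `q ^ 2 - q + q`.  Translate the three sums (`Equiv.addRight`). -/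
theorem sum_quad (b1 b2 b3 : K) :
    (∑ z : K, ∑ x : K, ∑ y : K,
      zr ((x + b1) * (y + b2) + (y + b2) * (z + b3) + (z + b3) * (x + b1))) =
      (Fintype.card K : ℤ) ^ 2 := by
  have h1 : (∑ z : K, ∑ x : K, ∑ y : K,
      zr ((x + b1) * (y + b2) + (y + b2) * (z + b3) + (z + b3) * (x + b1))) =
      ∑ z : K, ∑ x : K, ∑ y : K, zr (x * y + y * z + z * x) := by
    rw [h82_sum_shift (fun z => ∑ x : K, ∑ y : K,
      zr ((x + b1) * (y + b2) + (y + b2) * z + z * (x + b1))) b3]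
    refine Finset.sum_congr rfl fun z _ => ?_
    rw [h82_sum_shift (fun x => ∑ y : K, zr (x * (y + b2) + (y + b2) * z + z * x)) b1]
    refine Finset.sum_congr rfl fun x _ => ?_
    exact h82_sum_shift (fun y => zr (x * y + y * z + z * x)) b2
  rw [h1, Finset.sum_comm]
  have h2 : ∀ x : K, (∑ z : K, ∑ y : K, zr (x * y + y * z + z * x)) =
      (Fintype.card K : ℤ) - 1 + ind (x = 0) * (Fintype.card K : ℤ) := by
    intro x
    rw [Finset.sum_comm, ← h82_sum_shift _ (-x)]
    rw [h82_sum_split _ 1]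
    · have h3 : (∑ z : K, zr (x * (0 + -x) + (0 + -x) * z + z * x)) =
          (Fintype.card K : ℤ) * ind (x = 0) := by
        rw [← h82_sum_const]
        refine Finset.sum_congr rfl fun z _ => ?_
        have h4 : x * (0 + -x) + (0 + -x) * z + z * x = -(x * x) := by ring
        rw [h4]
        by_cases hx : x = 0
        · rw [h82_ind_true hx, hx, mul_zero, neg_zero, h82_zr_zero]
        · rw [h82_ind_false hx, h82_zr_ne (neg_ne_zero.2 (mul_ne_zero hx hx))]
      rw [h3]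
      ring
    · intro y hy
      rw [← h82_sum_one hy (x * (y + -x))]
      refine Finset.sum_congr rfl fun z _ => ?_
      congr 1
      ring
  rw [Finset.sum_congr rfl fun x _ => h2 x, Finset.sum_add_distrib, h82_sum_const, ← Finset.sum_mul,
    h82_sum_ind_one (0 : K) fun x => Iff.rfl]
  ring

/-- MODULE NLIN.  The zeros of a linear polynomial in three variables. -/
theorem sum_lin (a b c d : K) (h : a ≠ 0 ∨ b ≠ 0 ∨ c ≠ 0) :
    (∑ z : K, ∑ x : K, ∑ y : K, zr (a * x + b * y + c * z + d)) = (Fintype.card K : ℤ) ^ 2 := by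
  rcases h with h | h | h
  · have h1 : ∀ z y : K, (∑ x : K, zr (a * x + b * y + c * z + d)) = 1 := by
      intro z y
      rw [← h82_sum_one h (b * y + c * z + d)]
      refine Finset.sum_congr rfl fun x _ => ?_
      congr 1
      ring
    have h2 : ∀ z : K, (∑ x : K, ∑ y : K, zr (a * x + b * y + c * z + d)) =
        (Fintype.card K : ℤ) := by
      intro z
      rw [Finset.sum_comm, Finset.sum_congr rfl fun y _ => h1 z y, h82_sum_const, mul_one]
    rw [Finset.sum_congr rfl fun z _ => h2 z, h82_sum_const]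
    ring
  · have h1 : ∀ z x : K, (∑ y : K, zr (a * x + b * y + c * z + d)) = 1 := by
      intro z x
      rw [← h82_sum_one h (a * x + c * z + d)]
      refine Finset.sum_congr rfl fun y _ => ?_
      congr 1
      ring
    have h2 : ∀ z : K, (∑ x : K, ∑ y : K, zr (a * x + b * y + c * z + d)) =
        (Fintype.card K : ℤ) := by
      intro z
      rw [Finset.sum_congr rfl fun x _ => h1 z x, h82_sum_const, mul_one]
    rw [Finset.sum_congr rfl fun z _ => h2 z, h82_sum_const]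
    ring
  · have h1 : ∀ x y : K, (∑ z : K, zr (a * x + b * y + c * z + d)) = 1 := by
      intro x y
      rw [← h82_sum_one h (a * x + b * y + d)]
      refine Finset.sum_congr rfl fun z _ => ?_
      congr 1
      ring
    rw [Finset.sum_comm]
    have h2 : ∀ x : K, (∑ z : K, ∑ y : K, zr (a * x + b * y + c * z + d)) =
        (Fintype.card K : ℤ) := by
      intro x
      rw [Finset.sum_comm, Finset.sum_congr rfl fun y _ => h1 x y, h82_sum_const, mul_one]
    rw [Finset.sum_congr rfl fun x _ => h2 x, h82_sum_const]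
    ring

/-- MODULE NST.

Proof.  `(((v.U z).T13 x).T23 y).A = A (x y + y z + z x) + x P23 + y P13 + z P12 + C`.  If `A ≠ 0`: with
`B1 = σ - P23`, `B2 = σ - P13`, `B3 = σ - P12` (so `P12 = B1 + B2`, ..., and `A C = B1 B2 + B1 B3 + B2 B3`) it is
`A Q (x + B1 / A, y + B2 / A, z + B3 / A)`, `Q (x, y, z) = x y + y z + z x`: `sum_quad`.  If `A = 0` and some `Pij` is
not `0`: `sum_lin`.  Otherwise it is the constant `C`. -/
theorem nst_eq (v : V5 K) (h : v.Rel) :
    nst v = (Fintype.card K : ℤ) ^ 2 -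
      (Fintype.card K : ℤ) ^ 2 * ind (v.A = 0 ∧ v.P12 = 0 ∧ v.P13 = 0 ∧ v.P23 = 0 ∧ v.C ≠ 0) +
      ((Fintype.card K : ℤ) ^ 3 - (Fintype.card K : ℤ) ^ 2) * nul v := by
  obtain ⟨σ, h1, h2⟩ := h
  have h3 : nst v = ∑ z : K, ∑ x : K, ∑ y : K, zr (v.A * (x * y + y * z + z * x) +
      x * v.P23 + y * v.P13 + z * v.P12 + v.C) := by
    rw [nst]
    refine Finset.sum_congr rfl fun z _ => Finset.sum_congr rfl fun x _ =>
      Finset.sum_congr rfl fun y _ => ?_
    simp only [V5.T23, V5.T13, V5.U]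
    congr 1
    ring
  rw [h3]
  by_cases hA : v.A = 0
  · have h4 : (∑ z : K, ∑ x : K, ∑ y : K, zr (v.A * (x * y + y * z + z * x) +
        x * v.P23 + y * v.P13 + z * v.P12 + v.C)) =
        ∑ z : K, ∑ x : K, ∑ y : K, zr (v.P23 * x + v.P13 * y + v.P12 * z + v.C) := by
      refine Finset.sum_congr rfl fun z _ => Finset.sum_congr rfl fun x _ =>
        Finset.sum_congr rfl fun y _ => ?_
      rw [hA]
      congr 1
      ring
    rw [h4]
    by_cases hP : v.P23 ≠ 0 ∨ v.P13 ≠ 0 ∨ v.P12 ≠ 0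
    · rw [sum_lin _ _ _ _ hP, h82_ind_false (by rintro ⟨_, h5, h6, h7, _⟩; rcases hP with h | h | h
                                                · exact h h7
                                                · exact h h6
                                                · exact h h5), nul, h82_ind_false (by
        rintro ⟨_, h5, h6, h7, _⟩
        rcases hP with h | h | h
        · exact h h7
        · exact h h6
        · exact h h5)]
      ring
    · push Not at hP
      obtain ⟨h5, h6, h7⟩ := hP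
      have h8 : ∀ z x y : K, zr (v.P23 * x + v.P13 * y + v.P12 * z + v.C) = zr v.C := by
        intro z x y
        rw [h5, h6, h7]
        congr 1
        ring
      simp only [h8]
      by_cases hC : v.C = 0
      · rw [hC, h82_zr_zero, h82_ind_false (by rintro ⟨_, _, _, _, h9⟩; exact h9 rfl), nul,
          h82_ind_true ⟨hA, h7, h6, h5, hC⟩]
        simp only [h82_sum_const]
        ring
      · rw [h82_zr_ne hC, h82_ind_true ⟨hA, h7, h6, h5, hC⟩, nul,
          h82_ind_false (by rintro ⟨_, _, _, _, h9⟩; exact hC h9)]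
        simp only [h82_sum_const]
        ring
  · have h4 : (∑ z : K, ∑ x : K, ∑ y : K, zr (v.A * (x * y + y * z + z * x) +
        x * v.P23 + y * v.P13 + z * v.P12 + v.C)) =
        ∑ z : K, ∑ x : K, ∑ y : K, zr ((x + (σ - v.P23) / v.A) * (y + (σ - v.P13) / v.A) +
          (y + (σ - v.P13) / v.A) * (z + (σ - v.P12) / v.A) +
          (z + (σ - v.P12) / v.A) * (x + (σ - v.P23) / v.A)) := by
      refine Finset.sum_congr rfl fun z _ => Finset.sum_congr rfl fun x _ =>
        Finset.sum_congr rfl fun y _ => ?_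
      conv_rhs => rw [← h82_zr_mul hA]
      congr 1
      field_simp
      linear_combination (v.A * x + v.A * y + v.A * z + 2 * σ) * h1 + h2
    rw [h4, sum_quad, h82_ind_false (fun h => hA h.1), nul, h82_ind_false (fun h => hA h.1)]
    ring

private theorem h82_gen (A P Q R C : K) (hR : A = 0 → P = 0 → Q = R) :
    (∑ x : K, ((Fintype.card K : ℤ) ^ 2 -
      (Fintype.card K : ℤ) ^ 2 * ind (x * A + P = 0 ∧ x * P = 0 ∧ x * Q + C = 0 ∧ x * R + C = 0 ∧
        x * C ≠ 0) + ((Fintype.card K : ℤ) ^ 3 - (Fintype.card K : ℤ) ^ 2) *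
        ind (x * A + P = 0 ∧ x * P = 0 ∧ x * Q + C = 0 ∧ x * R + C = 0 ∧ x * C = 0))) =
    (Fintype.card K : ℤ) ^ 3 -
      (Fintype.card K : ℤ) ^ 2 * ind (A = 0 ∧ P = 0 ∧ Q ≠ 0 ∧ C ≠ 0) +
      ((Fintype.card K : ℤ) ^ 3 - (Fintype.card K : ℤ) ^ 2) *
        (ind (P = 0 ∧ C = 0) + ((Fintype.card K : ℤ) - 1) *
          ind (A = 0 ∧ P = 0 ∧ Q = 0 ∧ R = 0 ∧ C = 0)) := by
  rw [Finset.sum_add_distrib, Finset.sum_sub_distrib, ← Finset.mul_sum, ← Finset.mul_sum,
    h82_sum_const]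
  have h1 : (∑ x : K, ind (x * A + P = 0 ∧ x * P = 0 ∧ x * Q + C = 0 ∧ x * R + C = 0 ∧
        x * C ≠ 0)) = ind (A = 0 ∧ P = 0 ∧ Q ≠ 0 ∧ C ≠ 0) := by
    by_cases hp : A = 0 ∧ P = 0 ∧ Q ≠ 0 ∧ C ≠ 0
    · obtain ⟨hA, hP, hQ, hC⟩ := hp
      rw [h82_ind_true ⟨hA, hP, hQ, hC⟩]
      refine h82_sum_ind_one (-C / Q) fun x => ⟨fun h => ?_, fun h => ?_⟩
      · rw [eq_div_iff hQ]
        linear_combination h.2.2.1
      · have h2 : x * Q + C = 0 := by
          rw [h, div_mul_cancel₀ _ hQ]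
          ring
        refine ⟨by rw [hA, hP]; ring, by rw [hP]; ring, h2, by rw [← hR hA hP]; exact h2, ?_⟩
        refine mul_ne_zero (fun hx => hC ?_) hC
        rw [hx] at h2
        linear_combination h2
    · rw [h82_ind_false hp]
      refine h82_sum_ind_zero fun x h => hp ?_
      obtain ⟨h1, h2, h3, _, h5⟩ := h
      have hx : x ≠ 0 := left_ne_zero_of_mul h5
      have hC : C ≠ 0 := right_ne_zero_of_mul h5
      have hP : P = 0 := (mul_eq_zero.1 h2).resolve_left hx
      rw [hP, add_zero] at h1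
      refine ⟨(mul_eq_zero.1 h1).resolve_left hx, hP, fun hQ => hC ?_, hC⟩
      rw [hQ] at h3
      linear_combination h3
  have h2 : (∑ x : K, ind (x * A + P = 0 ∧ x * P = 0 ∧ x * Q + C = 0 ∧ x * R + C = 0 ∧
        x * C = 0)) = ind (P = 0 ∧ C = 0) + ((Fintype.card K : ℤ) - 1) *
          ind (A = 0 ∧ P = 0 ∧ Q = 0 ∧ R = 0 ∧ C = 0) := by
    rw [h82_sum_split _ (ind (A = 0 ∧ P = 0 ∧ Q = 0 ∧ R = 0 ∧ C = 0))]
    · congr 1
      refine h82_ind_congr ⟨fun h => ?_, fun h => ?_⟩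
      · exact ⟨by linear_combination h.1, by linear_combination h.2.2.1⟩
      · rw [h.1, h.2]
        simp
    · intro x hx
      refine h82_ind_congr ⟨fun h => ?_, fun h => ?_⟩
      · obtain ⟨h1, h2, h3, h4, h5⟩ := h
        have hC : C = 0 := (mul_eq_zero.1 h5).resolve_left hx
        have hP : P = 0 := (mul_eq_zero.1 h2).resolve_left hx
        rw [hP, add_zero] at h1
        rw [hC, add_zero] at h3 h4
        exact ⟨(mul_eq_zero.1 h1).resolve_left hx, hP, (mul_eq_zero.1 h3).resolve_left hx,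
          (mul_eq_zero.1 h4).resolve_left hx, hC⟩
      · obtain ⟨h1, h2, h3, h4, h5⟩ := h
        rw [h1, h2, h3, h4, h5]
        simp
  rw [h1, h2]
  ring

private theorem h82_rel {A P Q R C σ : K} (h1 : P + Q + R = 2 * σ)
    (h2 : A * C = P * Q + P * R + Q * R - σ ^ 2) (hA : A = 0) (hP : P = 0) : Q = R := by
  rw [hP, zero_add] at h1
  rw [hA, hP] at h2
  have h3 : (Q - σ) ^ 2 = 0 := by linear_combination Q * h1 + h2
  have h4 : (R - σ) ^ 2 = 0 := by linear_combination R * h1 + h2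
  have h5 : Q - σ = 0 := pow_eq_zero_iff (two_ne_zero) |>.1 h3
  have h6 : R - σ = 0 := pow_eq_zero_iff (two_ne_zero) |>.1 h4
  linear_combination h5 - h6

/-- MODULE N9.

Proof.  `nst_eq` for `v.T12 x` (`rel_T12`), summed over `x`.  The number of `x` with
`x A + P12 = x P12 = x P13 + C = x P23 + C = 0`, `x C ≠ 0`: then `x ≠ 0`, `P12 = 0`, `A = 0`, `P13 = P23 = -C / x`; conversely
if `A = P12 = 0` the relation gives `P13 = P23` (`P13 + P23 = 2 σ`, `P13 P23 = σ ^ 2`, so `P13 (P13 + P23 - 2 σ) =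
(P13 - σ) ^ 2 = 0`), so there is exactly one such `x` if `P13 ≠ 0`, `C ≠ 0`.  The number of `x` with `v.T12 x = 0`: all
`x` if `v = 0`; else only `x = 0`, if `P12 = C = 0`. -/
theorem n9_eq (v : V5 K) (h : v.Rel) :
    n9 v = (Fintype.card K : ℤ) ^ 3 -
      (Fintype.card K : ℤ) ^ 2 * ind (v.A = 0 ∧ v.P12 = 0 ∧ v.P13 ≠ 0 ∧ v.C ≠ 0) +
      ((Fintype.card K : ℤ) ^ 3 - (Fintype.card K : ℤ) ^ 2) *
        (ind (v.P12 = 0 ∧ v.C = 0) + ((Fintype.card K : ℤ) - 1) * nul v) := by
  have hr : v.A = 0 → v.P12 = 0 → v.P13 = v.P23 := by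
    obtain ⟨σ, h1, h2⟩ := h
    exact h82_rel h1 h2
  have h1 : nul v = ind (v.A = 0 ∧ v.P12 = 0 ∧ v.P13 = 0 ∧ v.P23 = 0 ∧ v.C = 0) := rfl
  rw [h1, ← h82_gen v.A v.P12 v.P13 v.P23 v.C hr, n9]
  refine Finset.sum_congr rfl fun x _ => ?_
  rw [nst_eq _ (rel_T12 h x)]
  rfl

/-- MODULE NS13.  As `n9_eq`, with the terminals permuted. -/
theorem s13_eq (v : V5 K) (h : v.Rel) :
    (∑ x : K, nst (v.T13 x)) = (Fintype.card K : ℤ) ^ 3 -
      (Fintype.card K : ℤ) ^ 2 * ind (v.A = 0 ∧ v.P13 = 0 ∧ v.P12 ≠ 0 ∧ v.C ≠ 0) +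
      ((Fintype.card K : ℤ) ^ 3 - (Fintype.card K : ℤ) ^ 2) *
        (ind (v.P13 = 0 ∧ v.C = 0) + ((Fintype.card K : ℤ) - 1) * nul v) := by
  have hr : v.A = 0 → v.P13 = 0 → v.P12 = v.P23 := by
    obtain ⟨σ, h1, h2⟩ := h
    refine h82_rel (C := v.C) (σ := σ) ?_ ?_
    · linear_combination h1
    · linear_combination h2
  have h1 : nul v = ind (v.A = 0 ∧ v.P13 = 0 ∧ v.P12 = 0 ∧ v.P23 = 0 ∧ v.C = 0) :=
    h82_ind_congr (by tauto)
  rw [h1, ← h82_gen v.A v.P13 v.P12 v.P23 v.C hr]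
  refine Finset.sum_congr rfl fun x _ => ?_
  rw [nst_eq _ (rel_T13 h x), nul]
  simp only [V5.T13]
  congr 2
  · congr 1
    exact h82_ind_congr (by tauto)
  · exact h82_ind_congr (by tauto)

/-- MODULE NS23.  As `n9_eq`, with the terminals permuted. -/
theorem s23_eq (v : V5 K) (h : v.Rel) :
    (∑ x : K, nst (v.T23 x)) = (Fintype.card K : ℤ) ^ 3 -
      (Fintype.card K : ℤ) ^ 2 * ind (v.A = 0 ∧ v.P23 = 0 ∧ v.P12 ≠ 0 ∧ v.C ≠ 0) +
      ((Fintype.card K : ℤ) ^ 3 - (Fintype.card K : ℤ) ^ 2) *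
        (ind (v.P23 = 0 ∧ v.C = 0) + ((Fintype.card K : ℤ) - 1) * nul v) := by
  have hr : v.A = 0 → v.P23 = 0 → v.P12 = v.P13 := by
    obtain ⟨σ, h1, h2⟩ := h
    refine h82_rel (C := v.C) (σ := σ) ?_ ?_
    · linear_combination h1
    · linear_combination h2
  have h1 : nul v = ind (v.A = 0 ∧ v.P23 = 0 ∧ v.P12 = 0 ∧ v.P13 = 0 ∧ v.C = 0) :=
    h82_ind_congr (by tauto)
  rw [h1, ← h82_gen v.A v.P23 v.P12 v.P13 v.C hr]
  refine Finset.sum_congr rfl fun x _ => ?_
  rw [nst_eq _ (rel_T23 h x), nul]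
  simp only [V5.T23]
  congr 2
  · congr 1
    exact h82_ind_congr (by tauto)
  · exact h82_ind_congr (by tauto)

/-- MODULE N10.

Proof.  `s13_eq` for `v.U t` (`rel_U`), summed over `t`.  `nul (v.U t) = nul v` (all values `0`: `A = 0`, then
`P13 = P23 = 0`, ...).  `A = 0`, `(v.U t).P13 = P13 = 0`, `P12 ≠ 0` and `t P12 + C ≠ 0`: `q - 1` values of `t`.  The
third sum is `e1 v` by definition. -/
theorem n10_eq (v : V5 K) (h : v.Rel) :
    n10 v = (Fintype.card K : ℤ) ^ 4 -
      (Fintype.card K : ℤ) ^ 2 * ((Fintype.card K : ℤ) - 1) * ind (v.A = 0 ∧ v.P13 = 0 ∧ v.P12 ≠ 0) +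
      ((Fintype.card K : ℤ) ^ 3 - (Fintype.card K : ℤ) ^ 2) *
        (e1 v + (Fintype.card K : ℤ) * ((Fintype.card K : ℤ) - 1) * nul v) := by
  rw [n10, Finset.sum_congr rfl fun t _ => s13_eq _ (rel_U h t), Finset.sum_add_distrib,
    Finset.sum_sub_distrib, ← Finset.mul_sum, ← Finset.mul_sum, Finset.sum_add_distrib,
    ← Finset.mul_sum, h82_sum_const]
  simp only [V5.U]
  have h1 : (∑ t : K, ind (v.A = 0 ∧ t * v.A + v.P13 = 0 ∧ v.P12 ≠ 0 ∧ t * v.P12 + v.C ≠ 0)) =
      ((Fintype.card K : ℤ) - 1) * ind (v.A = 0 ∧ v.P13 = 0 ∧ v.P12 ≠ 0) := by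
    by_cases hp : v.A = 0 ∧ v.P13 = 0 ∧ v.P12 ≠ 0
    · rw [h82_ind_true hp, mul_one]
      have h2 : ∀ t : K, ind (v.A = 0 ∧ t * v.A + v.P13 = 0 ∧ v.P12 ≠ 0 ∧ t * v.P12 + v.C ≠ 0) =
          1 - ind (t * v.P12 + v.C = 0) := by
        intro t
        rw [← h82_ind_not]
        refine h82_ind_congr ⟨fun h => h.2.2.2, fun h => ⟨hp.1, ?_, hp.2.2, h⟩⟩
        rw [hp.1, hp.2.1]
        ring
      rw [Finset.sum_congr rfl fun t _ => h2 t, Finset.sum_sub_distrib, h82_sum_const,
        h82_sum_ind_one (-v.C / v.P12), mul_one]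
      intro t
      rw [eq_div_iff hp.2.2]
      constructor
      · intro h; linear_combination h
      · intro h; linear_combination h
    · rw [h82_ind_false hp, mul_zero]
      refine h82_sum_ind_zero fun t h => hp ⟨h.1, ?_, h.2.2.1⟩
      have h2 := h.2.1
      rw [h.1] at h2
      linear_combination h2
  have h2 : ∀ t : K, nul (⟨v.A, v.P12, t * v.A + v.P13, t * v.A + v.P23, t * v.P12 + v.C⟩ : V5 K) =
      nul v := by
    intro t
    refine h82_ind_congr ⟨fun h => ?_, fun h => ?_⟩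
    · obtain ⟨a1, a2, a3, a4, a5⟩ := h
      simp only at a1 a2 a3 a4 a5
      rw [a1] at a3 a4
      rw [a2] at a5
      exact ⟨a1, a2, by linear_combination a3, by linear_combination a4, by linear_combination a5⟩
    · obtain ⟨a1, a2, a3, a4, a5⟩ := h
      simp only
      rw [a1, a2, a3, a4, a5]
      simp
  rw [h1, Finset.sum_congr rfl fun t _ => h2 t, h82_sum_const, e1]
  ring

/-- MODULE NG1.  The number of `x` such that `w = u.T13 x` has `w.A = w.P23 = 0`, `w.P12 ≠ 0`, `w.C ≠ 0`.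

Proof.  `x A + P13 = 0`, `x P23 + C = 0`, `x P12 + C ≠ 0`, `x C ≠ 0`.  If `A = 0` then `P13 = 0` and the relation gives
`P12 = P23` (see `n9_eq`): impossible.  If `A ≠ 0`: `x = -P13 / A`, and `x P23 + C = 0` iff `A C = P13 P23` iff
`σ = P12` (as `P13 P23 - A C = (σ - P12) ^ 2`).  Then `2 σ = P12 + P13 + P23` gives `P12 = P13 + P23`, and
`A (x P12 + C) = -P13 P12 + P13 P23 = -P13 ^ 2`, `A x C = -P13 C`, `A C = P13 P23`: both are nonzero iff
`P13 ≠ 0` and `P23 ≠ 0`. -/
theorem g1_eq (u : V5 K) (h : u.Rel) :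
    (∑ x : K, ind ((u.T13 x).A = 0 ∧ (u.T13 x).P23 = 0 ∧ (u.T13 x).P12 ≠ 0 ∧ (u.T13 x).C ≠ 0)) =
      ind (u.A ≠ 0 ∧ u.A * u.C = u.P13 * u.P23 ∧ u.P13 ≠ 0 ∧ u.P23 ≠ 0) := by
  obtain ⟨σ, h1, h2⟩ := h
  have e3 : u.P13 * u.P23 - u.A * u.C = (σ - u.P12) ^ 2 := by
    linear_combination (-1) * h2 - u.P12 * h1
  by_cases hA : u.A = 0
  · rw [k53_indn (p := u.A ≠ 0 ∧ _) (fun h => h.1 hA)]
    refine Finset.sum_eq_zero fun x _ => k53_indn ?_
    rintro ⟨a1, a2, a3, -⟩
    simp only [T13] at a1 a2 a3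
    rw [hA, mul_zero, zero_add] at a1
    rw [hA, a1] at e3
    have e4 : (σ - u.P12) ^ 2 = 0 := by rw [← e3]; ring
    have e5 : σ - u.P12 = 0 := pow_eq_zero_iff two_ne_zero |>.1 e4
    have e6 : u.P23 = u.P12 := by linear_combination h1 - a1 + 2 * e5
    rw [e6] at a2
    exact a3 a2
  · simp only [T13]
    rw [k53_one hA u.P13 (fun x => x * u.P23 + u.C = 0 ∧ x * u.P12 + u.C ≠ 0 ∧ x * u.C ≠ 0)]
    have f1 : u.A * (-u.P13 / u.A * u.P23 + u.C) = u.A * u.C - u.P13 * u.P23 := by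
      field_simp
      ring
    have f2 : u.A * (-u.P13 / u.A * u.P12 + u.C) = u.A * u.C - u.P13 * u.P12 := by
      field_simp
      ring
    have f3 : u.A * (-u.P13 / u.A * u.C) = -(u.P13 * u.C) := by
      field_simp
    refine k53_indc ⟨?_, ?_⟩
    · rintro ⟨b1, b2, b3⟩
      have c1 : u.A * u.C = u.P13 * u.P23 := by
        rw [b1, mul_zero] at f1
        exact (sub_eq_zero.1 f1.symm)
      have c2 : u.P13 ≠ 0 := by
        intro h0
        apply b3
        rw [h0]
        simp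
      refine ⟨hA, c1, c2, ?_⟩
      intro h0
      have c3 : u.C = 0 := by
        rw [h0, mul_zero] at c1
        exact (mul_eq_zero.1 c1).resolve_left hA
      apply b3
      rw [c3, mul_zero]
    · rintro ⟨-, c1, c2, c3⟩
      have d1 : (σ - u.P12) ^ 2 = 0 := by
        rw [← e3, c1, sub_self]
      have d2 : σ - u.P12 = 0 := pow_eq_zero_iff two_ne_zero |>.1 d1
      have d3 : u.P12 = u.P13 + u.P23 := by linear_combination (-1) * h1 - 2 * d2
      have hC : u.C ≠ 0 := by
        intro h0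
        rw [h0, mul_zero] at c1
        exact (mul_ne_zero c2 c3) c1.symm
      refine ⟨?_, ?_, ?_⟩
      · have : u.A * (-u.P13 / u.A * u.P23 + u.C) = 0 := by rw [f1, c1, sub_self]
        exact (mul_eq_zero.1 this).resolve_left hA
      · intro h0
        rw [h0, mul_zero] at f2
        have g1 : u.P13 ^ 2 = 0 := by
          linear_combination f2 + c1 - u.P13 * d3
        exact c2 (pow_eq_zero_iff two_ne_zero |>.1 g1)
      · intro h0
        rw [h0, mul_zero] at f3
        exact (mul_ne_zero c2 hC) (neg_eq_zero.1 f3.symm)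

/-- MODULE NG2.  Summation of `g1_eq` over `u = v.U t`.

Proof.  Let `A ≠ 0`.  With `B1 = σ - P23`, `B2 = σ - P13`, `B3 = σ - P12`: `(v.U t).P13 = B1 + B3 + t A`,
`(v.U t).P23 = B2 + B3 + t A`, and `P13' P23' - A C' = (B3 + t A) ^ 2`, so the condition is `t = -B3 / A`, `B1 ≠ 0`,
`B2 ≠ 0`.  And `B1 ^ 2 = P12 P13 - A C`, `B2 ^ 2 = P12 P23 - A C`. -/
theorem g2_eq (v : V5 K) (h : v.Rel) :
    (∑ t : K, ind ((v.U t).A ≠ 0 ∧ (v.U t).A * (v.U t).C = (v.U t).P13 * (v.U t).P23 ∧
      (v.U t).P13 ≠ 0 ∧ (v.U t).P23 ≠ 0)) =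
      ind (v.A ≠ 0 ∧ v.P12 * v.P13 ≠ v.A * v.C ∧ v.P12 * v.P23 ≠ v.A * v.C) := by
  obtain ⟨σ, h1, h2⟩ := h
  have e1 : v.P12 * v.P13 - v.A * v.C = (σ - v.P23) ^ 2 := by
    linear_combination (-1) * h2 - v.P23 * h1
  have e2 : v.P12 * v.P23 - v.A * v.C = (σ - v.P13) ^ 2 := by
    linear_combination (-1) * h2 - v.P13 * h1
  by_cases hA : v.A = 0
  · rw [k53_indn (p := v.A ≠ 0 ∧ _) (fun h => h.1 hA)]
    exact Finset.sum_eq_zero fun t _ => k53_indn (fun h => h.1 hA)
  · have key : ∀ t : K, ((v.U t).A ≠ 0 ∧ (v.U t).A * (v.U t).C = (v.U t).P13 * (v.U t).P23 ∧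
        (v.U t).P13 ≠ 0 ∧ (v.U t).P23 ≠ 0) ↔ (t * v.A + (σ - v.P12) = 0 ∧
        (t * v.A + v.P13 ≠ 0 ∧ t * v.A + v.P23 ≠ 0)) := by
      intro t
      simp only [U]
      have f1 : (t * v.A + v.P13) * (t * v.A + v.P23) - v.A * (t * v.P12 + v.C) =
          (t * v.A + (σ - v.P12)) ^ 2 := by
        linear_combination (-1) * h2 + (t * v.A - v.P12) * h1
      constructor
      · rintro ⟨-, a1, a2, a3⟩
        refine ⟨?_, a2, a3⟩
        rw [a1, sub_self] at f1
        exact pow_eq_zero_iff two_ne_zero |>.1 f1.symm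
      · rintro ⟨a1, a2, a3⟩
        refine ⟨hA, ?_, a2, a3⟩
        rw [a1] at f1
        linear_combination -f1
    rw [Finset.sum_congr rfl fun t _ => k53_indc (key t),
      k53_one hA (σ - v.P12) (fun t => t * v.A + v.P13 ≠ 0 ∧ t * v.A + v.P23 ≠ 0)]
    have g1 : -(σ - v.P12) / v.A * v.A + v.P13 = σ - v.P23 := by
      rw [div_mul_cancel₀ _ hA]
      linear_combination h1
    have g2 : -(σ - v.P12) / v.A * v.A + v.P23 = σ - v.P13 := by
      rw [div_mul_cancel₀ _ hA]
      linear_combination h1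
    rw [g1, g2]
    refine k53_indc ⟨?_, ?_⟩
    · rintro ⟨a1, a2⟩
      refine ⟨hA, ?_, ?_⟩
      · intro h0
        rw [h0, sub_self] at e1
        exact a1 (pow_eq_zero_iff two_ne_zero |>.1 e1.symm)
      · intro h0
        rw [h0, sub_self] at e2
        exact a2 (pow_eq_zero_iff two_ne_zero |>.1 e2.symm)
    · rintro ⟨-, a1, a2⟩
      refine ⟨?_, ?_⟩
      · intro h0
        rw [h0] at e1
        apply a1
        linear_combination e1
      · intro h0
        rw [h0] at e2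
        apply a2
        linear_combination e2

/-- MODULE N11.

Proof.  For `u = v.U t` and `w = u.T13 x`, `s23_eq w` summed over `x`:
`q ^ 4 - q ^ 2 (g1 sum) + (q ^ 3 - q ^ 2) (S + (q - 1) ∑_x nul w)`, where `S = #{x : x P23 + C = 0, x C = 0}
= [C = 0] (1 + (q - 1) [P23 = 0])` for the entries of `u`, and `∑_x nul (u.T13 x) = [P13 = 0, C = 0] + (q - 1) nul u`.
Sum over `t`: `g2_eq`; `∑_t [u.C = 0] = n0 v`, `∑_t [u.C = 0, u.P23 = 0] = e2 v`,
`∑_t [u.C = 0, u.P13 = 0] = e1 v`, `∑_t nul u = q nul v`. -/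
theorem n11_eq (v : V5 K) (h : v.Rel) :
    n11 v = (Fintype.card K : ℤ) ^ 5 -
      (Fintype.card K : ℤ) ^ 2 *
        ind (v.A ≠ 0 ∧ v.P12 * v.P13 ≠ v.A * v.C ∧ v.P12 * v.P23 ≠ v.A * v.C) +
      ((Fintype.card K : ℤ) ^ 3 - (Fintype.card K : ℤ) ^ 2) *
        (n0 v + ((Fintype.card K : ℤ) - 1) * (e1 v + e2 v) +
          ((Fintype.card K : ℤ) - 1) ^ 2 * (Fintype.card K : ℤ) * nul v) := by
  classical
  have hu : ∀ t : K, (v.U t).Rel := fun t => rel_U h t
  have hN : ∀ u : V5 K, u.Rel → (∑ x : K, ∑ y : K, nst ((u.T13 x).T23 y)) =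
      (Fintype.card K : ℤ) ^ 4 - (Fintype.card K : ℤ) ^ 2 *
        ind (u.A ≠ 0 ∧ u.A * u.C = u.P13 * u.P23 ∧ u.P13 ≠ 0 ∧ u.P23 ≠ 0) +
      ((Fintype.card K : ℤ) ^ 3 - (Fintype.card K : ℤ) ^ 2) *
        (ind (u.C = 0) + ((Fintype.card K : ℤ) - 1) * ind (u.C = 0 ∧ u.P23 = 0) +
          ((Fintype.card K : ℤ) - 1) * (ind (u.P13 = 0 ∧ u.C = 0) +
            ((Fintype.card K : ℤ) - 1) * nul u)) := by
    intro u hu
    have h1 : (∑ x : K, ind ((u.T13 x).P23 = 0 ∧ (u.T13 x).C = 0)) =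
        ind (u.C = 0) + ((Fintype.card K : ℤ) - 1) * ind (u.C = 0 ∧ u.P23 = 0) := by
      refine k53_split (fun x => (u.T13 x).P23 = 0 ∧ (u.T13 x).C = 0) _ _ ?_ ?_
      · simp [T13]
      · intro x hx
        simp only [T13]
        constructor
        · rintro ⟨a1, a2⟩
          have a3 : u.C = 0 := (mul_eq_zero.1 a2).resolve_left hx
          rw [a3, add_zero] at a1
          exact ⟨a3, (mul_eq_zero.1 a1).resolve_left hx⟩
        · rintro ⟨a1, a2⟩
          rw [a1, a2]
          simp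
    have h2 : (∑ x : K, nul (u.T13 x)) =
        ind (u.P13 = 0 ∧ u.C = 0) + ((Fintype.card K : ℤ) - 1) * nul u := by
      refine k53_split (fun x => (u.T13 x).A = 0 ∧ (u.T13 x).P12 = 0 ∧ (u.T13 x).P13 = 0 ∧
        (u.T13 x).P23 = 0 ∧ (u.T13 x).C = 0) _ _ ?_ ?_
      · simp only [T13]
        simp
      · intro x hx
        simp only [T13]
        constructor
        · rintro ⟨a1, a2, a3, a4, a5⟩
          have b3 : u.P13 = 0 := (mul_eq_zero.1 a3).resolve_left hx
          have b5 : u.C = 0 := (mul_eq_zero.1 a5).resolve_left hx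
          rw [b3, add_zero] at a1
          rw [b5, add_zero] at a2 a4
          exact ⟨(mul_eq_zero.1 a1).resolve_left hx, (mul_eq_zero.1 a2).resolve_left hx, b3,
            (mul_eq_zero.1 a4).resolve_left hx, b5⟩
        · rintro ⟨a1, a2, a3, a4, a5⟩
          rw [a1, a2, a3, a4, a5]
          simp
    have h3 := g1_eq u hu
    rw [Finset.sum_congr rfl fun x _ => s23_eq (u.T13 x) (rel_T13 hu x)]
    simp only [Finset.sum_add_distrib, Finset.sum_sub_distrib, ← Finset.mul_sum]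
    rw [h3, h1, h2]
    simp only [Finset.sum_const, Finset.card_univ, nsmul_eq_mul]
    ring
  unfold n11
  rw [Finset.sum_congr rfl fun t _ => hN (v.U t) (hu t)]
  simp only [Finset.sum_add_distrib, Finset.sum_sub_distrib, ← Finset.mul_sum]
  rw [g2_eq v h]
  have h4 : (∑ t : K, ind ((v.U t).C = 0)) = n0 v := by
    unfold n0
    refine Finset.sum_congr rfl fun t _ => ?_
    rw [k53_zr]
    rfl
  have h5 : (∑ t : K, ind ((v.U t).C = 0 ∧ (v.U t).P23 = 0)) = e2 v := by
    unfold e2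
    refine Finset.sum_congr rfl fun t _ => ?_
    exact k53_indc and_comm
  have h6 : (∑ t : K, ind ((v.U t).P13 = 0 ∧ (v.U t).C = 0)) = e1 v := rfl
  have h7 : (∑ t : K, nul (v.U t)) = (Fintype.card K : ℤ) * nul v := by
    unfold nul
    rw [← k53_const (K := K)]
    refine Finset.sum_congr rfl fun t _ => ?_
    refine k53_indc ?_
    simp only [U]
    constructor
    · rintro ⟨a1, a2, a3, a4, a5⟩
      rw [a1, mul_zero, zero_add] at a3 a4
      rw [a2, mul_zero, zero_add] at a5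
      exact ⟨a1, a2, a3, a4, a5⟩
    · rintro ⟨a1, a2, a3, a4, a5⟩
      rw [a1, a2, a3, a4, a5]
      simp
  rw [h4, h5, h6, h7]
  simp only [Finset.sum_const, Finset.card_univ, nsmul_eq_mul]
  ring

/-- MODULE N5. -/
theorem n5_eq (v : V5 K) : n5 v = (Fintype.card K : ℤ) - n2 v + (Fintype.card K : ℤ) * e1 v := by
  unfold n5 n2 e1
  have h1 : ∀ t : K, (∑ x : K, zr ((v.T13 t).T12 x).A) =
      1 - zr (v.T13 t).A +
        (Fintype.card K : ℤ) * ind (t * v.A + v.P13 = 0 ∧ t * v.P12 + v.C = 0) := by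
    intro t
    rw [k53_zr]
    exact k53_lin (t * v.A + v.P13) (t * v.P12 + v.C)
  rw [Finset.sum_congr rfl fun t _ => h1 t]
  simp only [Finset.sum_add_distrib, Finset.sum_sub_distrib, ← Finset.mul_sum]
  simp

/-- MODULE N5 (2). -/
theorem n6_eq (v : V5 K) : n6 v = (Fintype.card K : ℤ) - n3 v + (Fintype.card K : ℤ) * e2 v := by
  unfold n6 n3 e2
  have h1 : ∀ t : K, (∑ x : K, zr ((v.T23 t).T12 x).A) =
      1 - zr (v.T23 t).A +
        (Fintype.card K : ℤ) * ind (t * v.A + v.P23 = 0 ∧ t * v.P12 + v.C = 0) := by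
    intro t
    rw [k53_zr]
    exact k53_lin (t * v.A + v.P23) (t * v.P12 + v.C)
  rw [Finset.sum_congr rfl fun t _ => h1 t]
  simp only [Finset.sum_add_distrib, Finset.sum_sub_distrib, ← Finset.mul_sum]
  simp

/-- MODULE NE.

Proof.  `A ≠ 0`: `t = -P13 / A`, and `A (t P12 + C) = A C - P12 P13`.  `A = 0`, `P12 ≠ 0`: `P13 = 0` is needed and
`t = -C / P12`.  `A = P12 = 0`: `P13 = 0` is needed (then `P23 = 0` by the relation) and `C = 0`. -/
theorem e1_eq (v : V5 K) (h : v.Rel) :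
    e1 v = ind (v.A ≠ 0 ∧ v.P12 * v.P13 = v.A * v.C) + ind (v.A = 0 ∧ v.P12 ≠ 0 ∧ v.P13 = 0) +
      (Fintype.card K : ℤ) * nul v := by
  unfold e1 nul
  by_cases hA : v.A = 0
  · by_cases hP : v.P12 = 0
    · have h0 := k53_rel0 h hA hP
      rw [k53_indn (p := v.A ≠ 0 ∧ _) (fun h => h.1 hA),
        k53_indn (p := v.A = 0 ∧ v.P12 ≠ 0 ∧ _) (fun h => h.2.1 hP), ← k53_const (K := K)]
      rw [zero_add, zero_add]
      refine Finset.sum_congr rfl fun t _ => k53_indc ?_
      rw [hA, hP, mul_zero, zero_add, zero_add]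
      constructor
      · rintro ⟨a1, a2⟩
        refine ⟨rfl, rfl, ?_, ?_, a2⟩
        · exact a1
        · rw [← h0]; exact a1
      · rintro ⟨-, -, a1, a2, a3⟩
        exact ⟨a1, a3⟩
    · rw [k53_indn (p := v.A ≠ 0 ∧ _) (fun h => h.1 hA),
        k53_indn (p := v.A = 0 ∧ v.P12 = 0 ∧ _) (fun h => hP h.2.1)]
      have h1 : ∀ t : K, ind (t * v.A + v.P13 = 0 ∧ t * v.P12 + v.C = 0) =
          ind (t * v.P12 + v.C = 0 ∧ v.P13 = 0) := by
        intro t
        rw [hA, mul_zero, zero_add]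
        exact k53_indc and_comm
      rw [Finset.sum_congr rfl fun t _ => h1 t, k53_one hP v.C (fun _ => v.P13 = 0)]
      rw [k53_indc (p := v.A = 0 ∧ v.P12 ≠ 0 ∧ v.P13 = 0) (q := v.P13 = 0)
        ⟨fun h => h.2.2, fun h => ⟨hA, hP, h⟩⟩]
      ring
  · rw [k53_one hA v.P13 (fun t => t * v.P12 + v.C = 0),
      k53_indn (p := v.A = 0 ∧ v.P12 ≠ 0 ∧ _) (fun h => hA h.1),
      k53_indn (p := v.A = 0 ∧ v.P12 = 0 ∧ _) (fun h => hA h.1)]
    rw [mul_zero, add_zero, add_zero]
    refine k53_indc ?_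
    have f1 : v.A * (-v.P13 / v.A * v.P12 + v.C) = v.A * v.C - v.P12 * v.P13 := by
      field_simp
      ring
    constructor
    · intro h0
      rw [h0, mul_zero] at f1
      exact ⟨hA, (sub_eq_zero.1 f1.symm).symm⟩
    · rintro ⟨-, h0⟩
      rw [h0, sub_self] at f1
      exact (mul_eq_zero.1 f1).resolve_left hA

/-- MODULE NE (2). -/
theorem e2_eq (v : V5 K) (h : v.Rel) :
    e2 v = ind (v.A ≠ 0 ∧ v.P12 * v.P23 = v.A * v.C) + ind (v.A = 0 ∧ v.P12 ≠ 0 ∧ v.P23 = 0) +
      (Fintype.card K : ℤ) * nul v := by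
  unfold e2 nul
  by_cases hA : v.A = 0
  · by_cases hP : v.P12 = 0
    · have h0 := k53_rel0 h hA hP
      rw [k53_indn (p := v.A ≠ 0 ∧ _) (fun h => h.1 hA),
        k53_indn (p := v.A = 0 ∧ v.P12 ≠ 0 ∧ _) (fun h => h.2.1 hP), ← k53_const (K := K)]
      rw [zero_add, zero_add]
      refine Finset.sum_congr rfl fun t _ => k53_indc ?_
      rw [hA, hP, mul_zero, zero_add, zero_add]
      constructor
      · rintro ⟨a1, a2⟩
        refine ⟨rfl, rfl, ?_, ?_, a2⟩
        · rw [h0]; exact a1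
        · exact a1
      · rintro ⟨-, -, a1, a2, a3⟩
        exact ⟨a2, a3⟩
    · rw [k53_indn (p := v.A ≠ 0 ∧ _) (fun h => h.1 hA),
        k53_indn (p := v.A = 0 ∧ v.P12 = 0 ∧ _) (fun h => hP h.2.1)]
      have h1 : ∀ t : K, ind (t * v.A + v.P23 = 0 ∧ t * v.P12 + v.C = 0) =
          ind (t * v.P12 + v.C = 0 ∧ v.P23 = 0) := by
        intro t
        rw [hA, mul_zero, zero_add]
        exact k53_indc and_comm
      rw [Finset.sum_congr rfl fun t _ => h1 t, k53_one hP v.C (fun _ => v.P23 = 0)]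
      rw [k53_indc (p := v.A = 0 ∧ v.P12 ≠ 0 ∧ v.P23 = 0) (q := v.P23 = 0)
        ⟨fun h => h.2.2, fun h => ⟨hA, hP, h⟩⟩]
      ring
  · rw [k53_one hA v.P23 (fun t => t * v.P12 + v.C = 0),
      k53_indn (p := v.A = 0 ∧ v.P12 ≠ 0 ∧ _) (fun h => hA h.1),
      k53_indn (p := v.A = 0 ∧ v.P12 = 0 ∧ _) (fun h => hA h.1)]
    rw [mul_zero, add_zero, add_zero]
    refine k53_indc ?_
    have f1 : v.A * (-v.P23 / v.A * v.P12 + v.C) = v.A * v.C - v.P12 * v.P23 := by
      field_simp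
      ring
    constructor
    · intro h0
      rw [h0, mul_zero] at f1
      exact ⟨hA, (sub_eq_zero.1 f1.symm).symm⟩
    · rintro ⟨-, h0⟩
      rw [h0, sub_self] at f1
      exact (mul_eq_zero.1 f1).resolve_left hA

/-- MODULE NFIN: the identity that removes vertices of degree `5`.

Proof.  Insert `nst_eq`, `n9_eq`, `n10_eq`, `n11_eq`, `n5_eq`, `n6_eq`, `e1_eq`, `e2_eq`, and
`n0 v = if P12 = 0 then (if C = 0 then q else 0) else 1`, `n2`, `n3`, `n7` similarly.  Distinguish the cases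
(with `B1 = σ - P23`, `B2 = σ - P13`, `B3 = σ - P12`, `P12 = B1 + B2`, `P13 = B1 + B3`, `P23 = B2 + B3`,
`A C = B1 B2 + B1 B3 + B2 B3`, `P12 P13 - A C = B1 ^ 2`, `P12 P23 - A C = B2 ^ 2`):
`A ≠ 0` and `B1 = B2 = 0` (then `C = 0`); `B1 = 0 ≠ B2`; `B2 = 0 ≠ B1`; `B1, B2 ≠ 0`, `B1 + B2 = 0` (then `C ≠ 0`);
`B1, B2, B1 + B2 ≠ 0`.
`A = 0` and `B1 + B2 ≠ 0`: `B1 = 0` (then `B3 = 0`: `P13 = 0`, `P23 ≠ 0`); `B2 = 0` (then `B3 = 0`: `P23 = 0`,
`P13 ≠ 0`); both nonzero (then `P13, P23 ≠ 0`: `B1 ^ 2 = P12 P13`).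
`A = 0` and `B1 + B2 = 0`: then `B1 = B2 = 0`, `P13 = P23 = B3`: the four cases `B3 = 0` or not, `C = 0` or not.
In each case all the indicators are known, and the identity is a polynomial identity in `q`.  The table of
the values (numbers of the cases as above; columns `n0, [P12 = 0], n2, n3, [A = 0], n5, n6, n7, nst, n9,
n10, n11`) for `q = 3`:
`(3,1,1,1,0,5,5,1,9,45,99,369)`, `(1,0,1,1,0,5,2,1,9,27,99,297)`, `(1,0,1,1,0,2,5,1,9,27,81,297)`,
`(0,1,1,1,0,2,2,1,9,27,81,234)`, `(1,0,1,1,0,2,2,1,9,27,81,252)`; `(1,0,3,0,1,3,3,0,9,27,81,297)`,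
`(1,0,0,3,1,3,3,0,9,27,81,297)`, `(1,0,0,0,1,3,3,0,9,27,81,261)`; `B3 ≠ 0, C = 0`:
`(3,1,0,0,1,3,3,3,9,45,81,297)`, `B3, C ≠ 0`: `(0,1,0,0,1,3,3,3,9,18,81,243)`, `B3 = 0, C ≠ 0`:
`(0,1,3,3,1,0,0,3,0,27,81,243)`, all zero: `(3,1,3,3,1,9,9,3,27,81,243,729)`. -/
theorem num_identity (v : V5 K) (h : v.Rel) :
    (Fintype.card K : ℤ) ^ 2 * ((Fintype.card K : ℤ) - 2) * n0 v =
      (Fintype.card K : ℤ) ^ 2 * ind (v.P12 = 0) -
      (Fintype.card K : ℤ) * ((Fintype.card K : ℤ) - 1) ^ 2 * (n2 v + n3 v) -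
      (Fintype.card K : ℤ) * ((Fintype.card K : ℤ) - 1) ^ 2 * ind (v.A = 0) -
      (Fintype.card K : ℤ) ^ 2 * n5 v -
      (Fintype.card K : ℤ) * ((Fintype.card K : ℤ) ^ 2 - 2 * (Fintype.card K : ℤ) + 2) * n6 v -
      (Fintype.card K : ℤ) * n7 v -
      ((Fintype.card K : ℤ) ^ 2 - 3 * (Fintype.card K : ℤ) + 1) * nst v - n9 v -
      ((Fintype.card K : ℤ) - 2) * n10 v + n11 v -
      (2 * (Fintype.card K : ℤ) ^ 3 - (Fintype.card K : ℤ)) := by
  have m0 : n0 v = 1 - ind (v.P12 = 0) + (Fintype.card K : ℤ) * ind (v.P12 = 0 ∧ v.C = 0) := by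
    unfold n0
    exact k53_lin _ _
  have m2 : n2 v = 1 - ind (v.A = 0) + (Fintype.card K : ℤ) * ind (v.A = 0 ∧ v.P13 = 0) := by
    unfold n2
    exact k53_lin _ _
  have m3 : n3 v = 1 - ind (v.A = 0) + (Fintype.card K : ℤ) * ind (v.A = 0 ∧ v.P23 = 0) := by
    unfold n3
    exact k53_lin _ _
  have m7 : n7 v = 1 - ind (v.A = 0) + (Fintype.card K : ℤ) * ind (v.A = 0 ∧ v.P12 = 0) := by
    unfold n7
    exact k53_lin _ _
  have hr := h
  obtain ⟨σ, h1, h2⟩ := hr
  have b1 : v.P12 * v.P13 - v.A * v.C = (σ - v.P23) ^ 2 := by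
    linear_combination (-1) * h2 - v.P23 * h1
  have b2 : v.P12 * v.P23 - v.A * v.C = (σ - v.P13) ^ 2 := by
    linear_combination (-1) * h2 - v.P13 * h1
  have hsq : ∀ x : K, x ^ 2 = 0 → x = 0 := fun x hx => pow_eq_zero_iff two_ne_zero |>.1 hx
  rw [nst_eq v h, n9_eq v h, n10_eq v h, n11_eq v h, n5_eq, n6_eq, e1_eq v h, e2_eq v h, m0, m2,
    m3, m7]
  unfold nul
  simp only [k53_and, k53_not, ne_eq]
  by_cases hA : v.A = 0
  · rw [k53_indp hA]
    by_cases hP : v.P12 = 0
    · rw [k53_indp hP]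
      have h0 := k53_rel0 h hA hP
      by_cases hR : v.P13 = 0
      · have hS : v.P23 = 0 := by rw [← h0]; exact hR
        rw [k53_indp hR, k53_indp hS]
        by_cases hC : v.C = 0
        · rw [k53_indp hC]; ring
        · rw [k53_indn hC]; ring
      · have hS : ¬ v.P23 = 0 := by rw [← h0]; exact hR
        rw [k53_indn hR, k53_indn hS]
        by_cases hC : v.C = 0
        · rw [k53_indp hC]; ring
        · rw [k53_indn hC]; ring
    · rw [k53_indn hP]
      by_cases hR : v.P13 = 0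
      · have hS : ¬ v.P23 = 0 := by
          intro hS
          rw [hA, hR] at b1
          rw [hA, hS] at b2
          have c1 := hsq (σ - v.P23) (by rw [← b1]; ring)
          apply hP
          linear_combination h1 + 2 * c1 - hR + hS
        rw [k53_indp hR, k53_indn hS]; ring
      · rw [k53_indn hR]
        by_cases hS : v.P23 = 0
        · rw [k53_indp hS]; ring
        · rw [k53_indn hS]; ring
  · rw [k53_indn hA]
    by_cases hP : v.P12 = 0
    · rw [k53_indp hP]
      by_cases hC : v.C = 0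
      · have hD : v.P12 * v.P13 = v.A * v.C := by rw [hP, hC]; ring
        have hE : v.P12 * v.P23 = v.A * v.C := by rw [hP, hC]; ring
        rw [k53_indp hC, k53_indp hD, k53_indp hE]; ring
      · have hAC : v.A * v.C ≠ 0 := mul_ne_zero hA hC
        have hD : ¬ v.P12 * v.P13 = v.A * v.C := by
          rw [hP, zero_mul]; exact fun h => hAC h.symm
        have hE : ¬ v.P12 * v.P23 = v.A * v.C := by
          rw [hP, zero_mul]; exact fun h => hAC h.symm
        rw [k53_indn hC, k53_indn hD, k53_indn hE]; ring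
    · rw [k53_indn hP]
      by_cases hD : v.P12 * v.P13 = v.A * v.C
      · have hE : ¬ v.P12 * v.P23 = v.A * v.C := by
          intro hE
          have c1 := hsq (σ - v.P23) (by rw [← b1, hD, sub_self])
          have c2 := hsq (σ - v.P13) (by rw [← b2, hE, sub_self])
          apply hP
          linear_combination h1 + c1 + c2
        rw [k53_indp hD, k53_indn hE]; ring
      · rw [k53_indn hD]
        by_cases hE : v.P12 * v.P23 = v.A * v.C
        · rw [k53_indp hE]; ring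
        · rw [k53_indn hE]; ring

/-- MODULE NDBL: the identity for doubled edges.

Proof: `A` and `B` are the values of a network with two terminals, not identified and identified.
Cases `A = B = 0`; `A = 0 ≠ B`: `#{x + y = 0} = q`; `A ≠ 0 = B`: `#{x y = 0} = 2 q - 1`; `A, B ≠ 0`: for
`x ≠ -B / A` one `y`, for `x = -B / A` none: `q - 1`. -/
theorem dbl_identity (A B : K) :
    (Fintype.card K : ℤ) * ind (B = 0) =
      (∑ x : K, ∑ y : K, zr (x * y * A + (x + y) * B)) -
      ((Fintype.card K : ℤ) - 1) * ind (A = 0) -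
      ((Fintype.card K : ℤ) - 2) * (∑ x : K, zr (x * A + B)) - 1 := by
  have h1 : ∀ x : K, (∑ y : K, zr (x * y * A + (x + y) * B)) =
      1 - zr (x * A + B) + (Fintype.card K : ℤ) * ind (x * A + B = 0 ∧ x * B = 0) := by
    intro x
    rw [k53_zr (x * A + B), ← k53_lin (x * A + B) (x * B)]
    refine Finset.sum_congr rfl fun y _ => ?_
    congr 1
    ring
  have h2 : (∑ x : K, ind (x * A + B = 0 ∧ x * B = 0)) =
      ind (B = 0) + ((Fintype.card K : ℤ) - 1) * ind (B = 0 ∧ A = 0) := by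
    refine k53_split (fun x => x * A + B = 0 ∧ x * B = 0) _ _ ?_ ?_
    · simp
    · intro x hx
      constructor
      · rintro ⟨a1, a2⟩
        have a3 : B = 0 := (mul_eq_zero.1 a2).resolve_left hx
        rw [a3, add_zero] at a1
        exact ⟨a3, (mul_eq_zero.1 a1).resolve_left hx⟩
      · rintro ⟨a1, a2⟩
        rw [a1, a2]
        simp
  rw [Finset.sum_congr rfl fun x _ => h1 x]
  simp only [Finset.sum_add_distrib, Finset.sum_sub_distrib, ← Finset.mul_sum]
  rw [h2, k53_lin]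
  simp only [Finset.sum_const, Finset.card_univ, nsmul_eq_mul, k53_and]
  ring

end

end Pool.Agent.KG
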