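import Pool.Agent.KG.DC
import Pool.Agent.KG.Num

/-!
# Identifying vertices; the vector of a network with three terminals
-/

set_option autoImplicit false

open scoped BigOperators

namespace Pool.Agent.KG

/-- The Symanzik polynomial of the graph whose vertices are the fibres of `ρ`. -/
noncomputable def mer {V W E K : Type} [Fintype V] [Fintype E] [CommRing K] (ρ : V → W) (s t : E → V)
    (x : E → K) : K :=
  haveI : Fintype (Set.range ρ) := Fintype.ofFinite _
  sym (Set.rangeFactorization ρ ∘ s) (Set.rangeFactorization ρ ∘ t) x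

private theorem h82_sym_ker {V W W' E K : Type} [Fintype W] [Fintype W'] [Fintype E] [CommRing K]
    (π : V → W) (π' : V → W') (hπ : Function.Surjective π) (hπ' : Function.Surjective π')
    (h : ∀ u v, π u = π v ↔ π' u = π' v) (s t : E → V) (x : E → K) :
    sym (π ∘ s) (π ∘ t) x = sym (π' ∘ s) (π' ∘ t) x := by
  classical
  choose g hg using hπ
  have hf : ∀ v, π' (g (π v)) = π' v := fun v => (h _ _).1 (hg (π v))
  have hbij : Function.Bijective fun w => π' (g w) := by
    constructor
    · intro w w' hw
      have := (h _ _).2 hw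
      rwa [hg, hg] at this
    · intro w'
      obtain ⟨v, rfl⟩ := hπ' w'
      exact ⟨π v, hf v⟩
  rw [sym_eq_tht, sym_eq_tht]
  exact (tht_iso (Equiv.ofBijective _ hbij) (Equiv.refl E) (π ∘ s) (π ∘ t) (π' ∘ s) (π' ∘ t)
    (fun e => (hf (s e)).symm) (fun e => (hf (t e)).symm) 1 x).symm

private theorem h82_rf {V W : Type} (ρ : V → W) (u v : V) :
    Set.rangeFactorization ρ u = Set.rangeFactorization ρ v ↔ ρ u = ρ v := Subtype.ext_iff

private theorem h82_rf_surj {V W : Type} (ρ : V → W) :
    Function.Surjective (Set.rangeFactorization ρ) := by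
  rintro ⟨_, v, rfl⟩
  exact ⟨v, rfl⟩

/-- comparison of `mer` with a surjection -/
private theorem h82_mer_eq {V W W' E K : Type} [Fintype V] [Fintype W'] [Fintype E] [CommRing K]
    (ρ : V → W) (π : V → W') (hπ : Function.Surjective π) (h : ∀ u v, ρ u = ρ v ↔ π u = π v)
    (s t : E → V) (x : E → K) : mer ρ s t x = sym (π ∘ s) (π ∘ t) x := by
  letI : Fintype (Set.range ρ) := Fintype.ofFinite _
  exact h82_sym_ker _ π (h82_rf_surj ρ) hπ (fun u v => (h82_rf ρ u v).trans (h u v)) s t x

/-- MODULE MERK: only the kernel of `ρ` matters (`sym_eq_tht`, `tht_iso`). -/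
theorem mer_ker {V W W' E K : Type} [Fintype V] [Fintype E] [CommRing K] (ρ : V → W) (ρ' : V → W')
    (h : ∀ u v, ρ u = ρ v ↔ ρ' u = ρ' v) (s t : E → V) (x : E → K) :
    mer ρ s t x = mer ρ' s t x := by
  classical
  haveI : Fintype (Set.range ρ') := Fintype.ofFinite _
  rw [h82_mer_eq ρ (Set.rangeFactorization ρ') (h82_rf_surj ρ')
      (fun u v => (h u v).trans (h82_rf ρ' u v).symm),
    h82_mer_eq ρ' (Set.rangeFactorization ρ') (h82_rf_surj ρ') (fun u v => (h82_rf ρ' u v).symm)]

/-- MODULE MERK (2). -/
theorem mer_surj {V W E K : Type} [Fintype V] [Fintype W] [Fintype E] [CommRing K] (ρ : V → W)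
    (h : Function.Surjective ρ) (s t : E → V) (x : E → K) :
    mer ρ s t x = sym (ρ ∘ s) (ρ ∘ t) x := by
  exact h82_mer_eq ρ ρ h (fun _ _ => Iff.rfl) s t x

/-- MODULE MERK (3). -/
theorem mer_inj {V W E K : Type} [Fintype V] [Fintype E] [CommRing K] (ρ : V → W)
    (h : Function.Injective ρ) (s t : E → V) (x : E → K) :
    mer ρ s t x = sym s t x := by
  exact h82_mer_eq ρ id Function.surjective_id (fun u v => h.eq_iff) s t x

/-- composition with a map which reaches all classes -/
private theorem h82_mer_comp {V W X E K : Type} [Fintype V] [Fintype W] [Fintype E] [CommRing K]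
    (ρ : V → W) (θ : W → X) (hρ : ∀ w, ∃ v, θ (ρ v) = θ w) (s t : E → V) (x : E → K) :
    mer θ (ρ ∘ s) (ρ ∘ t) x = mer (θ ∘ ρ) s t x := by
  classical
  haveI : Fintype (Set.range θ) := Fintype.ofFinite _
  have h1 : Function.Surjective (Set.rangeFactorization θ ∘ ρ) := by
    rintro ⟨_, w, rfl⟩
    obtain ⟨v, hv⟩ := hρ w
    exact ⟨v, Subtype.ext hv⟩
  rw [h82_mer_eq (θ ∘ ρ) (Set.rangeFactorization θ ∘ ρ) h1 (fun u v => (h82_rf θ _ _).symm),
    h82_mer_eq θ (Set.rangeFactorization θ) (h82_rf_surj θ) (fun u v => (h82_rf θ u v).symm)]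
  rfl

/-- MODULE MERC: composition. -/
theorem mer_comp {V W X E K : Type} [Fintype V] [Fintype W] [Fintype E] [CommRing K] (ρ : V → W)
    (hρ : Function.Surjective ρ) (θ : W → X) (s t : E → V) (x : E → K) :
    mer θ (ρ ∘ s) (ρ ∘ t) x = mer (θ ∘ ρ) s t x := by
  exact h82_mer_comp ρ θ (fun w => ⟨(hρ w).choose, by rw [(hρ w).choose_spec]⟩) s t x

open Classical in
/-- Move `b` to `a`. -/
noncomputable def mg {V : Type} (a b : V) : V → V := fun v => if v = b then a else v

open Classical in
/-- Move `b` and `c` to `a`. -/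
noncomputable def mg3 {V : Type} (a b c : V) : V → V := fun v => if v = b ∨ v = c then a else v

private theorem h82_mg_ker {V : Type} (a b u v : V) :
    mg a b u = mg a b v ↔ u = v ∨ (u = a ∨ u = b) ∧ (v = a ∨ v = b) := by
  unfold mg
  by_cases h1 : u = b <;> by_cases h2 : v = b
  · rw [if_pos h1, if_pos h2]
    subst h1
    subst h2
    simp
  · rw [if_pos h1, if_neg h2]
    constructor
    · intro h
      exact Or.inr ⟨Or.inr h1, Or.inl h.symm⟩
    · rintro (h | ⟨_, h | h⟩)
      · exact absurd (h.symm.trans h1) h2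
      · exact h.symm
      · exact absurd h h2
  · rw [if_neg h1, if_pos h2]
    constructor
    · intro h
      exact Or.inr ⟨Or.inl h, Or.inr h2⟩
    · rintro (h | ⟨h | h, _⟩)
      · exact absurd (h.trans h2) h1
      · exact h
      · exact absurd h h1
  · rw [if_neg h1, if_neg h2]
    constructor
    · intro h
      exact Or.inl h
    · rintro (h | ⟨h | h, h' | h'⟩)
      · exact h
      · exact h.trans h'.symm
      · exact absurd h' h2
      · exact absurd h h1
      · exact absurd h h1

private theorem h82_mg_left {V : Type} (a b u : V) : mg a b u = a ↔ u = a ∨ u = b := by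
  unfold mg
  by_cases h1 : u = b
  · rw [if_pos h1]
    exact ⟨fun _ => Or.inr h1, fun _ => rfl⟩
  · rw [if_neg h1]
    exact ⟨fun h => Or.inl h, fun h => h.resolve_right h1⟩

private theorem h82_mg_other {V : Type} {a b w : V} (ha : w ≠ a) (hb : w ≠ b) (u : V) :
    mg a b u = w ↔ u = w := by
  unfold mg
  by_cases h1 : u = b
  · rw [if_pos h1]
    exact ⟨fun h => absurd h.symm ha, fun h => absurd (h.symm.trans h1) hb⟩
  · rw [if_neg h1]

private theorem h82_mg_apply {V : Type} {a b w : V} (hb : w ≠ b) : mg a b w = w := by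
  unfold mg
  rw [if_neg hb]

private theorem h82_mg_right {V : Type} (a b : V) : mg a b b = a := by
  unfold mg
  rw [if_pos rfl]

private theorem h82_mg3_left {V : Type} (a b c u : V) :
    mg3 a b c u = a ↔ u = a ∨ u = b ∨ u = c := by
  unfold mg3
  by_cases h1 : u = b ∨ u = c
  · rw [if_pos h1]
    exact ⟨fun _ => Or.inr h1, fun _ => rfl⟩
  · rw [if_neg h1]
    exact ⟨fun h => Or.inl h, fun h => h.resolve_right h1⟩

private theorem h82_mg3_other {V : Type} {a b c w : V} (ha : w ≠ a) (hb : w ≠ b) (hc : w ≠ c)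
    (u : V) : mg3 a b c u = w ↔ u = w := by
  unfold mg3
  by_cases h1 : u = b ∨ u = c
  · rw [if_pos h1]
    refine ⟨fun h => absurd h.symm ha, fun h => ?_⟩
    rcases h1 with h1 | h1
    · exact absurd (h.symm.trans h1) hb
    · exact absurd (h.symm.trans h1) hc
  · rw [if_neg h1]

private theorem h82_mg3_ker {V : Type} (a b c u v : V) :
    mg3 a b c u = mg3 a b c v ↔
      u = v ∨ (u = a ∨ u = b ∨ u = c) ∧ (v = a ∨ v = b ∨ v = c) := by
  by_cases h1 : u = a ∨ u = b ∨ u = c <;> by_cases h2 : v = a ∨ v = b ∨ v = c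
  · rw [(h82_mg3_left a b c u).2 h1, (h82_mg3_left a b c v).2 h2]
    exact ⟨fun _ => Or.inr ⟨h1, h2⟩, fun _ => rfl⟩
  · rw [(h82_mg3_left a b c u).2 h1]
    constructor
    · intro h
      exact absurd ((h82_mg3_left a b c v).1 h.symm) h2
    · rintro (h | ⟨_, h⟩)
      · exact absurd (h ▸ h1) h2
      · exact absurd h h2
  · rw [(h82_mg3_left a b c v).2 h2]
    constructor
    · intro h
      exact absurd ((h82_mg3_left a b c u).1 h) h1
    · rintro (h | ⟨h, _⟩)
      · exact absurd (h.symm ▸ h2) h1
      · exact absurd h h1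
  · push Not at h1 h2
    rw [(h82_mg3_other h1.1 h1.2.1 h1.2.2 u).2 rfl, (h82_mg3_other h2.1 h2.2.1 h2.2.2 v).2 rfl]
    constructor
    · intro h
      exact Or.inl h
    · rintro (h | ⟨h, _⟩)
      · exact h
      · rcases h with h | h | h
        · exact absurd h h1.1
        · exact absurd h h1.2.1
        · exact absurd h h1.2.2

private theorem h82_comp_ae {V W E : Type} (ρ : V → W) (a : V) (s : E → V) :
    ρ ∘ ae a s = ae (ρ a) (ρ ∘ s) := by
  funext o
  cases o <;> rfl

/-- MODULE MERE: a new edge, after identification.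

Proof: `mer ρ` is `sym` for the surjection `Set.rangeFactorization ρ` onto the range; if `ρ a = ρ b`
use `tht_loop`, otherwise `tht_dc` (with `sym_eq_tht`), where the contraction is any surjection with the right
fibres, and `mer_ker`. -/
theorem mer_ae {V W E K : Type} [Fintype V] [Fintype E] [CommRing K] (ρ : V → W) (a b : V) (s t : E → V)
    (x : Option E → K) (h : ρ a ≠ ρ b) :
    mer ρ (ae a s) (ae b t) x = x none * mer ρ s t (x ∘ some) + mer (mg (ρ a) (ρ b) ∘ ρ) s t (x ∘ some) := by
  classical
  haveI : Fintype (Set.range ρ) := Fintype.ofFinite _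
  obtain ⟨π, hπ⟩ : ∃ π, π = Set.rangeFactorization ρ := ⟨_, rfl⟩
  have hπs : Function.Surjective π := hπ ▸ h82_rf_surj ρ
  have hπk : ∀ u v, π u = π v ↔ ρ u = ρ v := fun u v => by rw [hπ]; exact h82_rf ρ u v
  have hval : ∀ u, (π u).val = ρ u := fun u => by rw [hπ]; rfl
  haveI : Fintype (Set.range (mg (π a) (π b))) := Fintype.ofFinite _
  obtain ⟨κ, hκ⟩ : ∃ κ, κ = Set.rangeFactorization (mg (π a) (π b)) := ⟨_, rfl⟩
  have hκs : Function.Surjective κ := hκ ▸ h82_rf_surj _
  have hκk : ∀ u v, κ u = κ v ↔ mg (π a) (π b) u = mg (π a) (π b) v := fun u v => by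
    rw [hκ]; exact h82_rf _ u v
  have hab : π a ≠ π b := fun hc => h ((hπk a b).1 hc)
  have h0 : mer ρ (ae a s) (ae b t) x = sym (π ∘ ae a s) (π ∘ ae b t) x :=
    h82_mer_eq ρ π hπs (fun u v => (hπk u v).symm) _ _ x
  rw [h0, h82_comp_ae, h82_comp_ae, sym_eq_tht, tht_dc (π a) (π b) hab κ hκs (fun u v => by
    rw [hκk, h82_mg_ker]
    constructor
    · rintro (h1 | ⟨h1 | h1, h2 | h2⟩)
      · exact Or.inl h1
      · exact Or.inl (h1.trans h2.symm)
      · exact Or.inr (Or.inl ⟨h1, h2⟩)
      · exact Or.inr (Or.inr ⟨h1, h2⟩)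
      · exact Or.inl (h1.trans h2.symm)
    · rintro (h1 | ⟨h1, h2⟩ | ⟨h1, h2⟩)
      · exact Or.inl h1
      · exact Or.inr ⟨Or.inl h1, Or.inr h2⟩
      · exact Or.inr ⟨Or.inr h1, Or.inl h2⟩)]
  have h1 : tht (π ∘ s) (π ∘ t) ((1 : Option E → K) ∘ some) (x ∘ some) = mer ρ s t (x ∘ some) := by
    rw [h82_mer_eq ρ π hπs (fun u v => (hπk u v).symm), sym_eq_tht]
    rfl
  have h2 : tht (κ ∘ π ∘ s) (κ ∘ π ∘ t) ((1 : Option E → K) ∘ some) (x ∘ some) =
      mer (mg (ρ a) (ρ b) ∘ ρ) s t (x ∘ some) := by
    rw [h82_mer_eq (mg (ρ a) (ρ b) ∘ ρ) (κ ∘ π) (hκs.comp hπs) (fun u v => ?_), sym_eq_tht]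
    · rfl
    · simp only [Function.comp]
      rw [hκk, h82_mg_ker, h82_mg_ker, hπk, hπk, hπk, hπk, hπk]
  rw [h1, h2, Pi.one_apply, one_mul]

/-- MODULE MERE (2). -/
theorem mer_ae_loop {V W E K : Type} [Fintype V] [Fintype E] [CommRing K] (ρ : V → W) (a b : V)
    (s t : E → V) (x : Option E → K) (h : ρ a = ρ b) :
    mer ρ (ae a s) (ae b t) x = x none * mer ρ s t (x ∘ some) := by
  classical
  haveI : Fintype (Set.range ρ) := Fintype.ofFinite _
  obtain ⟨π, hπ⟩ : ∃ π, π = Set.rangeFactorization ρ := ⟨_, rfl⟩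
  have hπs : Function.Surjective π := hπ ▸ h82_rf_surj ρ
  have hπk : ∀ u v, π u = π v ↔ ρ u = ρ v := fun u v => by rw [hπ]; exact h82_rf ρ u v
  have hab : π b = π a := (hπk b a).2 h.symm
  rw [h82_mer_eq ρ π hπs (fun u v => (hπk u v).symm), h82_comp_ae, h82_comp_ae, hab, sym_eq_tht,
    tht_loop, h82_mer_eq ρ π hπs (fun u v => (hπk u v).symm), sym_eq_tht]
  rfl

/-- MODULE MERE (3): `mer_ae` for `ρ = id`. -/
theorem sym_ae {V E K : Type} [Fintype V] [Fintype E] [CommRing K] (a b : V) (s t : E → V)
    (x : Option E → K) (h : a ≠ b) :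
    sym (ae a s) (ae b t) x = x none * sym s t (x ∘ some) + mer (mg a b) s t (x ∘ some) := by
  have h1 := mer_ae (id : V → V) a b s t x h
  rw [mer_inj _ Function.injective_id, mer_inj _ Function.injective_id] at h1
  exact h1

/-- The vector of the network `s`, `t` with terminals `a`, `b`, `c`. -/
noncomputable def vec {V E K : Type} [Fintype V] [Fintype E] [CommRing K] (s t : E → V) (x : E → K)
    (a b c : V) : V5 K :=
  ⟨sym s t x, mer (mg a b) s t x, mer (mg a c) s t x, mer (mg b c) s t x, mer (mg3 a b c) s t x⟩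

/-- MODULE VEC12.  Proof: entry by entry with `sym_ae`, `mer_ae`, `mer_ae_loop`, and `mer_ker` for the
composed maps. -/
theorem vec_ae12 {V E K : Type} [Fintype V] [Fintype E] [CommRing K] (s t : E → V) (x : Option E → K)
    (a b c : V) (hab : a ≠ b) (hac : a ≠ c) (hbc : b ≠ c) :
    vec (ae a s) (ae b t) x a b c = (vec s t (x ∘ some) a b c).T12 (x none) := by
  have h13 : mer (mg a c) (ae a s) (ae b t) x =
      x none * mer (mg a c) s t (x ∘ some) + mer (mg3 a b c) s t (x ∘ some) := by
    have ha : mg a c a = a := h82_mg_apply hac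
    have hb : mg a c b = b := h82_mg_apply hbc
    rw [mer_ae _ _ _ _ _ _ (by rw [ha, hb]; exact hab), ha, hb]
    congr 1
    refine mer_ker _ _ (fun u v => ?_) s t _
    simp only [Function.comp]
    rw [h82_mg_ker, h82_mg_ker, h82_mg_left, h82_mg_left, h82_mg_other hab.symm hbc,
      h82_mg_other hab.symm hbc, h82_mg3_ker]
    tauto
  have h23 : mer (mg b c) (ae a s) (ae b t) x =
      x none * mer (mg b c) s t (x ∘ some) + mer (mg3 a b c) s t (x ∘ some) := by
    have ha : mg b c a = a := h82_mg_apply hac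
    have hb : mg b c b = b := h82_mg_apply hbc
    rw [mer_ae _ _ _ _ _ _ (by rw [ha, hb]; exact hab), ha, hb]
    congr 1
    refine mer_ker _ _ (fun u v => ?_) s t _
    simp only [Function.comp]
    rw [h82_mg_ker, h82_mg_ker, h82_mg_left, h82_mg_left, h82_mg_other hab hac,
      h82_mg_other hab hac, h82_mg3_ker]
    tauto
  have h12 : mer (mg a b) (ae a s) (ae b t) x = x none * mer (mg a b) s t (x ∘ some) :=
    mer_ae_loop _ _ _ _ _ _ (by rw [h82_mg_apply hab, h82_mg_right])
  have h3 : mer (mg3 a b c) (ae a s) (ae b t) x = x none * mer (mg3 a b c) s t (x ∘ some) :=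
    mer_ae_loop _ _ _ _ _ _ (by
      rw [(h82_mg3_left a b c a).2 (Or.inl rfl), (h82_mg3_left a b c b).2 (Or.inr (Or.inl rfl))])
  rw [vec, h12, h13, h23, h3, sym_ae a b s t x hab]
  rfl

/-- MODULE VEC12 (2): `mer_ker` gives the symmetries of `vec` under permutations of the terminals. -/
theorem vec_ae13 {V E K : Type} [Fintype V] [Fintype E] [CommRing K] (s t : E → V) (x : Option E → K)
    (a b c : V) (hab : a ≠ b) (hac : a ≠ c) (hbc : b ≠ c) :
    vec (ae a s) (ae c t) x a b c = (vec s t (x ∘ some) a b c).T13 (x none) := by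
  have h12 : mer (mg a b) (ae a s) (ae c t) x =
      x none * mer (mg a b) s t (x ∘ some) + mer (mg3 a b c) s t (x ∘ some) := by
    have ha : mg a b a = a := h82_mg_apply hab
    have hb : mg a b c = c := h82_mg_apply hbc.symm
    rw [mer_ae _ _ _ _ _ _ (by rw [ha, hb]; exact hac), ha, hb]
    congr 1
    refine mer_ker _ _ (fun u v => ?_) s t _
    simp only [Function.comp]
    rw [h82_mg_ker, h82_mg_ker, h82_mg_left, h82_mg_left, h82_mg_other hac.symm hbc.symm,
      h82_mg_other hac.symm hbc.symm, h82_mg3_ker]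
    tauto
  have h23 : mer (mg b c) (ae a s) (ae c t) x =
      x none * mer (mg b c) s t (x ∘ some) + mer (mg3 a b c) s t (x ∘ some) := by
    have ha : mg b c a = a := h82_mg_apply hac
    have hb : mg b c c = b := h82_mg_right b c
    rw [mer_ae _ _ _ _ _ _ (by rw [ha, hb]; exact hab), ha, hb]
    congr 1
    refine mer_ker _ _ (fun u v => ?_) s t _
    simp only [Function.comp]
    rw [h82_mg_ker, h82_mg_ker, h82_mg_left, h82_mg_left, h82_mg_other hab hac,
      h82_mg_other hab hac, h82_mg3_ker]
    tauto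
  have h13 : mer (mg a c) (ae a s) (ae c t) x = x none * mer (mg a c) s t (x ∘ some) :=
    mer_ae_loop _ _ _ _ _ _ (by rw [h82_mg_apply hac, h82_mg_right])
  have h3 : mer (mg3 a b c) (ae a s) (ae c t) x = x none * mer (mg3 a b c) s t (x ∘ some) :=
    mer_ae_loop _ _ _ _ _ _ (by
      rw [(h82_mg3_left a b c a).2 (Or.inl rfl), (h82_mg3_left a b c c).2 (Or.inr (Or.inr rfl))])
  rw [vec, h12, h13, h23, h3, sym_ae a c s t x hac]
  rfl

/-- MODULE VEC12 (3). -/
theorem vec_ae23 {V E K : Type} [Fintype V] [Fintype E] [CommRing K] (s t : E → V) (x : Option E → K)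
    (a b c : V) (hab : a ≠ b) (hac : a ≠ c) (hbc : b ≠ c) :
    vec (ae b s) (ae c t) x a b c = (vec s t (x ∘ some) a b c).T23 (x none) := by
  have h12 : mer (mg a b) (ae b s) (ae c t) x =
      x none * mer (mg a b) s t (x ∘ some) + mer (mg3 a b c) s t (x ∘ some) := by
    have ha : mg a b b = a := h82_mg_right a b
    have hb : mg a b c = c := h82_mg_apply hbc.symm
    rw [mer_ae _ _ _ _ _ _ (by rw [ha, hb]; exact hac), ha, hb]
    congr 1
    refine mer_ker _ _ (fun u v => ?_) s t _
    simp only [Function.comp]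
    rw [h82_mg_ker, h82_mg_ker, h82_mg_left, h82_mg_left, h82_mg_other hac.symm hbc.symm,
      h82_mg_other hac.symm hbc.symm, h82_mg3_ker]
    tauto
  have h13 : mer (mg a c) (ae b s) (ae c t) x =
      x none * mer (mg a c) s t (x ∘ some) + mer (mg3 a b c) s t (x ∘ some) := by
    have ha : mg a c b = b := h82_mg_apply hbc
    have hb : mg a c c = a := h82_mg_right a c
    rw [mer_ae _ _ _ _ _ _ (by rw [ha, hb]; exact hab.symm), ha, hb]
    congr 1
    refine mer_ker _ _ (fun u v => ?_) s t _
    simp only [Function.comp]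
    rw [h82_mg_ker, h82_mg_ker, h82_mg_left, h82_mg_left, h82_mg_other hab.symm hbc,
      h82_mg_other hab.symm hbc, h82_mg3_ker]
    tauto
  have h23 : mer (mg b c) (ae b s) (ae c t) x = x none * mer (mg b c) s t (x ∘ some) :=
    mer_ae_loop _ _ _ _ _ _ (by rw [h82_mg_apply hbc, h82_mg_right])
  have h3 : mer (mg3 a b c) (ae b s) (ae c t) x = x none * mer (mg3 a b c) s t (x ∘ some) :=
    mer_ae_loop _ _ _ _ _ _ (by
      rw [(h82_mg3_left a b c b).2 (Or.inr (Or.inl rfl)),
        (h82_mg3_left a b c c).2 (Or.inr (Or.inr rfl))])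
  rw [vec, h12, h13, h23, h3, sym_ae b c s t x hbc]
  rfl

/-- the new vertex is isolated -/
private theorem h82_isol {V W E K : Type} [Fintype V] [Fintype E] [CommRing K] (s t : E → V)
    (x : E → K) (θ : Option V → W) (c : V) (h : ∀ v, θ (some v) ≠ θ none) :
    mer θ (fun e => some (s e)) (fun e => some (t e)) x = 0 := by
  classical
  haveI : Fintype (Set.range θ) := Fintype.ofFinite _
  rw [h82_mer_eq θ (Set.rangeFactorization θ) (h82_rf_surj θ) (fun u v => (h82_rf θ u v).symm),
    sym_eq_tht]
  refine tht_isol _ _ (Set.rangeFactorization θ (some c)) (Set.rangeFactorization θ none)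
    (fun hc => h c ((h82_rf θ _ _).1 hc)) (fun e => ⟨fun hc => ?_, fun hc => ?_⟩) _ _
  · exact h _ ((h82_rf θ _ _).1 hc)
  · exact h _ ((h82_rf θ _ _).1 hc)

private theorem h82_some {V W E K : Type} [Fintype V] [Fintype E] [CommRing K] (s t : E → V)
    (x : E → K) (θ : Option V → W) (c : V) (h : θ (some c) = θ none) (ρ : V → W)
    (hρ : ∀ v, θ (some v) = ρ v) :
    mer θ (fun e => some (s e)) (fun e => some (t e)) x = mer ρ s t x := by
  have h1 := h82_mer_comp (some : V → Option V) θ (fun w => by
    cases w with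
    | none => exact ⟨c, h⟩
    | some v => exact ⟨v, rfl⟩) s t x
  have h2 : θ ∘ some = ρ := funext hρ
  rw [h2] at h1
  exact h1

/-- MODULE VECU: a new vertex `none` joined to `c`, which becomes the third terminal.

Proof: for each entry use `mer_ae` for the new edge (from `none` to `some c`).  Without this edge the vertex `none`
is isolated: `tht_isol` (the value is `0`) unless it has been identified with `some a` or `some b`. -/
theorem vec_new {V E K : Type} [Fintype V] [Fintype E] [CommRing K] (s t : E → V) (x : Option E → K)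
    (a b c : V) (hab : a ≠ b) (hac : a ≠ c) (hbc : b ≠ c) :
    vec (ae none (fun e => some (s e))) (ae (some c) (fun e => some (t e))) x (some a) (some b) none =
      (vec s t (x ∘ some) a b c).U (x none) := by
  classical
  have hsc : (none : Option V) ≠ some c := by simp
  have hsab : (some a : Option V) ≠ some b := by simpa using hab
  have hsac : (some a : Option V) ≠ some c := by simpa using hac
  have hsbc : (some b : Option V) ≠ some c := by simpa using hbc
  have hna : (none : Option V) ≠ some a := by simp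
  have hnb : (none : Option V) ≠ some b := by simp
  -- nothing identified
  have hA : sym (ae none (fun e => some (s e))) (ae (some c) (fun e => some (t e))) x =
      sym s t (x ∘ some) := by
    rw [sym_ae _ _ _ _ _ hsc]
    have h1 : sym (fun e => some (s e)) (fun e => some (t e)) (x ∘ some) = (0 : K) := by
      rw [← mer_inj (id : Option V → Option V) Function.injective_id]
      exact h82_isol s t _ id c (fun v => by simp)
    have h2 : mer (mg none (some c)) (fun e => some (s e)) (fun e => some (t e)) (x ∘ some) =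
        sym s t (x ∘ some) := by
      rw [h82_some s t _ _ c (by rw [h82_mg_right, h82_mg_apply hsc])
        (fun v => mg none (some c) (some v)) (fun _ => rfl)]
      refine mer_inj _ (fun u v huv => ?_) s t _
      rw [h82_mg_ker] at huv
      simp only [Option.some.injEq, reduceCtorEq, false_or] at huv
      rcases huv with h | ⟨h, h'⟩
      · exact h
      · rw [h, h']
    rw [h1, h2]
    ring
  have h12 : mer (mg (some a) (some b)) (ae none (fun e => some (s e)))
      (ae (some c) (fun e => some (t e))) x = mer (mg a b) s t (x ∘ some) := by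
    have e1 : mg (some a) (some b) none = none := h82_mg_apply hnb
    have e2 : mg (some a) (some b) (some c) = some c := h82_mg_apply hsbc.symm
    rw [mer_ae _ _ _ _ _ _ (by rw [e1, e2]; exact hsc), e1, e2]
    have h1 : mer (mg (some a) (some b)) (fun e => some (s e)) (fun e => some (t e)) (x ∘ some) =
        (0 : K) := h82_isol s t _ _ c (fun v hv => by
          rw [e1, h82_mg_other hna hnb] at hv
          simp at hv)
    have h2 : mer (mg none (some c) ∘ mg (some a) (some b)) (fun e => some (s e))
        (fun e => some (t e)) (x ∘ some) = mer (mg a b) s t (x ∘ some) := by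
      rw [h82_some s t _ _ c (by
        simp only [Function.comp]
        rw [e1, e2, h82_mg_right, h82_mg_apply hsc])
        (fun v => (mg none (some c) ∘ mg (some a) (some b)) (some v)) (fun _ => rfl)]
      refine mer_ker _ _ (fun u v => ?_) s t _
      simp only [Function.comp]
      rw [h82_mg_ker, h82_mg_ker, h82_mg_other hna hnb, h82_mg_other hna hnb,
        h82_mg_other hsac.symm hsbc.symm, h82_mg_other hsac.symm hsbc.symm, h82_mg_ker]
      simp only [Option.some.injEq, reduceCtorEq, false_or]
      constructor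
      · rintro (h | ⟨h, h'⟩)
        · exact h
        · exact Or.inl (h.trans h'.symm)
      · intro h
        exact Or.inl h
    rw [h1, h2]
    ring
  have hmain : ∀ d : V, d ≠ c → mer (mg (some d) none) (ae none (fun e => some (s e)))
      (ae (some c) (fun e => some (t e))) x = x none * sym s t (x ∘ some) +
        mer (mg d c) s t (x ∘ some) := by
    intro d hdc
    have hsdc : (some d : Option V) ≠ some c := by simpa using hdc
    have e0 : ∀ v : V, mg (some d) none (some v) = some v := fun v => h82_mg_apply (by simp)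
    have e1 : mg (some d) none (none : Option V) = some d := h82_mg_right _ _
    have e2 : mg (some d) none (some c) = some c := h82_mg_apply hsc.symm
    rw [mer_ae _ _ _ _ _ _ (by rw [e1, e2]; exact hsdc), e1, e2]
    congr 1
    · congr 1
      rw [h82_some s t _ _ d (by rw [e1, e0])
        (fun v => mg (some d) none (some v)) (fun _ => rfl)]
      refine mer_inj _ (fun u v huv => ?_) s t _
      rw [e0, e0] at huv
      exact Option.some.inj huv
    · rw [h82_some s t _ _ d (by
        simp only [Function.comp]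
        rw [e1, e0])
        (fun v => (mg (some d) (some c) ∘ mg (some d) none) (some v)) (fun _ => rfl)]
      refine mer_ker _ _ (fun u v => ?_) s t _
      simp only [Function.comp]
      rw [e0, e0, h82_mg_ker, h82_mg_ker]
      simp only [Option.some.injEq]
  have h3 : mer (mg3 (some a) (some b) none) (ae none (fun e => some (s e)))
      (ae (some c) (fun e => some (t e))) x = x none * mer (mg a b) s t (x ∘ some) +
        mer (mg3 a b c) s t (x ∘ some) := by
    have e1 : mg3 (some a) (some b) none (none : Option V) = some a :=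
      (h82_mg3_left _ _ _ _).2 (Or.inr (Or.inr rfl))
    have e2 : mg3 (some a) (some b) none (some c) = some c :=
      (h82_mg3_other hsac.symm hsbc.symm hsc.symm _).2 rfl
    have e3 : mg3 (some a) (some b) none (some a) = some a :=
      (h82_mg3_left _ _ _ _).2 (Or.inl rfl)
    rw [mer_ae _ _ _ _ _ _ (by rw [e1, e2]; exact hsac), e1, e2]
    congr 1
    · congr 1
      rw [h82_some s t _ _ a (by rw [e1, e3])
        (fun v => mg3 (some a) (some b) none (some v)) (fun _ => rfl)]
      refine mer_ker _ _ (fun u v => ?_) s t _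
      rw [h82_mg3_ker, h82_mg_ker]
      simp only [Option.some.injEq, reduceCtorEq, or_false]
    · rw [h82_some s t _ _ a (by
        simp only [Function.comp]
        rw [e1, e3])
        (fun v => (mg (some a) (some c) ∘ mg3 (some a) (some b) none) (some v)) (fun _ => rfl)]
      refine mer_ker _ _ (fun u v => ?_) s t _
      simp only [Function.comp]
      rw [h82_mg_ker, h82_mg3_ker, h82_mg3_left, h82_mg3_left,
        h82_mg3_other hsac.symm hsbc.symm hsc.symm, h82_mg3_other hsac.symm hsbc.symm hsc.symm,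
        h82_mg3_ker]
      simp only [Option.some.injEq, reduceCtorEq, or_false]
      tauto
  rw [vec, hA, h12, hmain a hac, hmain b hbc, h3]
  rfl

end Pool.Agent.KG
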