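import Pool.Agent.KG.Mer
import Pool.Agent.KG.Det
import Pool.Agent.KG.Jac

/-!
# The relation of Dodgson for Symanzik polynomials
-/

set_option autoImplicit false

open scoped BigOperators

namespace Pool.Agent.KG

/-- The matrix of the Symanzik polynomial. -/
noncomputable abbrev SM {n E K : Type} [DecidableEq E] [CommRing K] (s t : E → Option n) (x : E → K) :
    Matrix (E ⊕ n) (E ⊕ n) K := MM (inc s t) 1 x

/-- MODULE RELA: the adjugate is symmetric on the vertices.

Proof: `Mᵀ = D M D` with `D = diag (1, -1)`; `Matrix.adjugate_transpose`, `Matrix.adjugate_mul_distrib`, and the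
adjugate of `D` is `± D`. -/
theorem SM_adj_symm {n E K : Type} [Fintype E] [DecidableEq E] [Fintype n] [DecidableEq n] [CommRing K]
    (s t : E → Option n) (x : E → K) (a b : n) :
    (SM s t x).adjugate (Sum.inr a) (Sum.inr b) = (SM s t x).adjugate (Sum.inr b) (Sum.inr a) := by
  obtain ⟨M, hM⟩ : ∃ M, M = SM s t x := ⟨_, rfl⟩
  rw [← hM]
  let d : E ⊕ n → K := Sum.elim (fun _ => 1) (fun _ => -1)
  let D : Matrix (E ⊕ n) (E ⊕ n) K := Matrix.diagonal d
  have hdd : ∀ i, d i * d i = 1 := by
    rintro (i | i) <;> simp [d]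
  have hDD : D * D = 1 := by
    rw [Matrix.diagonal_mul_diagonal, ← Matrix.diagonal_one]
    congr 1
    funext i
    exact hdd i
  have hT : M.transpose = D * M * D := by
    ext i j
    rw [Matrix.mul_diagonal, Matrix.diagonal_mul, Matrix.transpose_apply, hM]
    rcases i with i | i <;> rcases j with j | j
    · simp only [d, Sum.elim_inl, one_mul, mul_one, SM, MM, Matrix.fromBlocks_apply₁₁]
      by_cases hij : i = j
      · rw [hij]
      · rw [Matrix.diagonal_apply_ne _ hij, Matrix.diagonal_apply_ne _ (Ne.symm hij)]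
    · simp [d, SM, MM]
    · simp [d, SM, MM]
    · simp [d, SM, MM]
  have hdet : D.det * D.det = 1 := by rw [← Matrix.det_mul, hDD, Matrix.det_one]
  have hadj : D.adjugate = D.det • D := by
    have h1 := Matrix.mul_adjugate D
    have h2 : D * (D * D.adjugate) = D.adjugate := by rw [← mul_assoc, hDD, one_mul]
    rw [← h2, h1, Matrix.mul_smul, mul_one]
  have h3 : M.adjugate.transpose = D * M.adjugate * D := by
    rw [Matrix.adjugate_transpose, hT, Matrix.adjugate_mul_distrib, Matrix.adjugate_mul_distrib, hadj]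
    simp only [Matrix.mul_smul, Matrix.smul_mul, smul_smul, hdet, one_smul, mul_assoc]
  have h4 := congrFun (congrFun h3 (Sum.inr b)) (Sum.inr a)
  rw [Matrix.mul_diagonal, Matrix.diagonal_mul, Matrix.transpose_apply] at h4
  rw [h4]
  simp [d]

/-- MODULE RELB: an edge with resistance `0`, as a quadratic form in the adjugate.

Proof: `sym_ae` with `x none = 0` gives `sym (ae a s) (ae b t) (0, x) = mer (mg a b) s t x`; by `sym_eq_tht` and
`mtt` it is the determinant of `MM (inc (ae a s) (ae b t)) 1 (0, x)`, which after reindexing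
`Option E ⊕ n ≃ Unit ⊕ (E ⊕ n)` is a bordered matrix, with `u = v = (0 | δ_a - δ_b)`, `δ_none = 0`:
`det_bordered`. -/
theorem mer_eq_adj {n E K : Type} [Fintype E] [DecidableEq E] [Fintype n] [DecidableEq n] [CommRing K]
    (s t : E → Option n) (x : E → K) (a b : Option n) (hab : a ≠ b) :
    mer (mg a b) s t x =
      ∑ i : n, ∑ j : n, ((if a = some i then 1 else 0) - (if b = some i then 1 else 0)) *
        (SM s t x).adjugate (Sum.inr i) (Sum.inr j) *
        ((if a = some j then 1 else 0) - (if b = some j then 1 else 0)) := by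
  classical
  let x' : Option E → K := fun o => o.elim 0 x
  have h1 : mer (mg a b) s t x = sym (ae a s) (ae b t) x' := by
    rw [sym_ae a b s t x' hab]
    have : x' none = 0 := rfl
    rw [this, zero_mul, zero_add]
    rfl
  have h2 : sym (ae a s) (ae b t) x' = (MM (inc (ae a s) (ae b t)) 1 x').det := by
    rw [mtt, sym_eq_tht]
  let f : Unit ⊕ (E ⊕ n) → Option E ⊕ n :=
    Sum.elim (fun _ => Sum.inl none) (Sum.elim (fun e => Sum.inl (some e)) Sum.inr)
  have hf : Function.Bijective f := by
    constructor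
    · rintro (⟨⟩ | i | i) (⟨⟩ | j | j) h <;> simp [f] at h ⊢ <;> exact h
    · rintro ((_ | i) | i)
      · exact ⟨Sum.inl (), rfl⟩
      · exact ⟨Sum.inr (Sum.inl i), rfl⟩
      · exact ⟨Sum.inr (Sum.inr i), rfl⟩
  let w : n → K := fun i => (if a = some i then 1 else 0) - (if b = some i then 1 else 0)
  have hw : ∀ i, inc (ae a s) (ae b t) none i = w i := by
    intro i
    simp only [inc, ae, w, Option.elim]
    congr 1 <;> congr
  have hws : ∀ (e : E) (i : n), (inc (ae a s) (ae b t) (some e) i : K) = inc s t e i :=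
    fun _ _ => rfl
  have h3 : (MM (inc (ae a s) (ae b t)) 1 x').submatrix (Equiv.ofBijective f hf)
      (Equiv.ofBijective f hf) = Matrix.fromBlocks (fun _ _ => (0 : K) : Matrix Unit Unit K)
        (fun _ j => (Sum.elim (fun _ => 0) w : E ⊕ n → K) j)
        (fun i _ => -(Sum.elim (fun _ => 0) w : E ⊕ n → K) i) (SM s t x) := by
    ext i j
    rw [Matrix.submatrix_apply, Equiv.ofBijective_apply, Equiv.ofBijective_apply]
    rcases i with i | i | i <;> rcases j with j | j | j
    · simp [f, MM, x']
    · simp [f, MM]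
    · simp [f, MM, hw]
    · simp [f, MM]
    · simp only [f, MM, SM, Sum.elim_inr, Sum.elim_inl, Matrix.fromBlocks_apply₁₁,
        Matrix.fromBlocks_apply₂₂]
      by_cases hij : i = j
      · rw [hij, Matrix.diagonal_apply_eq, Matrix.diagonal_apply_eq]
        rfl
      · rw [Matrix.diagonal_apply_ne _ hij, Matrix.diagonal_apply_ne _ (fun h => hij
          (Option.some.inj h))]
    · simp [f, MM, SM, hws]
    · simp [f, MM, hw]
    · simp [f, MM, SM, hws]
    · simp [f, MM, SM]
  rw [h1, h2, ← Matrix.det_submatrix_equiv_self (Equiv.ofBijective f hf), h3, det_bordered, zero_mul,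
    zero_add, Fintype.sum_sum_type]
  simp only [Fintype.sum_sum_type, Sum.elim_inl, Sum.elim_inr, zero_mul, mul_zero,
    Finset.sum_const_zero, zero_add]
  rfl

/-- MODULE RELC: two vertices identified with the ground.

Proof.  `mer (mg3 none (some a) (some b))` is the Symanzik polynomial of the graph `π ∘ s`, `π ∘ t` on
`Option {i // i ≠ a ∧ i ≠ b}`, where `π` sends `some a`, `some b` and `none` to `none` (`mer_surj`, `mer_ker`); by
`sym_eq_tht` and `mtt` it is the determinant of its matrix, which is the principal submatrix of `SM s t x` on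
`E ⊕ {i // i ≠ a ∧ i ≠ b}`; and the matrix with the two rows replaced by unit vectors is block triangular
(`Matrix.twoBlockTriangular_det`), with an identity block. -/
theorem mer3_eq_det {n E K : Type} [Fintype E] [DecidableEq E] [Fintype n] [DecidableEq n] [CommRing K]
    (s t : E → Option n) (x : E → K) (a b : n) (hab : a ≠ b) :
    mer (mg3 none (some a) (some b)) s t x =
      (((SM s t x).updateRow (Sum.inr a) (Pi.single (Sum.inr a) 1)).updateRow (Sum.inr b)
        (Pi.single (Sum.inr b) 1)).det := by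
  classical
  let n' : Type := {i : n // i ≠ a ∧ i ≠ b}
  let π : Option n → Option n' := fun o => o.bind fun i =>
    if h : i ≠ a ∧ i ≠ b then some ⟨i, h⟩ else none
  have hπ1 : ∀ (w : Option n) (i : n'), π w = some i ↔ w = some i.1 := by
    intro w i
    cases w with
    | none => simp [π]
    | some j =>
      simp only [π, Option.bind_some]
      by_cases h : j ≠ a ∧ j ≠ b
      · rw [dif_pos h, Option.some.injEq, Option.some.injEq, Subtype.ext_iff]
      · rw [dif_neg h]
        constructor
        · intro h'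
          exact absurd h' (by simp)
        · intro h'
          rw [Option.some.injEq] at h'
          exact absurd (h' ▸ i.2) h
  have hπ0 : ∀ w : Option n, π w = none ↔ w = none ∨ w = some a ∨ w = some b := by
    intro w
    cases w with
    | none => simp [π]
    | some j =>
      simp only [π, Option.bind_some]
      by_cases h : j ≠ a ∧ j ≠ b
      · rw [dif_pos h]
        simp [h.1, h.2]
      · rw [dif_neg h]
        have : j = a ∨ j = b := by tauto
        simp [this]
  have hsurj : Function.Surjective π := by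
    rintro (_ | i)
    · exact ⟨none, rfl⟩
    · exact ⟨some i.1, (hπ1 _ _).2 rfl⟩
  have hker : ∀ u v, mg3 none (some a) (some b) u = mg3 none (some a) (some b) v ↔ π u = π v := by
    intro u v
    have hc : ∀ w : Option n, mg3 none (some a) (some b) w = none ↔
        w = none ∨ w = some a ∨ w = some b := by
      intro w
      unfold mg3
      by_cases hw : w = some a ∨ w = some b
      · rw [if_pos hw]
        exact ⟨fun _ => Or.inr hw, fun _ => rfl⟩
      · rw [if_neg hw]
        exact ⟨fun h => Or.inl h, fun h => h.resolve_right hw⟩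
    have hc' : ∀ w : Option n, ¬ (w = none ∨ w = some a ∨ w = some b) →
        mg3 none (some a) (some b) w = w := by
      intro w hw
      unfold mg3
      rw [if_neg fun h => hw (Or.inr h)]
    by_cases hu : u = none ∨ u = some a ∨ u = some b
    · rw [(hc u).2 hu, (hπ0 u).2 hu]
      constructor
      · intro h
        exact ((hπ0 v).2 ((hc v).1 h.symm)).symm
      · intro h
        exact ((hc v).2 ((hπ0 v).1 h.symm)).symm
    · by_cases hv : v = none ∨ v = some a ∨ v = some b
      · rw [(hc v).2 hv, (hπ0 v).2 hv]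
        constructor
        · intro h
          exact absurd ((hc u).1 h) hu
        · intro h
          exact absurd ((hπ0 u).1 h) hu
      · rw [hc' u hu, hc' v hv]
        constructor
        · intro h
          rw [h]
        · intro h
          obtain ⟨i, hi⟩ := Option.ne_none_iff_exists'.1 fun h => hu ((hπ0 u).1 h)
          rw [hi] at h
          rw [(hπ1 u i).1 hi, (hπ1 v i).1 h.symm]
  rw [mer_ker _ π hker, mer_surj π hsurj, sym_eq_tht, ← mtt]
  -- the determinant
  obtain ⟨M, hM⟩ : ∃ M, M = SM s t x := ⟨_, rfl⟩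
  rw [← hM]
  obtain ⟨N, hN⟩ : ∃ N, N = (M.updateRow (Sum.inr a) (Pi.single (Sum.inr a) 1)).updateRow (Sum.inr b)
        (Pi.single (Sum.inr b) 1) := ⟨_, rfl⟩
  rw [← hN]
  have hNb : ∀ j, N (Sum.inr b) j = Pi.single (M := fun _ => K) (Sum.inr b) 1 j := by
    intro j
    rw [hN, Matrix.updateRow_self]
  have hab' : (Sum.inr a : E ⊕ n) ≠ Sum.inr b := fun h => hab (Sum.inr.inj h)
  have hNa : ∀ j, N (Sum.inr a) j = Pi.single (M := fun _ => K) (Sum.inr a) 1 j := by
    intro j
    rw [hN, Matrix.updateRow_ne hab', Matrix.updateRow_self]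
  have hNo : ∀ i, i ≠ Sum.inr a → i ≠ Sum.inr b → ∀ j, N i j = M i j := by
    intro i hi hi' j
    rw [hN, Matrix.updateRow_ne hi', Matrix.updateRow_ne hi]
  rw [Matrix.twoBlockTriangular_det N (fun i => i ≠ Sum.inr a ∧ i ≠ Sum.inr b) (by
    intro i hi j hj
    have hi' : i = Sum.inr a ∨ i = Sum.inr b := by tauto
    rcases hi' with rfl | rfl
    · rw [hNa, Pi.single_eq_of_ne hj.1]
    · rw [hNb, Pi.single_eq_of_ne hj.2])]
  have h2 : (Matrix.toSquareBlockProp N fun i => ¬ (i ≠ Sum.inr a ∧ i ≠ Sum.inr b)) = 1 := by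
    ext ⟨i, hi⟩ ⟨j, hj⟩
    have hi' : i = Sum.inr a ∨ i = Sum.inr b := by tauto
    rw [Matrix.toSquareBlockProp_def, Matrix.of_apply, Matrix.one_apply]
    rcases hi' with rfl | rfl
    · simp only [Subtype.mk.injEq]
      rw [hNa, Pi.single_apply]
      congr 1
      exact propext eq_comm
    · simp only [Subtype.mk.injEq]
      rw [hNb, Pi.single_apply]
      congr 1
      exact propext eq_comm
  rw [h2, Matrix.det_one, mul_one]
  let f : E ⊕ n' → {i : E ⊕ n // i ≠ Sum.inr a ∧ i ≠ Sum.inr b} :=
    Sum.elim (fun e => ⟨Sum.inl e, by simp⟩) (fun i => ⟨Sum.inr i.1, by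
      have := i.2
      simp [this.1, this.2]⟩)
  have hf : Function.Bijective f := by
    constructor
    · rintro (i | i) (j | j) h <;> simp only [f, Sum.elim_inl, Sum.elim_inr, Subtype.mk.injEq,
        Sum.inl.injEq, Sum.inr.injEq, reduceCtorEq] at h
      · rw [h]
      · rw [Subtype.ext h]
    · rintro ⟨i | i, hi⟩
      · exact ⟨Sum.inl i, rfl⟩
      · exact ⟨Sum.inr ⟨i, by simpa using hi⟩, rfl⟩
  rw [← Matrix.det_submatrix_equiv_self (Equiv.ofBijective f hf)
    (Matrix.toSquareBlockProp N fun i => i ≠ Sum.inr a ∧ i ≠ Sum.inr b)]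
  congr 1
  ext i j
  rw [Matrix.submatrix_apply, Equiv.ofBijective_apply, Equiv.ofBijective_apply,
    Matrix.toSquareBlockProp_def, Matrix.of_apply, hNo _ (f i).2.1 (f i).2.2, hM]
  have hinc : ∀ (e : E) (i : n'), (inc (π ∘ s) (π ∘ t) e i : K) = inc s t e i.1 := by
    intro e i
    by_cases h1 : s e = some i.1 <;> by_cases h2 : t e = some i.1 <;>
      simp [inc, hπ1, h1, h2]
  rcases i with i | i <;> rcases j with j | j
  · simp [f, MM, SM]
  · simp [f, MM, SM, hinc]
  · simp [f, MM, SM, hinc]
  · simp [f, MM, SM]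

private theorem h82r_mg_ker {V : Type} (a b u v : V) :
    mg a b u = mg a b v ↔ u = v ∨ (u = a ∨ u = b) ∧ (v = a ∨ v = b) := by
  unfold mg
  by_cases h1 : u = b <;> by_cases h2 : v = b
  · rw [if_pos h1, if_pos h2]
    subst h1
    subst h2
    simp
  · rw [if_pos h1, if_neg h2]
    constructor
    · intro h
      exact Or.inr ⟨Or.inr h1, Or.inl h.symm⟩
    · rintro (h | ⟨_, h | h⟩)
      · exact absurd (h.symm.trans h1) h2
      · exact h.symm
      · exact absurd h h2
  · rw [if_neg h1, if_pos h2]
    constructor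
    · intro h
      exact Or.inr ⟨Or.inl h, Or.inr h2⟩
    · rintro (h | ⟨h | h, _⟩)
      · exact absurd (h.trans h2) h1
      · exact h
      · exact absurd h h1
  · rw [if_neg h1, if_neg h2]
    constructor
    · intro h
      exact Or.inl h
    · rintro (h | ⟨h | h, h' | h'⟩)
      · exact h
      · exact h.trans h'.symm
      · exact absurd h' h2
      · exact absurd h h1
      · exact absurd h h1

private theorem h82r_mg3_ker {V : Type} (a b c u v : V) :
    mg3 a b c u = mg3 a b c v ↔
      u = v ∨ (u = a ∨ u = b ∨ u = c) ∧ (v = a ∨ v = b ∨ v = c) := by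
  have hc : ∀ w : V, mg3 a b c w = a ↔ w = a ∨ w = b ∨ w = c := by
    intro w
    unfold mg3
    by_cases hw : w = b ∨ w = c
    · rw [if_pos hw]
      exact ⟨fun _ => Or.inr hw, fun _ => rfl⟩
    · rw [if_neg hw]
      exact ⟨fun h => Or.inl h, fun h => h.resolve_right hw⟩
  have hc' : ∀ w : V, ¬ (w = a ∨ w = b ∨ w = c) → mg3 a b c w = w := by
    intro w hw
    unfold mg3
    rw [if_neg fun h => hw (Or.inr h)]
  by_cases h1 : u = a ∨ u = b ∨ u = c <;> by_cases h2 : v = a ∨ v = b ∨ v = c
  · rw [(hc u).2 h1, (hc v).2 h2]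
    exact ⟨fun _ => Or.inr ⟨h1, h2⟩, fun _ => rfl⟩
  · rw [(hc u).2 h1]
    constructor
    · intro h
      exact absurd ((hc v).1 h.symm) h2
    · rintro (h | ⟨_, h⟩)
      · exact absurd (h ▸ h1) h2
      · exact absurd h h2
  · rw [(hc v).2 h2]
    constructor
    · intro h
      exact absurd ((hc u).1 h) h1
    · rintro (h | ⟨h, _⟩)
      · exact absurd (h.symm ▸ h2) h1
      · exact absurd h h1
  · rw [hc' u h1, hc' v h2]
    constructor
    · intro h
      exact Or.inl h
    · rintro (h | ⟨h, _⟩)
      · exact h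
      · exact absurd h h1

/-- the relation with the ground vertex as third terminal -/
private theorem h82r_none {n E K : Type} [Fintype n] [Fintype E] [CommRing K] (s t : E → Option n)
    (x : E → K) (a b : n) (hab : a ≠ b) : (vec s t x (some a) (some b) none).Rel := by
  classical
  have hA : sym s t x = (SM s t x).det := by rw [sym_eq_tht, mtt]
  have hj := jacobi (SM s t x) (Sum.inr a) (Sum.inr b) (fun h => hab (Sum.inr.inj h))
  have h13 : mer (mg (some a) none) s t x = (SM s t x).adjugate (Sum.inr a) (Sum.inr a) := by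
    rw [mer_eq_adj s t x (some a) none (by simp)]
    simp [Finset.sum_ite_eq]
  have h23 : mer (mg (some b) none) s t x = (SM s t x).adjugate (Sum.inr b) (Sum.inr b) := by
    rw [mer_eq_adj s t x (some b) none (by simp)]
    simp [Finset.sum_ite_eq]
  have h12 : mer (mg (some a) (some b)) s t x = (SM s t x).adjugate (Sum.inr a) (Sum.inr a) +
      (SM s t x).adjugate (Sum.inr b) (Sum.inr b) -
      (SM s t x).adjugate (Sum.inr a) (Sum.inr b) -
      (SM s t x).adjugate (Sum.inr b) (Sum.inr a) := by
    rw [mer_eq_adj s t x (some a) (some b) (by simpa using hab)]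
    simp only [Option.some.injEq, sub_mul, mul_sub, Finset.sum_sub_distrib, ite_mul, mul_ite,
      one_mul, mul_one, zero_mul, mul_zero, Finset.sum_ite_eq, Finset.mem_univ, if_true,
      Finset.sum_const_zero, sub_zero]
    ring
  have h3 : mer (mg3 (some a) (some b) none) s t x =
      (((SM s t x).updateRow (Sum.inr a) (Pi.single (Sum.inr a) 1)).updateRow (Sum.inr b)
        (Pi.single (Sum.inr b) 1)).det := by
    rw [← mer3_eq_det s t x a b hab]
    refine mer_ker _ _ (fun u v => ?_) s t x
    rw [h82r_mg3_ker, h82r_mg3_ker]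
    tauto
  have hs := SM_adj_symm s t x a b
  refine ⟨(SM s t x).adjugate (Sum.inr a) (Sum.inr a) +
      (SM s t x).adjugate (Sum.inr b) (Sum.inr b) -
      (SM s t x).adjugate (Sum.inr a) (Sum.inr b), ?_, ?_⟩
  · simp only [vec]
    rw [h12, h13, h23, ← hs]
    ring
  · simp only [vec]
    rw [hA, h12, h13, h23, h3, hj, ← hs]
    ring

/-- MODULE REL: the relation.

Proof.  First for `V = Option n` and `c = none`, `a = some a'`, `b = some b'`: put
`α = adj_{a'a'}`, `β = adj_{b'b'}`, `γ = adj_{a'b'} = adj_{b'a'}`.  `mer_eq_adj`: `P13 = α`, `P23 = β`, `P12 = α + β - 2 γ`;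
`A = det (SM s t x)` (`sym_eq_tht`, `mtt`), `C = mer3_eq_det` (with `mer_ker`), so `jacobi` says `A C = α β - γ ^ 2`.
Take `σ = α + β - γ`.  In general choose an equivalence `V ≃ Option {v // v ≠ c}` that sends `c` to `none`
(`Equiv.optionSubtypeNe`), and transport (`mer_comp`, `mer_ker`, `mer_inj`). -/
theorem vec_rel {V E K : Type} [Fintype V] [Fintype E] [CommRing K] (s t : E → V) (x : E → K)
    (a b c : V) (hab : a ≠ b) (hac : a ≠ c) (hbc : b ≠ c) : (vec s t x a b c).Rel := by
  classical
  obtain ⟨f, hf⟩ : ∃ f : V ≃ Option {v : V // v ≠ c}, f = (Equiv.optionSubtypeNe c).symm :=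
    ⟨_, rfl⟩
  have hfc : f c = none := by rw [hf]; exact Equiv.optionSubtypeNe_symm_self c
  have hfa : f a = some ⟨a, hac⟩ := by rw [hf]; exact Equiv.optionSubtypeNe_symm_of_ne hac
  have hfb : f b = some ⟨b, hbc⟩ := by rw [hf]; exact Equiv.optionSubtypeNe_symm_of_ne hbc
  have h1 := h82r_none (f ∘ s) (f ∘ t) x ⟨a, hac⟩ ⟨b, hbc⟩ (fun h => hab (Subtype.ext_iff.1 h))
  rw [← hfa, ← hfb, ← hfc] at h1
  have h2 : vec (f ∘ s) (f ∘ t) x (f a) (f b) (f c) = vec s t x a b c := by
    have e0 : sym (f ∘ s) (f ∘ t) x = sym s t x := by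
      rw [← mer_surj f f.surjective, mer_inj f f.injective]
    have e1 : ∀ p q : V, mer (mg (f p) (f q)) (f ∘ s) (f ∘ t) x = mer (mg p q) s t x := by
      intro p q
      rw [mer_comp f f.surjective]
      refine mer_ker _ _ (fun u v => ?_) s t x
      simp only [Function.comp]
      rw [h82r_mg_ker, h82r_mg_ker]
      simp only [f.injective.eq_iff]
    have e2 : mer (mg3 (f a) (f b) (f c)) (f ∘ s) (f ∘ t) x = mer (mg3 a b c) s t x := by
      rw [mer_comp f f.surjective]
      refine mer_ker _ _ (fun u v => ?_) s t x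
      simp only [Function.comp]
      rw [h82r_mg3_ker, h82r_mg3_ker]
      simp only [f.injective.eq_iff]
    rw [vec, vec, e0, e1, e1, e1, e2]
  rw [h2] at h1
  exact h1

end Pool.Agent.KG
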