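import Pool.Agent.KG.Defs

/-!
# Spanning trees of multigraphs: elementary facts

Conventions: `V`, `W` are types of vertices, `E`, `E'` types of edges, `s t : E → V` the end points.
-/

set_option autoImplicit false

open scoped BigOperators

namespace Pool.Agent.KG

/-- MODULE TCARD.  A connected multigraph has at least `card V - 1` edges.

Proof.  If `V` is empty there is nothing to prove.  Let `v0 : V`.  In `V → ℚ` the vectors
`Pi.single v0 1` and `Pi.single (s e) 1 - Pi.single (t e) 1`, `e ∈ T`, span everything: by induction on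
`Relation.ReflTransGen` (from `v0` to `v`) every `Pi.single v 1` is in the span.  They are at most
`T.card + 1` vectors (image of `T` under a map, and `v0`), and `finrank_span_finset_le_card`. -/
theorem card_le_of_conn {V E : Type} [Fintype V] (s t : E → V) (T : Finset E)
    (h : ∀ u v : V, Relation.ReflTransGen
      (fun a b => ∃ e ∈ T, (s e = a ∧ t e = b) ∨ (s e = b ∧ t e = a)) u v) :
    Fintype.card V ≤ T.card + 1 := by
  classical
  rcases isEmpty_or_nonempty V with hV | ⟨⟨v0⟩⟩
  · rw [Fintype.card_eq_zero]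
    exact Nat.zero_le _
  let S : Finset (V → ℚ) := insert (Pi.single v0 1)
    (T.image fun e => (Pi.single (s e) 1 - Pi.single (t e) 1 : V → ℚ))
  have h1 : ∀ v : V, (Pi.single v 1 : V → ℚ) ∈ Submodule.span ℚ (S : Set (V → ℚ)) := by
    intro v
    have h2 := h v0 v
    induction h2 with
    | refl => exact Submodule.subset_span (Finset.mem_coe.2 (Finset.mem_insert_self _ _))
    | tail _ hbc ih =>
      obtain ⟨e, he, hst⟩ := hbc
      have h3 : (Pi.single (s e) 1 - Pi.single (t e) 1 : V → ℚ) ∈
          Submodule.span ℚ (S : Set (V → ℚ)) :=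
        Submodule.subset_span (Finset.mem_coe.2 (Finset.mem_insert_of_mem
          (Finset.mem_image_of_mem _ he)))
      rcases hst with ⟨h4, h5⟩ | ⟨h4, h5⟩
      · rw [h4, h5] at h3
        have := Submodule.sub_mem _ ih h3
        rwa [sub_sub_cancel] at this
      · rw [h4, h5] at h3
        have := Submodule.add_mem _ ih h3
        rwa [add_sub_cancel] at this
  have h2 : Submodule.span ℚ (S : Set (V → ℚ)) = ⊤ := by
    rw [eq_top_iff]
    intro x _
    rw [pi_eq_sum_univ' x]
    refine Submodule.sum_mem _ fun i _ => Submodule.smul_mem _ _ ?_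
    exact h1 i
  have h3 := finrank_span_finset_le_card (R := ℚ) S
  rw [Set.finrank, h2, finrank_top, Module.finrank_fintype_fun_eq_card] at h3
  refine h3.trans ((Finset.card_insert_le _ _).trans ?_)
  exact Nat.succ_le_succ Finset.card_image_le

/-- MODULE ISO (1). -/
theorem isTree_iso {V W E E' : Type} [Fintype V] [Fintype W]
    (f : V ≃ W) (g : E ≃ E') (s t : E → V) (s' t' : E' → W) (hs : ∀ e, s' (g e) = f (s e))
    (ht : ∀ e, t' (g e) = f (t e)) (T : Finset E) :
    IsTree s' t' (T.map g.toEmbedding) ↔ IsTree s t T := by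
  unfold IsTree
  rw [Finset.card_map, ← Fintype.card_congr f]
  refine and_congr_right fun _ => ⟨fun h u v => ?_, fun h u v => ?_⟩
  · have h1 := h (f u) (f v)
    have h2 := Relation.ReflTransGen.lift (p := fun a b => ∃ e ∈ T, (s e = a ∧ t e = b) ∨
      (s e = b ∧ t e = a)) f.symm ?_ _ _ h1
    · simpa [Function.onFun] using h2
    · rintro a b ⟨e', he', hst⟩
      obtain ⟨e, he, rfl⟩ := Finset.mem_map.1 he'
      refine ⟨e, he, ?_⟩
      simp only [Equiv.coe_toEmbedding] at hst
      rw [hs, ht] at hst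
      rcases hst with ⟨h3, h4⟩ | ⟨h3, h4⟩
      · exact Or.inl ⟨by rw [← h3, f.symm_apply_apply], by rw [← h4, f.symm_apply_apply]⟩
      · exact Or.inr ⟨by rw [← h3, f.symm_apply_apply], by rw [← h4, f.symm_apply_apply]⟩
  · have h1 := h (f.symm u) (f.symm v)
    have h2 := Relation.ReflTransGen.lift (p := fun a b => ∃ e ∈ T.map g.toEmbedding,
      (s' e = a ∧ t' e = b) ∨ (s' e = b ∧ t' e = a)) f ?_ _ _ h1
    · simpa [Function.onFun] using h2
    · rintro a b ⟨e, he, hst⟩
      refine ⟨g e, Finset.mem_map_of_mem g.toEmbedding he, ?_⟩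
      rw [hs, ht]
      rcases hst with ⟨h3, h4⟩ | ⟨h3, h4⟩
      · exact Or.inl ⟨by rw [h3], by rw [h4]⟩
      · exact Or.inr ⟨by rw [h3], by rw [h4]⟩

/-- MODULE ISO (2): invariance under isomorphism.

Proof: reindex the sum over `T' : Finset E'` by `T ↦ T.map g.toEmbedding` (`Equiv.finsetCongr g`), use
`isTree_iso`, `Finset.prod_map`, and `(T.map g.toEmbedding)ᶜ = Tᶜ.map g.toEmbedding`. -/
theorem tht_iso {V W E E' K : Type} [Fintype V] [Fintype W] [Fintype E] [Fintype E'] [CommRing K]
    (f : V ≃ W) (g : E ≃ E') (s t : E → V) (s' t' : E' → W) (hs : ∀ e, s' (g e) = f (s e))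
    (ht : ∀ e, t' (g e) = f (t e)) (α β : E' → K) :
    tht s' t' α β = tht s t (α ∘ g) (β ∘ g) := by
  classical
  unfold tht
  symm
  refine Fintype.sum_equiv (Equiv.finsetCongr g) _ _ fun T => ?_
  have h1 : (T.map g.toEmbedding)ᶜ = Tᶜ.map g.toEmbedding := by
    ext e'
    obtain ⟨e, rfl⟩ := g.surjective e'
    simp
  have h2 := isTree_iso f g s t s' t' hs ht T
  rw [Equiv.finsetCongr_apply]
  by_cases h : IsTree s t T
  · rw [if_pos h, if_pos (h2.2 h), h1, Finset.prod_map, Finset.prod_map]
    rfl
  · rw [if_neg h, if_neg (fun h' => h (h2.1 h'))]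

/-- MODULE FLIP: the orientation of the edges is irrelevant. -/
theorem tht_flip {V E K : Type} [Fintype V] [Fintype E] [CommRing K] (s t s' t' : E → V)
    (h : ∀ e, (s' e = s e ∧ t' e = t e) ∨ (s' e = t e ∧ t' e = s e)) (α β : E → K) :
    tht s' t' α β = tht s t α β := by
  classical
  have h1 : ∀ T : Finset E, IsTree s' t' T ↔ IsTree s t T := by
    intro T
    unfold IsTree
    have h2 : (fun a b => ∃ e ∈ T, (s' e = a ∧ t' e = b) ∨ (s' e = b ∧ t' e = a)) =
        fun a b => ∃ e ∈ T, (s e = a ∧ t e = b) ∨ (s e = b ∧ t e = a) := by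
      funext a b
      apply propext
      refine exists_congr fun e => and_congr_right fun _ => ?_
      rcases h e with ⟨h3, h4⟩ | ⟨h3, h4⟩
      · rw [h3, h4]
      · rw [h3, h4]
        tauto
    rw [h2]
  unfold tht
  refine Finset.sum_congr rfl fun T _ => ?_
  by_cases h : IsTree s t T
  · rw [if_pos h, if_pos ((h1 T).2 h)]
  · rw [if_neg h, if_neg (fun h' => h ((h1 T).1 h'))]

/-- MODULE FLIP (2). -/
theorem kir_eq_tht {V E K : Type} [Fintype V] [Fintype E] [CommRing K] (s t : E → V) (y : E → K) :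
    kir s t y = tht s t y 1 := by
  unfold kir tht
  simp

/-- MODULE FLIP (3). -/
theorem sym_eq_tht {V E K : Type} [Fintype V] [Fintype E] [CommRing K] (s t : E → V) (x : E → K) :
    sym s t x = tht s t 1 x := by
  unfold sym tht
  simp

end Pool.Agent.KG
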